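import Mathlib

/-! Symplectic contents and hook lengths: the product of `c_sp / h` over a Young diagram is
`0` unless the diagram is (transposed) doubled distinct, and then it is a sign. -/

namespace Pool.Agent.X20.Doubled

open Finset

/-- symplectic content of the cell `c = (i, j)` (zero based) of the Young diagram `μ` -/
def csp (μ : YoungDiagram) (c : ℕ × ℕ) : ℤ :=
  if c.2 < c.1 then ((μ.rowLen c.1 : ℤ) - (c.1 + 1)) + ((μ.rowLen c.2 : ℤ) - (c.2 + 1)) + 2
  else -((μ.colLen c.1 : ℤ) - (c.1 + 1)) - ((μ.colLen c.2 : ℤ) - (c.2 + 1))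

/-- orthogonal content of the cell `c = (i, j)` (zero based) of the Young diagram `μ` -/
def cO (μ : YoungDiagram) (c : ℕ × ℕ) : ℤ :=
  if c.2 ≤ c.1 then ((μ.rowLen c.1 : ℤ) - (c.1 + 1)) + ((μ.rowLen c.2 : ℤ) - (c.2 + 1))
  else -((μ.colLen c.1 : ℤ) - (c.1 + 1)) - ((μ.colLen c.2 : ℤ) - (c.2 + 1)) - 2

/-- hook length of the cell `c = (i, j)` (zero based) of the Young diagram `μ` -/
def hook (μ : YoungDiagram) (c : ℕ × ℕ) : ℤ :=
  ((μ.rowLen c.1 : ℤ) - (c.2 + 1)) + ((μ.colLen c.2 : ℤ) - (c.1 + 1)) + 1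

theorem hook_pos (μ : YoungDiagram) (c : ℕ × ℕ) (hc : c ∈ μ) : 0 < hook μ c := by
  obtain ⟨i, j⟩ := c
  have h1 := YoungDiagram.mem_iff_lt_rowLen.mp hc
  have h2 := YoungDiagram.mem_iff_lt_colLen.mp hc
  unfold hook
  dsimp only
  omega

/-- the shape condition: cells on or above the diagonal correspond to those below -/
def IsD (μ : YoungDiagram) : Prop :=
  ∀ i j : ℕ, i ≤ j → ((i, j) ∈ μ ↔ (j + 1, i) ∈ μ)

theorem comp (μ : YoungDiagram) (x : ℕ) :
    (∃ j : ℕ, (j : ℤ) - μ.colLen j = x) ∨ ∃ k : ℕ, (μ.rowLen k : ℤ) - k - 1 = x := by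
  classical
  have hex : ∃ j, μ.colLen j + x ≤ j := by
    refine ⟨μ.colLen 0 + x, ?_⟩
    have := μ.colLen_anti 0 (μ.colLen 0 + x) (Nat.zero_le _)
    omega
  set j := Nat.find hex with hj
  have h1 : μ.colLen j + x ≤ j := Nat.find_spec hex
  rcases Nat.lt_or_ge (μ.colLen j + x) j with h2 | h2
  · right
    obtain ⟨j', hj'⟩ : ∃ j', j = j' + 1 := ⟨j - 1, by omega⟩
    have h3 : j' < μ.colLen j' + x := by
      have := Nat.find_min hex (m := j') (by omega)
      omega
    rw [hj'] at h2
    -- k = j - 1 - x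
    refine ⟨j' - x, ?_⟩
    have h4 : (j' - x, j') ∈ μ := YoungDiagram.mem_iff_lt_colLen.mpr (by omega)
    have h5 : (j' - x, j' + 1) ∉ μ := by
      rw [YoungDiagram.mem_iff_lt_colLen]; omega
    rw [YoungDiagram.mem_iff_lt_rowLen] at h4 h5
    omega
  · left
    exact ⟨j, by omega⟩

theorem comp' (μ : YoungDiagram) (x : ℕ) :
    (∃ i : ℕ, (i : ℤ) - μ.rowLen i = x) ∨ ∃ k : ℕ, (μ.colLen k : ℤ) - k - 1 = x := by
  have := comp μ.transpose x
  simpa only [YoungDiagram.colLen_transpose, YoungDiagram.rowLen_transpose] using this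

theorem claimA (μ : YoungDiagram) (h : ∀ c ∈ μ, csp μ c ≠ 0) :
    ∀ i, (i, i) ∈ μ → μ.rowLen i + 1 ≤ μ.colLen i := by
  by_contra hcon
  push Not at hcon
  obtain ⟨i0, hi0, hlt0⟩ := hcon
  -- largest bad index
  have hbound : ∀ i, (i, i) ∈ μ → i ≤ μ.rowLen 0 := by
    intro i hi
    have h1 := YoungDiagram.mem_iff_lt_rowLen.mp hi
    have h2 := μ.rowLen_anti 0 i (Nat.zero_le _)
    omega
  classical
  set s := (range (μ.rowLen 0 + 1)).filter (fun i => (i, i) ∈ μ ∧ μ.colLen i < μ.rowLen i + 1) with hs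
  have hne : s.Nonempty := ⟨i0, by
    rw [hs, mem_filter, mem_range]
    exact ⟨by have := hbound i0 hi0; omega, hi0, hlt0⟩⟩
  set i := s.max' hne with hi
  have hmem : i ∈ s := s.max'_mem hne
  rw [hs, mem_filter, mem_range] at hmem
  obtain ⟨-, himem, hilt⟩ := hmem
  have hic := YoungDiagram.mem_iff_lt_colLen.mp himem
  have hir := YoungDiagram.mem_iff_lt_rowLen.mp himem
  have hd := h (i, i) himem
  unfold csp at hd
  dsimp only at hd
  rw [if_neg (lt_irrefl i)] at hd
  obtain ⟨x, hx⟩ : ∃ x : ℕ, μ.colLen i = i + 2 + x := ⟨μ.colLen i - i - 2, by omega⟩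
  rcases comp μ x with ⟨j, hj⟩ | ⟨k, hk⟩
  · have hjr : j < μ.rowLen i := by
      by_contra hge
      have h1 : (i, j) ∉ μ := by rw [YoungDiagram.mem_iff_lt_rowLen]; exact hge
      rw [YoungDiagram.mem_iff_lt_colLen] at h1
      omega
    have hij : i ≤ j := by
      by_contra hlt
      have := μ.colLen_anti j i (by omega)
      omega
    have h2 := h (i, j) (YoungDiagram.mem_iff_lt_rowLen.mpr hjr)
    unfold csp at h2
    dsimp only at h2
    rw [if_neg (by omega)] at h2
    omega
  · have hkk : (k, k) ∈ μ := by rw [YoungDiagram.mem_iff_lt_rowLen]; omega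
    have hik : i < k := by
      by_contra hge
      have := μ.rowLen_anti k i (by omega)
      omega
    have h1 := μ.colLen_anti i k (by omega)
    have h2 : k ∈ s := by
      rw [hs, mem_filter, mem_range]
      exact ⟨by have := hbound k hkk; omega, hkk, by omega⟩
    have := s.le_max' k h2
    omega

theorem claimB (μ : YoungDiagram) (h : ∀ c ∈ μ, csp μ c ≠ 0) :
    ∀ i, (i, i) ∈ μ → μ.colLen i ≤ μ.rowLen i + 1 := by
  by_contra hcon
  push Not at hcon
  obtain ⟨i0, hi0, hlt0⟩ := hcon
  have hbound : ∀ i, (i, i) ∈ μ → i ≤ μ.rowLen 0 := by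
    intro i hi
    have h1 := YoungDiagram.mem_iff_lt_rowLen.mp hi
    have h2 := μ.rowLen_anti 0 i (Nat.zero_le _)
    omega
  classical
  set s := (range (μ.rowLen 0 + 1)).filter (fun i => (i, i) ∈ μ ∧ μ.rowLen i + 1 < μ.colLen i) with hs
  have hne : s.Nonempty := ⟨i0, by
    rw [hs, mem_filter, mem_range]
    exact ⟨by have := hbound i0 hi0; omega, hi0, hlt0⟩⟩
  set i := s.max' hne with hi
  have hmem : i ∈ s := s.max'_mem hne
  rw [hs, mem_filter, mem_range] at hmem
  obtain ⟨-, himem, hilt⟩ := hmem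
  have hic := YoungDiagram.mem_iff_lt_colLen.mp himem
  have hir := YoungDiagram.mem_iff_lt_rowLen.mp himem
  obtain ⟨x, hx⟩ : ∃ x : ℕ, μ.rowLen i = i + x := ⟨μ.rowLen i - i, by omega⟩
  rcases comp' μ x with ⟨r, hr⟩ | ⟨k, hk⟩
  · have hri : i < r := by
      by_contra hge
      have := μ.rowLen_anti r i (by omega)
      omega
    have hrc : r < μ.colLen i := by
      by_contra hge
      have h1 : (r, i) ∉ μ := by rw [YoungDiagram.mem_iff_lt_colLen]; exact hge
      rw [YoungDiagram.mem_iff_lt_rowLen] at h1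
      omega
    have h2 := h (r, i) (YoungDiagram.mem_iff_lt_colLen.mpr hrc)
    unfold csp at h2
    dsimp only at h2
    rw [if_pos hri] at h2
    omega
  · have hkk : (k, k) ∈ μ := by rw [YoungDiagram.mem_iff_lt_colLen]; omega
    have hik : i < k := by
      by_contra hge
      have := μ.colLen_anti k i (by omega)
      omega
    have h1 := μ.rowLen_anti i k (by omega)
    have h2 : k ∈ s := by
      rw [hs, mem_filter, mem_range]
      exact ⟨by have := hbound k hkk; omega, hkk, by omega⟩
    have := s.le_max' k h2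
    omega

theorem isD_of_ne_zero (μ : YoungDiagram) (h : ∀ c ∈ μ, csp μ c ≠ 0) : IsD μ := by
  intro i j hij
  constructor
  · intro hm
    have hii : (i, i) ∈ μ := μ.up_left_mem le_rfl hij hm
    have h1 := claimA μ h i hii
    rw [YoungDiagram.mem_iff_lt_rowLen] at hm
    rw [YoungDiagram.mem_iff_lt_colLen]
    omega
  · intro hm
    have hii : (i, i) ∈ μ := μ.up_left_mem (by omega) le_rfl hm
    have h1 := claimB μ h i hii
    rw [YoungDiagram.mem_iff_lt_colLen] at hm
    rw [YoungDiagram.mem_iff_lt_rowLen]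
    omega

theorem IsD.colLen {μ : YoungDiagram} (h : IsD μ) (i : ℕ) (hi : (i, i) ∈ μ) :
    μ.colLen i = μ.rowLen i + 1 := by
  have hir := YoungDiagram.mem_iff_lt_rowLen.mp hi
  have h1 : (i, μ.rowLen i - 1) ∈ μ := by rw [YoungDiagram.mem_iff_lt_rowLen]; omega
  rw [h i (μ.rowLen i - 1) (by omega), YoungDiagram.mem_iff_lt_colLen] at h1
  have h2 : (i, μ.rowLen i) ∉ μ := by rw [YoungDiagram.mem_iff_lt_rowLen]; omega
  rw [h i (μ.rowLen i) (by omega), YoungDiagram.mem_iff_lt_colLen] at h2
  omega

/-- for doubled shapes, the content is the hook length up to sign -/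
theorem IsD.csp_eq {μ : YoungDiagram} (h : IsD μ) (c : ℕ × ℕ) (hc : c ∈ μ) :
    csp μ c = if c.2 < c.1 then hook μ c else - hook μ c := by
  obtain ⟨i, j⟩ := c
  dsimp only
  split_ifs with hji
  · obtain ⟨i', rfl⟩ : ∃ i', i = i' + 1 := ⟨i - 1, by omega⟩
    have h1 : (j, i') ∈ μ := (h j i' (by omega)).mpr hc
    have h2 := h.colLen j (μ.up_left_mem le_rfl (by omega) h1)
    unfold csp hook
    dsimp only
    rw [if_pos hji, h2]
    push_cast
    ring
  · have h2 := h.colLen i (μ.up_left_mem le_rfl (by omega) hc)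
    unfold csp hook
    dsimp only
    rw [if_neg hji, h2]
    push_cast
    ring

/-- the cells on or above the diagonal -/
def upper (μ : YoungDiagram) : Finset (ℕ × ℕ) := μ.cells.filter fun c => c.1 ≤ c.2

theorem IsD.card {μ : YoungDiagram} (h : IsD μ) : μ.card = 2 * (upper μ).card := by
  have h1 : (μ.cells.filter fun c => ¬ c.1 ≤ c.2).card = (upper μ).card := by
    symm
    apply Finset.card_bij (fun c _ => (c.2 + 1, c.1))
    · intro c hc
      rw [upper, mem_filter] at hc
      rw [mem_filter]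
      refine ⟨?_, by dsimp only; omega⟩
      exact (h c.1 c.2 hc.2).mp hc.1
    · rintro ⟨a, b⟩ _ ⟨c, d⟩ _ hcd
      simp only [Prod.mk.injEq] at hcd ⊢
      omega
    · rintro ⟨a, b⟩ hab
      rw [mem_filter] at hab
      dsimp only at hab
      refine ⟨(b, a - 1), ?_, ?_⟩
      · rw [upper, mem_filter]
        refine ⟨?_, by dsimp only; omega⟩
        have h2 := h b (a - 1) (by omega)
        rw [show a - 1 + 1 = a by omega] at h2
        exact h2.mpr hab.1
      · dsimp only
        rw [show a - 1 + 1 = a by omega]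
  have h2 := Finset.card_filter_add_card_filter_not (s := μ.cells) (fun c => c.1 ≤ c.2)
  unfold YoungDiagram.card
  rw [← h2, h1]
  unfold upper
  ring

/-- product of contents over hooks -/
noncomputable def wt (μ : YoungDiagram) : ℚ := ∏ c ∈ μ.cells, ((csp μ c : ℚ) / (hook μ c : ℚ))

theorem wt_isD {μ : YoungDiagram} (h : IsD μ) : wt μ = (-1) ^ (upper μ).card := by
  unfold wt
  have h1 : ∀ c ∈ μ.cells, ((csp μ c : ℚ) / (hook μ c : ℚ)) = if c.1 ≤ c.2 then -1 else 1 := by
    intro c hc
    have hpos := hook_pos μ c hc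
    have hne : (hook μ c : ℚ) ≠ 0 := by exact_mod_cast hpos.ne'
    rw [h.csp_eq c hc]
    split_ifs with h1 h2 h3
    · omega
    · rw [div_self hne]
    · push_cast; rw [neg_div, div_self hne]
    · omega
  rw [Finset.prod_congr rfl h1, Finset.prod_ite, Finset.prod_const, Finset.prod_const_one, mul_one]
  rfl

theorem wt_not_isD {μ : YoungDiagram} (h : ¬ IsD μ) : wt μ = 0 := by
  have h1 : ¬ ∀ c ∈ μ, csp μ c ≠ 0 := fun h2 => h (isD_of_ne_zero μ h2)
  push Not at h1
  obtain ⟨c, hc, hc0⟩ := h1
  exact Finset.prod_eq_zero (i := c) hc (by rw [hc0]; simp)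

/-! ### Doubled shapes and strict partitions -/

/-- number of elements of `S` larger than `t` -/
def NN (S : Finset ℕ) (t : ℕ) : ℕ := (S.filter fun s => t < s).card

theorem NN_anti (S : Finset ℕ) {t t' : ℕ} (h : t ≤ t') : NN S t' ≤ NN S t := by
  apply Finset.card_le_card
  intro s hs
  rw [mem_filter] at hs ⊢
  exact ⟨hs.1, by omega⟩

theorem NN_succ (S : Finset ℕ) (t : ℕ) :
    NN S t = NN S (t + 1) + if t + 1 ∈ S then 1 else 0 := by
  unfold NN
  have h1 : S.filter (fun s => t < s) = S.filter (fun s => t + 1 < s) ∪ S.filter (fun s => s = t + 1) := by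
    ext s
    simp only [mem_union, mem_filter]
    constructor
    · rintro ⟨h1, h2⟩
      rcases Nat.lt_or_ge (t + 1) s with h | h
      · exact Or.inl ⟨h1, h⟩
      · exact Or.inr ⟨h1, by omega⟩
    · rintro (⟨h1, h2⟩ | ⟨h1, h2⟩)
      · exact ⟨h1, by omega⟩
      · exact ⟨h1, by omega⟩
  rw [h1, Finset.card_union_of_disjoint]
  · congr 1
    rw [Finset.filter_eq']
    split_ifs <;> simp
  · rw [Finset.disjoint_left]
    intro s hs hs'
    rw [mem_filter] at hs hs'
    omega

theorem NN_le_card (S : Finset ℕ) (t : ℕ) : NN S t ≤ S.card := Finset.card_filter_le _ _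

/-- the membership predicate of the doubled shape of `S` -/
def PP (S : Finset ℕ) (p q : ℕ) : Prop := if p ≤ q then p < NN S (q - p) else q < NN S (p - 1 - q)

instance (S : Finset ℕ) (p q : ℕ) : Decidable (PP S p q) := by unfold PP; infer_instance

theorem PP_step1 (S : Finset ℕ) (p q : ℕ) (h : PP S (p + 1) q) : PP S p q := by
  unfold PP at *
  split_ifs at h with h1
  · rw [if_pos (by omega)]
    have h2 := NN_succ S (q - (p + 1))
    rw [show q - (p + 1) + 1 = q - p by omega] at h2
    split_ifs at h2 <;> omega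
  · split_ifs with h2
    · have e : p = q := by omega
      subst e
      simpa using h
    · have h3 := NN_anti S (t := p - 1 - q) (t' := p + 1 - 1 - q) (by omega)
      omega

theorem PP_step2 (S : Finset ℕ) (p q : ℕ) (h : PP S p (q + 1)) : PP S p q := by
  unfold PP at *
  split_ifs at h with h1
  · split_ifs with h2
    · have h3 := NN_anti S (t := q - p) (t' := q + 1 - p) (by omega)
      omega
    · have e : p = q + 1 := by omega
      subst e
      simp only [Nat.sub_self, Nat.add_sub_cancel] at h ⊢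
      omega
  · rw [if_neg (by omega)]
    have h2 := NN_succ S (p - 1 - (q + 1))
    rw [show p - 1 - (q + 1) + 1 = p - 1 - q by omega] at h2
    split_ifs at h2 <;> omega

theorem PP_mono1 (S : Finset ℕ) (p q c : ℕ) (h : PP S (p + c) q) : PP S p q := by
  induction c with
  | zero => exact h
  | succ c ih => exact ih (PP_step1 S _ _ h)

theorem PP_mono2 (S : Finset ℕ) (p q c : ℕ) (h : PP S p (q + c)) : PP S p q := by
  induction c with
  | zero => exact h
  | succ c ih => exact ih (PP_step2 S _ _ h)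

theorem PP_mono (S : Finset ℕ) {p q p' q' : ℕ} (hp : p' ≤ p) (hq : q' ≤ q) (h : PP S p q) :
    PP S p' q' := by
  obtain ⟨c, rfl⟩ := Nat.exists_eq_add_of_le hp
  obtain ⟨d, rfl⟩ := Nat.exists_eq_add_of_le hq
  exact PP_mono1 S _ _ c (PP_mono2 S _ _ d h)

theorem NN_zero_of_ge (S : Finset ℕ) (t : ℕ) (h : S.sup id ≤ t) : NN S t = 0 := by
  unfold NN
  rw [Finset.card_eq_zero, Finset.filter_eq_empty_iff]
  intro s hs
  have : s ≤ S.sup id := Finset.le_sup (f := id) hs
  omega

theorem PP_bound (S : Finset ℕ) (p q : ℕ) (h : PP S p q) :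
    p < S.card + S.sup id + 1 ∧ q < S.card + S.sup id + 1 := by
  unfold PP at h
  split_ifs at h with h1
  · have h2 := NN_le_card S (q - p)
    have h3 : q - p < S.sup id := by
      by_contra hge
      rw [NN_zero_of_ge S _ (by omega)] at h
      omega
    omega
  · have h2 := NN_le_card S (p - 1 - q)
    have h3 : p - 1 - q < S.sup id := by
      by_contra hge
      rw [NN_zero_of_ge S _ (by omega)] at h
      omega
    omega

/-- the doubled shape of the strict partition with set of parts `S` -/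
def shape (S : Finset ℕ) : YoungDiagram where
  cells := (range (S.card + S.sup id + 1) ×ˢ range (S.card + S.sup id + 1)).filter
    fun c => PP S c.1 c.2
  isLowerSet := by
    rintro ⟨p, q⟩ ⟨p', q'⟩ hle h
    have hle' : p' ≤ p ∧ q' ≤ q := Prod.mk_le_mk.mp hle
    simp only [coe_filter, mem_product, mem_range, Set.mem_ofPred_eq] at h ⊢
    have h1 := PP_mono S hle'.1 hle'.2 h.2
    exact ⟨PP_bound S _ _ h1, h1⟩

theorem mem_shape (S : Finset ℕ) (p q : ℕ) : (p, q) ∈ shape S ↔ PP S p q := by
  rw [← YoungDiagram.mem_cells]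
  simp only [shape, mem_filter, mem_product, mem_range]
  constructor
  · exact fun h => h.2
  · exact fun h => ⟨PP_bound S _ _ h, h⟩

theorem shape_isD (S : Finset ℕ) : IsD (shape S) := by
  intro i j hij
  rw [mem_shape, mem_shape]
  unfold PP
  rw [if_pos hij, if_neg (by omega)]
  simp

theorem sum_NN (S : Finset ℕ) (B : ℕ) (hB : ∀ s ∈ S, s ≤ B) : ∑ t ∈ range B, NN S t = ∑ s ∈ S, s := by
  unfold NN
  simp only [Finset.card_filter]
  rw [Finset.sum_comm]
  apply Finset.sum_congr rfl
  intro s hs
  rw [← Finset.card_filter]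
  have : (range B).filter (fun t => t < s) = range s := by
    ext t
    rw [mem_filter, mem_range, mem_range]
    have := hB s hs
    omega
  rw [this, card_range]

theorem card_upper_shape (S : Finset ℕ) : (upper (shape S)).card = ∑ s ∈ S, s := by
  rw [← sum_NN S (S.card + S.sup id + 1) (fun s hs => by
    have : s ≤ S.sup id := Finset.le_sup (f := id) hs
    omega)]
  rw [Finset.card_eq_sum_card_fiberwise (f := fun c => c.2 - c.1)
    (t := range (S.card + S.sup id + 1))]
  · apply Finset.sum_congr rfl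
    intro t _
    rw [← card_range (NN S t)]
    symm
    apply Finset.card_bij (fun i _ => (i, i + t))
    · intro i hi
      rw [mem_range] at hi
      rw [mem_filter, upper, mem_filter]
      refine ⟨⟨?_, by dsimp only; omega⟩, by dsimp only; omega⟩
      change (i, i + t) ∈ shape S
      rw [mem_shape]
      unfold PP
      rw [if_pos (by omega)]
      simpa using hi
    · intro i _ j _ hij
      simpa using (Prod.mk.inj hij).1
    · rintro ⟨i, j⟩ hij
      rw [mem_filter, upper, mem_filter] at hij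
      obtain ⟨⟨h1, h2⟩, h3⟩ := hij
      dsimp only at h2 h3
      have h1' : (i, j) ∈ shape S := h1
      rw [mem_shape] at h1'
      unfold PP at h1'
      rw [if_pos h2, h3] at h1'
      exact ⟨i, mem_range.mpr h1', by rw [Prod.mk.injEq]; omega⟩
  · rintro ⟨i, j⟩ hij
    rw [mem_coe, upper, mem_filter] at hij
    have h1 : (i, j) ∈ shape S := hij.1
    rw [mem_shape] at h1
    have := PP_bound S _ _ h1
    rw [mem_coe, mem_range]
    dsimp only
    omega

theorem shape_inj {S S' : Finset ℕ} (h0 : 0 ∉ S) (h0' : 0 ∉ S') (h : shape S = shape S') :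
    S = S' := by
  have h1 : ∀ t, NN S t = NN S' t := by
    intro t
    have h2 : ∀ i, i < NN S t ↔ i < NN S' t := by
      intro i
      have h3 : (i, i + t) ∈ shape S ↔ (i, i + t) ∈ shape S' := by rw [h]
      rw [mem_shape, mem_shape] at h3
      unfold PP at h3
      rw [if_pos (by omega), if_pos (by omega)] at h3
      simpa using h3
    apply le_antisymm
    · by_contra hlt
      have := (h2 (NN S' t)).mp (by omega)
      omega
    · by_contra hlt
      have := (h2 (NN S t)).mpr (by omega)
      omega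
  ext s
  rcases s with _ | t
  · simp [h0, h0']
  · have h2 := NN_succ S t
    have h3 := NN_succ S' t
    rw [h1 t, h1 (t + 1)] at h2
    by_cases ha : t + 1 ∈ S <;> by_cases hb : t + 1 ∈ S' <;> simp_all

/-- the strict partition of a doubled shape -/
def strictOf (μ : YoungDiagram) : Finset ℕ :=
  ((range (μ.rowLen 0 + 1)).filter fun i => (i, i) ∈ μ).image fun i => μ.rowLen i - i

theorem zero_notMem_strictOf (μ : YoungDiagram) : 0 ∉ strictOf μ := by
  unfold strictOf
  rw [mem_image]
  rintro ⟨i, hi, h⟩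
  rw [mem_filter] at hi
  have := YoungDiagram.mem_iff_lt_rowLen.mp hi.2
  omega

theorem NN_strictOf (μ : YoungDiagram) (i t : ℕ) :
    i < NN (strictOf μ) t ↔ (i, i + t) ∈ μ := by
  have hinj : ∀ a b, (a, a) ∈ μ → (b, b) ∈ μ → a < b → μ.rowLen b - b < μ.rowLen a - a := by
    intro a b ha hb hab
    have h1 := YoungDiagram.mem_iff_lt_rowLen.mp ha
    have h2 := YoungDiagram.mem_iff_lt_rowLen.mp hb
    have h3 := μ.rowLen_anti a b hab.le
    omega
  have hcard : NN (strictOf μ) t = ((range (μ.rowLen 0 + 1)).filter fun k => (k, k + t) ∈ μ).card := by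
    unfold NN strictOf
    rw [Finset.filter_image, Finset.card_image_of_injOn]
    · congr 1
      ext k
      simp only [mem_filter, mem_range]
      constructor
      · rintro ⟨⟨h1, h2⟩, h3⟩
        refine ⟨h1, ?_⟩
        rw [YoungDiagram.mem_iff_lt_rowLen]
        omega
      · rintro ⟨h1, h2⟩
        have h3 : (k, k) ∈ μ := μ.up_left_mem le_rfl (by omega) h2
        rw [YoungDiagram.mem_iff_lt_rowLen] at h2
        exact ⟨⟨h1, h3⟩, by omega⟩
    · intro a ha b hb hab
      simp only [coe_filter, mem_filter, Set.mem_ofPred_eq] at ha hb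
      dsimp only at hab
      by_contra hne
      rcases lt_or_gt_of_ne hne with h | h
      · have := hinj a b ha.1.2 hb.1.2 h
        omega
      · have := hinj b a hb.1.2 ha.1.2 h
        omega
  rw [hcard]
  constructor
  · intro h
    by_contra hnot
    have h1 : (range (μ.rowLen 0 + 1)).filter (fun k => (k, k + t) ∈ μ) ⊆ range i := by
      intro k hk
      rw [mem_filter] at hk
      rw [mem_range]
      by_contra hge
      apply hnot
      exact μ.up_left_mem (by omega) (by omega) hk.2
    have h2 := Finset.card_le_card h1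
    rw [card_range] at h2
    omega
  · intro h
    have h0 := YoungDiagram.mem_iff_lt_rowLen.mp h
    have h00 := μ.rowLen_anti 0 i (Nat.zero_le _)
    have h1 : range (i + 1) ⊆ (range (μ.rowLen 0 + 1)).filter (fun k => (k, k + t) ∈ μ) := by
      intro k hk
      rw [mem_range] at hk
      rw [mem_filter, mem_range]
      exact ⟨by omega, μ.up_left_mem (by omega) (by omega) h⟩
    have h2 := Finset.card_le_card h1
    rw [card_range] at h2
    omega

theorem shape_strictOf {μ : YoungDiagram} (h : IsD μ) : shape (strictOf μ) = μ := by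
  apply YoungDiagram.ext
  ext ⟨p, q⟩
  change (p, q) ∈ shape (strictOf μ) ↔ (p, q) ∈ μ
  rw [mem_shape]
  unfold PP
  split_ifs with h1
  · rw [NN_strictOf, show p + (q - p) = q by omega]
  · rw [NN_strictOf, show q + (p - 1 - q) = p - 1 by omega, h q (p - 1) (by omega),
      show p - 1 + 1 = p by omega]

end Pool.Agent.X20.Doubled
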