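import Mathlib
import Pool.Agent.X20.Doubled

/-! Generating function of doubled shapes. -/

namespace Pool.Agent.X20.Doubled

open Finset PowerSeries

theorem cell_bound {μ : YoungDiagram} {i j : ℕ} (h : (i, j) ∈ μ) : i < μ.card ∧ j < μ.card := by
  constructor
  · have h1 : (range (i + 1)).image (fun k => (k, j)) ⊆ μ.cells := by
      intro c hc
      rw [mem_image] at hc
      obtain ⟨k, hk, rfl⟩ := hc
      rw [mem_range] at hk
      exact μ.up_left_mem (by omega) le_rfl h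
    have h2 := Finset.card_le_card h1
    rw [Finset.card_image_of_injective _ (fun a b hab => (Prod.mk.inj hab).1), card_range] at h2
    exact h2
  · have h1 : (range (j + 1)).image (fun k => (i, k)) ⊆ μ.cells := by
      intro c hc
      rw [mem_image] at hc
      obtain ⟨k, hk, rfl⟩ := hc
      rw [mem_range] at hk
      exact μ.up_left_mem le_rfl (by omega) h
    have h2 := Finset.card_le_card h1
    rw [Finset.card_image_of_injective _ (fun a b hab => (Prod.mk.inj hab).2), card_range] at h2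
    exact h2

theorem finite_diagrams (n : ℕ) : {μ : YoungDiagram | μ.card = n}.Finite := by
  apply Set.Finite.of_finite_image (f := fun μ : YoungDiagram => μ.cells)
  · apply Set.Finite.subset (Finset.finite_toSet (range n ×ˢ range n).powerset)
    rintro c ⟨μ, hμ, rfl⟩
    rw [mem_coe, mem_powerset]
    rintro ⟨i, j⟩ hij
    have h1 := cell_bound (show (i, j) ∈ μ from hij)
    have h2 : μ.card = n := hμ
    rw [mem_product, mem_range, mem_range, ← h2]
    exact h1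
  · intro μ _ ν _ h
    exact YoungDiagram.ext h

/-- the Young diagrams with `n` cells, i.e. the partitions of `n` -/
noncomputable def diagrams (n : ℕ) : Finset YoungDiagram := (finite_diagrams n).toFinset

theorem mem_diagrams (n : ℕ) (μ : YoungDiagram) : μ ∈ diagrams n ↔ μ.card = n := by
  simp [diagrams]

/-- strict partitions of `n / 2`, as sets of parts -/
def stricts (N n : ℕ) : Finset (Finset ℕ) := (Icc 1 N).powerset.filter fun S => 2 * ∑ s ∈ S, s = n

theorem mem_stricts {N n : ℕ} (hN : n < 2 * N + 2) (S : Finset ℕ) :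
    S ∈ stricts N n ↔ 0 ∉ S ∧ 2 * ∑ s ∈ S, s = n := by
  unfold stricts
  rw [mem_filter, mem_powerset]
  constructor
  · rintro ⟨h1, h2⟩
    refine ⟨fun h => ?_, h2⟩
    have := mem_Icc.mp (h1 h)
    omega
  · rintro ⟨h1, h2⟩
    refine ⟨fun s hs => ?_, h2⟩
    rw [mem_Icc]
    have h3 : s ≤ ∑ s ∈ S, s := Finset.single_le_sum (f := fun s => s) (fun _ _ => Nat.zero_le _) hs
    have h4 : s ≠ 0 := by rintro rfl; exact h1 hs
    omega

/-- sum over all diagrams with `n` cells of a function of `wt` vanishing at `0` -/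
theorem sum_diagrams (F : ℚ → ℚ) (hF : F 0 = 0) {N n : ℕ} (hN : n < 2 * N + 2) :
    ∑ μ ∈ diagrams n, F (wt μ) = ∑ S ∈ stricts N n, F ((-1) ^ (∑ s ∈ S, s)) := by
  classical
  have h1 : ∑ μ ∈ diagrams n, F (wt μ) = ∑ μ ∈ (diagrams n).filter IsD, F (wt μ) := by
    rw [Finset.sum_filter]
    apply Finset.sum_congr rfl
    intro μ _
    split_ifs with h
    · rfl
    · rw [wt_not_isD h, hF]
  rw [h1]
  symm
  apply Finset.sum_bij (fun S _ => shape S)
  · intro S hS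
    rw [mem_stricts hN] at hS
    rw [mem_filter, mem_diagrams]
    refine ⟨?_, shape_isD S⟩
    rw [(shape_isD S).card, card_upper_shape, hS.2]
  · intro S hS S' hS' h
    rw [mem_stricts hN] at hS hS'
    exact shape_inj hS.1 hS'.1 h
  · intro μ hμ
    rw [mem_filter, mem_diagrams] at hμ
    refine ⟨strictOf μ, ?_, shape_strictOf hμ.2⟩
    rw [mem_stricts hN]
    refine ⟨zero_notMem_strictOf μ, ?_⟩
    rw [← card_upper_shape, ← (shape_isD _).card, shape_strictOf hμ.2, hμ.1]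
  · intro S _
    rw [wt_isD (shape_isD S), card_upper_shape]

/-- `Z = ε x^2` -/
noncomputable def Z (ε : ℚ) : ℚ⟦X⟧ := C ε * X ^ 2

theorem Z_pow (ε : ℚ) (m : ℕ) : Z ε ^ m = C (ε ^ m) * X ^ (2 * m) := by
  rw [Z, mul_pow, ← map_pow, ← pow_mul]

theorem coeff_prod_one_add (ε : ℚ) (N n : ℕ) :
    coeff n (∏ a ∈ Icc 1 N, (1 + Z ε ^ a)) = ∑ S ∈ stricts N n, ε ^ (∑ s ∈ S, s) := by
  rw [Finset.prod_one_add, map_sum, stricts, Finset.sum_filter]
  apply Finset.sum_congr rfl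
  intro S _
  rw [Finset.prod_pow_eq_pow_sum, Z_pow, coeff_C_mul, coeff_X_pow]
  by_cases h : 2 * ∑ s ∈ S, s = n
  · rw [if_pos h.symm, if_pos h, mul_one]
  · rw [if_neg (Ne.symm h), if_neg h, mul_zero]

theorem euler_aux (z : ℚ⟦X⟧) (N : ℕ) :
    (∏ a ∈ Icc 1 N, (1 + z ^ a)) * (∏ k ∈ range N, (1 - z ^ (2 * k + 1))) *
      (∏ a ∈ Icc 1 N, (1 - z ^ a)) = ∏ a ∈ Icc 1 (2 * N), (1 - z ^ a) := by
  induction N with
  | zero => simp
  | succ N ih =>
    rw [Finset.prod_Icc_succ_top (by omega), Finset.prod_range_succ,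
      Finset.prod_Icc_succ_top (by omega), show 2 * (N + 1) = 2 * N + 1 + 1 by ring,
      Finset.prod_Icc_succ_top (by omega), Finset.prod_Icc_succ_top (by omega), ← ih]
    ring

theorem dvd_prod_sub_one {ι : Type*} (s : Finset ι) (f : ι → ℚ⟦X⟧) (d : ℚ⟦X⟧)
    (h : ∀ i ∈ s, d ∣ f i - 1) : d ∣ ∏ i ∈ s, f i - 1 := by
  classical
  induction s using Finset.induction_on with
  | empty => simp
  | insert a s ha ih =>
    rw [Finset.prod_insert ha]
    have h1 := h a (mem_insert_self a s)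
    have h2 := ih fun i hi => h i (mem_insert_of_mem hi)
    have e : f a * ∏ i ∈ s, f i - 1 = (f a - 1) * ∏ i ∈ s, f i + (∏ i ∈ s, f i - 1) := by ring
    rw [e]
    exact dvd_add (dvd_mul_of_dvd_left h1 _) h2

theorem euler_trunc (ε : ℚ) (K : ℕ) :
    (X : ℚ⟦X⟧) ^ (4 * K + 2) ∣ (∏ a ∈ Icc 1 (2 * K), (1 + Z ε ^ a)) *
      (∏ k ∈ range K, (1 - Z ε ^ (2 * k + 1))) - 1 := by
  have hne : (∏ a ∈ Icc 1 (2 * K), (1 - Z ε ^ a)) ≠ 0 := by
    intro h
    have h2 : constantCoeff (∏ a ∈ Icc 1 (2 * K), (1 - Z ε ^ a)) = 1 := by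
      rw [map_prod]
      apply Finset.prod_eq_one
      intro a ha
      rw [mem_Icc] at ha
      simp [Z, show a ≠ 0 by omega]
    rw [h] at h2
    simp at h2
  have h1 := euler_aux (Z ε) (2 * K)
  have h2 : ∏ a ∈ Icc 1 (2 * (2 * K)), (1 - Z ε ^ a) =
      (∏ a ∈ Ico (2 * K + 1) (2 * (2 * K) + 1), (1 - Z ε ^ a)) * ∏ a ∈ Icc 1 (2 * K), (1 - Z ε ^ a) := by
    have hI : ∀ M, Icc 1 M = Ico 1 (M + 1) := fun M => by ext; simp
    rw [hI, hI, mul_comm (∏ a ∈ Ico (2 * K + 1) (2 * (2 * K) + 1), (1 - Z ε ^ a))]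
    exact (Finset.prod_Ico_consecutive _ (by omega) (by omega)).symm
  rw [h2] at h1
  have h3 := mul_right_cancel₀ hne h1
  have h4 : ∏ k ∈ range (2 * K), (1 - Z ε ^ (2 * k + 1)) =
      (∏ k ∈ range K, (1 - Z ε ^ (2 * k + 1))) * ∏ k ∈ Ico K (2 * K), (1 - Z ε ^ (2 * k + 1)) := by
    rw [Finset.range_eq_Ico, Finset.range_eq_Ico, Finset.prod_Ico_consecutive _ (by omega) (by omega)]
  have hd : ∀ m, 2 * K + 1 ≤ m → (X : ℚ⟦X⟧) ^ (4 * K + 2) ∣ (1 - Z ε ^ m) - 1 := by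
    intro m hm
    rw [Z_pow]
    have e : (1 - C (ε ^ m) * X ^ (2 * m) : ℚ⟦X⟧) - 1 = X ^ (2 * m) * (- C (ε ^ m)) := by ring
    rw [e]
    exact dvd_mul_of_dvd_left (pow_dvd_pow X (by omega)) _
  have h5 : (X : ℚ⟦X⟧) ^ (4 * K + 2) ∣ (∏ k ∈ Ico K (2 * K), (1 - Z ε ^ (2 * k + 1))) - 1 := by
    apply dvd_prod_sub_one
    intro k hk
    rw [mem_Ico] at hk
    exact hd _ (by omega)
  have h6 : (X : ℚ⟦X⟧) ^ (4 * K + 2) ∣ (∏ a ∈ Ico (2 * K + 1) (2 * (2 * K) + 1), (1 - Z ε ^ a)) - 1 := by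
    apply dvd_prod_sub_one
    intro k hk
    rw [mem_Ico] at hk
    exact hd _ (by omega)
  rw [← h3, h4] at h6
  have e : (∏ a ∈ Icc 1 (2 * K), (1 + Z ε ^ a)) * (∏ k ∈ range K, (1 - Z ε ^ (2 * k + 1))) - 1 =
      ((∏ a ∈ Icc 1 (2 * K), (1 + Z ε ^ a)) * ((∏ k ∈ range K, (1 - Z ε ^ (2 * k + 1))) *
        ∏ k ∈ Ico K (2 * K), (1 - Z ε ^ (2 * k + 1))) - 1) -
      (∏ a ∈ Icc 1 (2 * K), (1 + Z ε ^ a)) * (∏ k ∈ range K, (1 - Z ε ^ (2 * k + 1))) *
        ((∏ k ∈ Ico K (2 * K), (1 - Z ε ^ (2 * k + 1))) - 1) := by ring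
  rw [e]
  exact dvd_sub h6 (dvd_mul_of_dvd_right h5 _)

/-- coefficients of the inverse of the product over odd exponents -/
theorem coeff_inv (ε : ℚ) (K n : ℕ) (hn : n < 4 * K + 2) :
    coeff n (∏ k ∈ range K, (1 - Z ε ^ (2 * k + 1)))⁻¹ = ∑ S ∈ stricts (2 * K) n, ε ^ (∑ s ∈ S, s) := by
  rw [← coeff_prod_one_add]
  set Q := ∏ k ∈ range K, (1 - Z ε ^ (2 * k + 1)) with hQ
  set F := ∏ a ∈ Icc 1 (2 * K), (1 + Z ε ^ a) with hF
  have hc : constantCoeff Q ≠ 0 := by
    rw [hQ, map_prod]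
    apply Finset.prod_ne_zero_iff.mpr
    intro k _
    simp [Z]
  have h1 : (X : ℚ⟦X⟧) ^ (4 * K + 2) ∣ (F * Q - 1) * Q⁻¹ :=
    dvd_mul_of_dvd_left (euler_trunc ε K) _
  have e : (F * Q - 1) * Q⁻¹ = F - Q⁻¹ := by
    rw [sub_mul, one_mul, mul_assoc, PowerSeries.mul_inv_cancel _ hc, mul_one]
  rw [e, X_pow_dvd_iff] at h1
  have h2 := h1 n hn
  rw [map_sub, sub_eq_zero] at h2
  exact h2.symm

/-! ### transposition -/

theorem hook_transpose (μ : YoungDiagram) (c : ℕ × ℕ) : hook μ.transpose c.swap = hook μ c := by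
  unfold hook
  rw [YoungDiagram.rowLen_transpose, YoungDiagram.colLen_transpose]
  simp only [Prod.fst_swap, Prod.snd_swap]
  ring

theorem csp_transpose (μ : YoungDiagram) (c : ℕ × ℕ) : cO μ.transpose c.swap = - csp μ c := by
  unfold cO csp
  simp only [Prod.fst_swap, Prod.snd_swap, YoungDiagram.rowLen_transpose,
    YoungDiagram.colLen_transpose]
  split_ifs with h1 h2
  · omega
  · ring
  · ring
  · omega

theorem cells_transpose (μ : YoungDiagram) : μ.transpose.cells = μ.cells.map (Equiv.prodComm ℕ ℕ).toEmbedding := rfl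

theorem card_transpose (μ : YoungDiagram) : μ.transpose.card = μ.card := by
  unfold YoungDiagram.card
  rw [cells_transpose, card_map]

/-- sums over diagrams are invariant under transposition -/
theorem sum_transpose (n : ℕ) (f : YoungDiagram → ℚ) :
    ∑ μ ∈ diagrams n, f μ.transpose = ∑ μ ∈ diagrams n, f μ := by
  apply Finset.sum_bij (fun μ _ => μ.transpose)
  · intro μ hμ
    rw [mem_diagrams] at hμ ⊢
    rw [card_transpose, hμ]
  · intro μ _ ν _ h
    exact YoungDiagram.transpose_eq_iff.mp h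
  · intro μ hμ
    rw [mem_diagrams] at hμ
    exact ⟨μ.transpose, by rw [mem_diagrams, card_transpose, hμ], μ.transpose_transpose⟩
  · intro μ _
    rfl

theorem prod_transpose (μ : YoungDiagram) (g : ℕ × ℕ → ℚ) :
    ∏ c ∈ μ.transpose.cells, g c = ∏ c ∈ μ.cells, g c.swap := by
  rw [cells_transpose, prod_map]
  rfl

end Pool.Agent.X20.Doubled
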