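import Mathlib

/-! Restricted partition counts `p_A(n,k)` and the density of their odd values. -/

namespace Pool.Agent.X20.RestrictedParity

open Filter Topology

/-- `pA a k n` is the number of `k`-tuples `(c_1, ..., c_k)` of non-negative integers with
`c_1 a_1 + ... + c_k a_k = n`, where the sequence `(a_1, a_2, ...)` is `(a 0, a 1, ...)`. -/
noncomputable def pA (a : ℕ → ℕ) (k n : ℕ) : ℕ :=
  Set.ncard {c : Fin k → ℕ | ∑ i, c i * a i = n}

/-- `d` is the natural density of the set of `n` for which `p_A(n,k)` is odd. -/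
def HasOddDensity (a : ℕ → ℕ) (k : ℕ) (d : ℝ) : Prop :=
  Tendsto (fun N : ℕ =>
    (((Finset.range (N + 1)).filter fun n => Odd (pA a k n)).card : ℝ) / (N : ℝ)) atTop (𝓝 d)

theorem finite_set (a : ℕ → ℕ) (ha : ∀ i, 0 < a i) (k n : ℕ) :
    {c : Fin k → ℕ | ∑ i, c i * a i = n}.Finite := by
  apply Set.Finite.subset (Set.finite_Iic (fun _ : Fin k => n))
  intro c hc i
  have hc' : ∑ i, c i * a i = n := hc
  show c i ≤ n
  calc c i ≤ c i * a i := Nat.le_mul_of_pos_right _ (ha i)
    _ ≤ ∑ i, c i * a i := Finset.single_le_sum (f := fun i : Fin k => c i * a i)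
        (fun _ _ => Nat.zero_le _) (Finset.mem_univ i)
    _ = n := hc'

theorem pA_zero (a : ℕ → ℕ) (n : ℕ) : pA a 0 n = if n = 0 then 1 else 0 := by
  unfold pA
  split_ifs with h
  · subst h
    have : {c : Fin 0 → ℕ | ∑ i, c i * a i = 0} = {fun i => i.elim0} := by
      ext c; simp [funext_iff]
    rw [this, Set.ncard_singleton]
  · have : {c : Fin 0 → ℕ | ∑ i, c i * a i = n} = ∅ := by
      ext c; simp [Ne.symm h]
    rw [this, Set.ncard_empty]

theorem pA_succ_of_lt (a : ℕ → ℕ) (k n : ℕ) (h : n < a k) :
    pA a (k + 1) n = pA a k n := by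
  unfold pA
  have : {c : Fin (k + 1) → ℕ | ∑ i, c i * a i = n} =
      (fun c : Fin k → ℕ => (Fin.snoc c 0 : Fin (k + 1) → ℕ)) ''
        {c : Fin k → ℕ | ∑ i, c i * a i = n} := by
    ext c
    simp only [Set.mem_ofPred_eq, Set.mem_image]
    constructor
    · intro hc
      rw [Fin.sum_univ_castSucc] at hc
      have h0 : c (Fin.last k) = 0 := by
        by_contra hne
        have : a k ≤ c (Fin.last k) * a (Fin.last k : Fin (k+1)) := by
          rw [Fin.val_last]
          exact Nat.le_mul_of_pos_left _ (Nat.pos_of_ne_zero hne)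
        omega
      refine ⟨fun i => c i.castSucc, ?_, ?_⟩
      · rw [h0, zero_mul, add_zero] at hc
        simpa using hc
      · funext i
        refine Fin.lastCases ?_ (fun j => ?_) i
        · simp [h0]
        · simp
    · rintro ⟨c', hc', rfl⟩
      rw [Fin.sum_univ_castSucc]
      simpa using hc'
  rw [this, Set.ncard_image_of_injective]
  intro c1 c2 hc
  exact (Fin.snoc_inj.mp hc).1

theorem pA_succ_add (a : ℕ → ℕ) (ha : ∀ i, 0 < a i) (k n : ℕ) :
    pA a (k + 1) (n + a k) = pA a k (n + a k) + pA a (k + 1) n := by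
  unfold pA
  have hdec : {c : Fin (k + 1) → ℕ | ∑ i, c i * a i = n + a k} =
      (fun c : Fin k → ℕ => (Fin.snoc c 0 : Fin (k + 1) → ℕ)) ''
        {c : Fin k → ℕ | ∑ i, c i * a i = n + a k} ∪
      (fun c : Fin (k + 1) → ℕ => (fun i => c i + (if i = Fin.last k then 1 else 0))) ''
        {c : Fin (k + 1) → ℕ | ∑ i, c i * a i = n} := by
    ext c
    simp only [Set.mem_ofPred_eq, Set.mem_image, Set.mem_union]
    constructor
    · intro hc
      by_cases h0 : c (Fin.last k) = 0
      · left
        rw [Fin.sum_univ_castSucc] at hc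
        refine ⟨fun i => c i.castSucc, ?_, ?_⟩
        · rw [h0, zero_mul, add_zero] at hc
          simpa using hc
        · funext i
          refine Fin.lastCases ?_ (fun j => ?_) i
          · simp [h0]
          · simp
      · right
        refine ⟨fun i => c i - (if i = Fin.last k then 1 else 0), ?_, ?_⟩
        · rw [Fin.sum_univ_castSucc] at hc ⊢
          have hne : ∀ i : Fin k, (i.castSucc = Fin.last k) = False := by
            intro i; simp
          simp only [hne, if_false, Nat.sub_zero, if_true, Fin.val_last] at hc ⊢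
          have hpos : 1 ≤ c (Fin.last k) := Nat.pos_of_ne_zero h0
          obtain ⟨t, ht⟩ : ∃ t, c (Fin.last k) = t + 1 := ⟨c (Fin.last k) - 1, by omega⟩
          rw [ht] at hc ⊢
          rw [Nat.add_sub_cancel]
          have : (t + 1) * a k = t * a k + a k := by ring
          omega
        · funext i
          by_cases hi : i = Fin.last k
          · subst hi
            simp only [if_true]
            omega
          · simp [hi]
    · rintro (⟨c', hc', rfl⟩ | ⟨c', hc', rfl⟩)
      · rw [Fin.sum_univ_castSucc]
        simpa using hc'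
      · simp only [add_mul, Finset.sum_add_distrib, ite_mul, one_mul, zero_mul,
          Finset.sum_ite_eq', Finset.mem_univ, if_true, Fin.val_last, hc']
  rw [hdec, Set.ncard_union_eq ?_ ((finite_set a ha k _).image _)
    ((finite_set a ha (k + 1) _).image _)]
  · congr 1
    · apply Set.ncard_image_of_injective
      intro c1 c2 hc
      exact (Fin.snoc_inj.mp hc).1
    · apply Set.ncard_image_of_injective
      intro c1 c2 hc
      funext i
      have := congrFun hc i
      simp only at this
      omega
  · rw [Set.disjoint_left]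
    rintro c ⟨c1, _, rfl⟩ ⟨c2, _, h2⟩
    have := congrFun h2 (Fin.last k)
    simp at this

/-- parity of `p_A(n,k)` as an element of `ZMod 2` -/
noncomputable def v (a : ℕ → ℕ) (k n : ℕ) : ZMod 2 := (pA a k n : ZMod 2)

theorem odd_iff (a : ℕ → ℕ) (k n : ℕ) : Odd (pA a k n) ↔ v a k n = 1 := by
  unfold v
  rw [ZMod.natCast_eq_one_iff_odd]

theorem v_succ_of_lt (a : ℕ → ℕ) (k n : ℕ) (h : n < a k) : v a (k + 1) n = v a k n := by
  unfold v; rw [pA_succ_of_lt a k n h]

theorem v_succ_add (a : ℕ → ℕ) (ha : ∀ i, 0 < a i) (k n : ℕ) :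
    v a (k + 1) (n + a k) = v a k (n + a k) + v a (k + 1) n := by
  unfold v; rw [pA_succ_add a ha k n]; push_cast; ring

theorem v_succ_add_mul (a : ℕ → ℕ) (ha : ∀ i, 0 < a i) (k n r : ℕ) :
    v a (k + 1) (n + r * a k) =
      (∑ j ∈ Finset.range r, v a k (n + (j + 1) * a k)) + v a (k + 1) n := by
  induction r with
  | zero => simp
  | succ r ih =>
    rw [Finset.sum_range_succ]
    have e : n + (r + 1) * a k = (n + r * a k) + a k := by ring
    rw [e, v_succ_add a ha k, ih]
    ring

/-- counting lemma for periodic predicates -/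
theorem count_mul_period (P : ℕ → Prop) [DecidablePred P] (T : ℕ)
    (hper : ∀ n, P (n + T) ↔ P n) (m : ℕ) :
    Nat.count P (m * T) = m * ((Finset.range T).filter P).card := by
  induction m with
  | zero => simp
  | succ m ih =>
    have e : (m + 1) * T = m * T + T := by ring
    rw [e, Nat.count_add, ih]
    have : Nat.count (fun k => P (m * T + k)) T = ((Finset.range T).filter P).card := by
      have h2 : ∀ k, P (m * T + k) ↔ P k := by
        intro k
        clear ih e
        induction m with
        | zero => simp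
        | succ m ihm =>
          have e : (m + 1) * T + k = (m * T + k) + T := by ring
          rw [e, hper, ihm]
      simp only [Nat.count_eq_card_filter_range]
      congr 1
      apply Finset.filter_congr
      intro x _
      exact h2 x
    rw [this]
    ring

/-- counting lemma: a periodic set has the expected density -/
theorem density_periodic (P : ℕ → Prop) [DecidablePred P] (T : ℕ) (hT : 0 < T)
    (hper : ∀ n, P (n + T) ↔ P n) :
    Tendsto (fun N : ℕ => (((Finset.range (N + 1)).filter P).card : ℝ) / (N : ℝ)) atTop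
      (𝓝 ((((Finset.range T).filter P).card : ℝ) / T)) := by
  set c := ((Finset.range T).filter P).card with hc
  have hcT : c ≤ T := by
    calc c ≤ (Finset.range T).card := Finset.card_filter_le _ _
      _ = T := Finset.card_range T
  -- count up to m*T
  have hmul : ∀ m : ℕ, Nat.count P (m * T) = m * c := count_mul_period P T hper
  have hbd : ∀ N : ℕ, |(((Finset.range (N + 1)).filter P).card : ℝ) - (N : ℝ) * ((c : ℝ) / T)|
      ≤ 2 * T := by
    intro N
    rw [← Nat.count_eq_card_filter_range]
    set m := (N + 1) / T with hm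
    set r := (N + 1) % T with hr
    have hdm : m * T + r = N + 1 := by
      rw [hm, hr, mul_comm]; exact Nat.div_add_mod (N + 1) T
    have hrT : r < T := Nat.mod_lt _ hT
    have hcount : Nat.count P (N + 1) = m * c + Nat.count (fun k => P (m * T + k)) r := by
      rw [← hdm, Nat.count_add, hmul]
    have hle : Nat.count (fun k => P (m * T + k)) r ≤ r := Nat.count_le _
    rw [hcount]
    have hTR : (0 : ℝ) < T := by exact_mod_cast hT
    have h1 : (m : ℝ) * T + r = N + 1 := by exact_mod_cast hdm
    have h2 : (r : ℝ) ≤ T := by exact_mod_cast hrT.le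
    have h3 : (c : ℝ) ≤ T := by exact_mod_cast hcT
    have h4 : (0 : ℝ) ≤ c / T := by positivity
    have h5 : (c : ℝ) / T ≤ 1 := by rw [div_le_one hTR]; exact h3
    have h6 : (0 : ℝ) ≤ r := Nat.cast_nonneg r
    have h7 : ((Nat.count (fun k => P (m * T + k)) r : ℕ) : ℝ) ≤ r := by exact_mod_cast hle
    have h8 : (0 : ℝ) ≤ ((Nat.count (fun k => P (m * T + k)) r : ℕ) : ℝ) := Nat.cast_nonneg _
    have h9 : (1 : ℝ) ≤ T := by exact_mod_cast hT
    have e1 : (N : ℝ) * ((c : ℝ) / T) = m * c + (r - 1) * (c / T) := by
      have : (N : ℝ) = m * T + r - 1 := by linarith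
      rw [this]
      field_simp
      ring
    push_cast
    rw [e1, abs_le]
    constructor
    · nlinarith
    · nlinarith
  -- conclude
  rw [tendsto_iff_norm_sub_tendsto_zero]
  have hbound : ∀ N : ℕ, 1 ≤ N →
      ‖(((Finset.range (N + 1)).filter P).card : ℝ) / (N : ℝ) - (c : ℝ) / T‖ ≤ (2 * T) / N := by
    intro N hN
    have hNR : (0 : ℝ) < N := by exact_mod_cast hN
    have e : (((Finset.range (N + 1)).filter P).card : ℝ) / (N : ℝ) - (c : ℝ) / T =
        ((((Finset.range (N + 1)).filter P).card : ℝ) - (N : ℝ) * ((c : ℝ) / T)) / N := by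
      field_simp
    rw [e, Real.norm_eq_abs, abs_div, abs_of_pos hNR]
    exact div_le_div_of_nonneg_right (hbd N) hNR.le
  refine squeeze_zero' (Eventually.of_forall fun _ => norm_nonneg _)
    (eventually_atTop.mpr ⟨1, hbound⟩) ?_
  exact tendsto_const_div_atTop_nhds_zero_nat (2 * (T : ℝ))

end Pool.Agent.X20.RestrictedParity
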