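import Mathlib

/-! Partition counts weighted by `w ^ (number of parts)` and their generating functions:
formal and analytic product formulas. -/

namespace Pool.Agent.X20.Osc

open PowerSeries Finset Filter Topology

/-- `1 / (1 - w X^i)` -/
noncomputable def gs {R : Type*} [CommRing R] (w : R) (i : ℕ) : R⟦X⟧ :=
  PowerSeries.mk fun n => if i ∣ n then w ^ (n / i) else 0

/-- weighted partition count: sum of `w ^ (number of parts)` over the partitions of `n` with all
parts in `A` -/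
noncomputable def fw (A : ℕ → Prop) [DecidablePred A] (w : ℂ) (n : ℕ) : ℂ :=
  ∑ l ∈ (Finset.univ : Finset (Nat.Partition n)).filter (fun l => ∀ i ∈ l.parts, A i),
    w ^ (Multiset.card l.parts)

theorem dvd_prod_sub_one {R ι : Type*} [CommRing R] (s : Finset ι) (f : ι → R) (d : R)
    (h : ∀ i ∈ s, d ∣ f i - 1) : d ∣ ∏ i ∈ s, f i - 1 := by
  classical
  induction s using Finset.induction_on with
  | empty => simp
  | insert a s ha ih =>
    rw [Finset.prod_insert ha]
    have h1 := h a (mem_insert_self a s)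
    have h2 := ih fun i hi => h i (mem_insert_of_mem hi)
    have e : f a * ∏ i ∈ s, f i - 1 = (f a - 1) * ∏ i ∈ s, f i + (∏ i ∈ s, f i - 1) := by ring
    rw [e]
    exact dvd_add (dvd_mul_of_dvd_left h1 _) h2

theorem coeff_prod_of_superset {R : Type*} [CommRing R] (f : ℕ → R⟦X⟧) (n : ℕ) (s t : Finset ℕ)
    (hst : t ⊆ s) (hf : ∀ i ∈ s \ t, (X : R⟦X⟧) ^ (n + 1) ∣ f i - 1) :
    coeff n (∏ i ∈ s, f i) = coeff n (∏ i ∈ t, f i) := by
  rw [← Finset.prod_sdiff hst]
  have h1 := dvd_prod_sub_one (s \ t) f _ hf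
  have h2 : (X : R⟦X⟧) ^ (n + 1) ∣ (∏ i ∈ s \ t, f i) * (∏ i ∈ t, f i) - ∏ i ∈ t, f i := by
    have e : (∏ i ∈ s \ t, f i) * (∏ i ∈ t, f i) - ∏ i ∈ t, f i =
      (∏ i ∈ s \ t, f i - 1) * ∏ i ∈ t, f i := by ring
    rw [e]
    exact dvd_mul_of_dvd_left h1 _
  rw [X_pow_dvd_iff] at h2
  have := h2 n (Nat.lt_succ_self n)
  rwa [map_sub, sub_eq_zero] at this

theorem gs_sub_one {R : Type*} [CommRing R] (w : R) (i : ℕ) : (X : R⟦X⟧) ^ i ∣ gs w i - 1 := by
  rw [X_pow_dvd_iff]
  intro m hm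
  rw [map_sub, gs, coeff_mk, coeff_one]
  by_cases h0 : m = 0
  · subst h0; simp
  · rw [if_neg h0, if_neg, sub_zero]
    intro h
    have := Nat.le_of_dvd (by omega) h
    omega

open scoped PowerSeries.WithPiTopology in
/-- the weighted partition count is a coefficient of a finite product -/
theorem fw_eq_coeff (A : ℕ → Prop) [DecidablePred A] (w : ℂ) (n M : ℕ) (hM : n ≤ M) :
    fw A w n = coeff n (∏ i ∈ (Icc 1 M).filter A, gs w i) := by
  set f : ℕ → ℕ → ℂ := fun i c => if A i then w ^ c else 0 with hf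
  have h1 := Nat.Partition.hasProd_genFun f
  have hfac : ∀ i : ℕ, (1 : ℂ⟦X⟧) + ∑' j, f (i + 1) (j + 1) • X ^ ((i + 1) * (j + 1)) =
      if A (i + 1) then gs w (i + 1) else 1 := by
    intro i
    by_cases hA : A (i + 1)
    · rw [if_pos hA]
      ext m
      rw [map_add, (Nat.Partition.summable_genFun_term f i).map_tsum _
        (WithPiTopology.continuous_coeff _ _), gs, coeff_mk, coeff_one]
      have e : ∀ j, coeff m (f (i + 1) (j + 1) • (X : ℂ⟦X⟧) ^ ((i + 1) * (j + 1))) =
          if m = (i + 1) * (j + 1) then w ^ (j + 1) else 0 := by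
        intro j
        rw [coeff_smul, coeff_X_pow, hf]
        simp only [hA, if_true, smul_eq_mul]
        split_ifs <;> simp
      simp_rw [e]
      by_cases hd : i + 1 ∣ m
      · obtain ⟨c, rfl⟩ := hd
        rw [if_pos (dvd_mul_right _ _), Nat.mul_div_cancel_left _ (Nat.succ_pos i)]
        rcases c with _ | c
        · simp
        · rw [if_neg (by positivity), zero_add, tsum_eq_single c]
          · simp
          · intro b hb
            rw [if_neg]
            intro h
            have := Nat.eq_of_mul_eq_mul_left (Nat.succ_pos i) h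
            omega
      · have hm0 : m ≠ 0 := by rintro rfl; exact hd (dvd_zero _)
        rw [if_neg hd, if_neg hm0, zero_add]
        have : ∀ j, (if m = (i + 1) * (j + 1) then w ^ (j + 1) else (0 : ℂ)) = 0 := by
          intro j
          rw [if_neg]
          rintro rfl
          exact hd (dvd_mul_right _ _)
        simp_rw [this]
        exact tsum_zero
    · rw [if_neg hA]
      have e : ∀ j, f (i + 1) (j + 1) • (X : ℂ⟦X⟧) ^ ((i + 1) * (j + 1)) = 0 := by
        intro j
        simp [hf, hA]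
      simp_rw [e]
      simp
  simp_rw [hfac] at h1
  rw [HasProd, WithPiTopology.tendsto_iff_coeff_tendsto] at h1
  have h2 := h1 n
  have h3 : Tendsto (fun s : Finset ℕ => coeff n (∏ i ∈ s, if A (i + 1) then gs w (i + 1) else 1))
      atTop (𝓝 (coeff n (∏ i ∈ range M, if A (i + 1) then gs w (i + 1) else 1))) := by
    apply tendsto_atTop_of_eventually_const (i₀ := range M)
    intro s hs
    apply coeff_prod_of_superset (fun i => if A (i + 1) then gs w (i + 1) else 1) n s (range M) hs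
    intro i hi
    rw [Finset.mem_sdiff, mem_range, not_lt] at hi
    split_ifs
    · exact (pow_dvd_pow X (by omega)).trans (gs_sub_one w (i + 1))
    · simp
  have h4 := tendsto_nhds_unique h2 h3
  rw [Nat.Partition.coeff_genFun] at h4
  have h5 : ∏ i ∈ (Icc 1 M).filter A, gs w i =
      ∏ i ∈ range M, if A (i + 1) then gs w (i + 1) else 1 := by
    rw [Finset.prod_filter]
    have hI : Icc 1 M = Ico 1 (M + 1) := by ext; simp
    rw [hI, Finset.prod_Ico_eq_prod_range]
    apply Finset.prod_congr (by simp)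
    intro k _
    rw [add_comm]
  rw [h5, ← h4, fw, Finset.sum_filter]
  apply Finset.sum_congr rfl
  intro l _
  rw [Finsupp.prod, Multiset.toFinsupp_support]
  simp only [Multiset.toFinsupp_apply, hf]
  split_ifs with h
  · rw [Finset.prod_congr rfl (fun i hi => if_pos (h i (Multiset.mem_toFinset.mp hi))),
      Finset.prod_pow_eq_pow_sum, Multiset.toFinset_sum_count_eq]
  · push Not at h
    obtain ⟨i, hi, hA⟩ := h
    exact (Finset.prod_eq_zero (Multiset.mem_toFinset.mpr hi) (if_neg hA)).symm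

/-! ### Analytic evaluation -/

section eval

variable {𝕜 : Type*} [RCLike 𝕜]

/-- `f` evaluated at `q` converges absolutely to `v` -/
def EvalAt (f : 𝕜⟦X⟧) (q v : 𝕜) : Prop :=
  Summable (fun n => ‖coeff n f * q ^ n‖) ∧ ∑' n, coeff n f * q ^ n = v

theorem coeff_mul_pow (f g : 𝕜⟦X⟧) (q : 𝕜) (n : ℕ) : coeff n (f * g) * q ^ n =
    ∑ kl ∈ antidiagonal n, (coeff kl.1 f * q ^ kl.1) * (coeff kl.2 g * q ^ kl.2) := by
  rw [coeff_mul, Finset.sum_mul]
  apply Finset.sum_congr rfl
  intro kl hkl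
  rw [HasAntidiagonal.mem_antidiagonal] at hkl
  rw [← hkl, pow_add]
  ring

theorem EvalAt.mul {f g : 𝕜⟦X⟧} {q u v : 𝕜} (hf : EvalAt f q u) (hg : EvalAt g q v) :
    EvalAt (f * g) q (u * v) := by
  have h1 := summable_norm_sum_mul_antidiagonal_of_summable_norm
    (f := fun n => coeff n f * q ^ n) (g := fun n => coeff n g * q ^ n) hf.1 hg.1
  have h2 := tsum_mul_tsum_eq_tsum_sum_antidiagonal_of_summable_norm
    (f := fun n => coeff n f * q ^ n) (g := fun n => coeff n g * q ^ n) hf.1 hg.1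
  have e : (fun n => coeff n (f * g) * q ^ n) = fun n =>
      ∑ kl ∈ antidiagonal n, (coeff kl.1 f * q ^ kl.1) * (coeff kl.2 g * q ^ kl.2) :=
    funext fun n => coeff_mul_pow f g q n
  constructor
  · have e2 : (fun n => ‖coeff n (f * g) * q ^ n‖) = fun n =>
      ‖∑ kl ∈ antidiagonal n, (coeff kl.1 f * q ^ kl.1) * (coeff kl.2 g * q ^ kl.2)‖ :=
      funext fun n => by rw [coeff_mul_pow f g q n]
    rw [e2]
    exact h1
  · rw [e, ← h2, hf.2, hg.2]

theorem EvalAt.one (q : 𝕜) : EvalAt (1 : 𝕜⟦X⟧) q 1 := by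
  have h : ∀ n, coeff n (1 : 𝕜⟦X⟧) * q ^ n = if n = 0 then 1 else 0 := by
    intro n
    rw [coeff_one]
    split_ifs with h <;> simp [h]
  constructor
  · simp_rw [h]
    apply summable_of_ne_finset_zero (s := {0})
    intro n hn
    rw [mem_singleton] at hn
    simp [hn]
  · simp_rw [h]
    simp

theorem EvalAt.prod {ι : Type*} (s : Finset ι) (f : ι → 𝕜⟦X⟧) (v : ι → 𝕜) (q : 𝕜)
    (h : ∀ i ∈ s, EvalAt (f i) q (v i)) : EvalAt (∏ i ∈ s, f i) q (∏ i ∈ s, v i) := by
  classical
  induction s using Finset.induction_on with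
  | empty => simpa using EvalAt.one q
  | insert a s ha ih =>
    rw [Finset.prod_insert ha, Finset.prod_insert ha]
    exact (h a (mem_insert_self a s)).mul (ih fun i hi => h i (mem_insert_of_mem hi))

theorem evalAt_gs (w q : 𝕜) (i : ℕ) (hi : 0 < i) (h : ‖w * q ^ i‖ < 1) :
    EvalAt (gs w i) q (1 - w * q ^ i)⁻¹ := by
  have hinj : Function.Injective (fun j : ℕ => i * j) := fun a b hab =>
    Nat.eq_of_mul_eq_mul_left hi hab
  have hcomp : ∀ j : ℕ, coeff (i * j) (gs w i) * q ^ (i * j) = (w * q ^ i) ^ j := by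
    intro j
    rw [gs, coeff_mk, if_pos (dvd_mul_right _ _), Nat.mul_div_cancel_left _ hi, mul_pow, ← pow_mul]
  have hzero : ∀ n, n ∉ Set.range (fun j : ℕ => i * j) → coeff n (gs w i) * q ^ n = 0 := by
    intro n hn
    rw [gs, coeff_mk, if_neg, zero_mul]
    rintro ⟨j, rfl⟩
    exact hn ⟨j, rfl⟩
  constructor
  · have h1 : Summable ((fun n => ‖coeff n (gs w i) * q ^ n‖) ∘ (fun j : ℕ => i * j)) := by
      have : ((fun n => ‖coeff n (gs w i) * q ^ n‖) ∘ (fun j : ℕ => i * j)) =
          fun j => ‖w * q ^ i‖ ^ j := by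
        ext j
        simp only [Function.comp_apply]
        rw [hcomp, norm_pow]
      rw [this]
      exact summable_geometric_of_lt_one (norm_nonneg _) h
    exact (hinj.summable_iff (fun n hn => by rw [hzero n hn, norm_zero])).mp h1
  · have h1 : HasSum ((fun n => coeff n (gs w i) * q ^ n) ∘ (fun j : ℕ => i * j))
        (1 - w * q ^ i)⁻¹ := by
      have : ((fun n => coeff n (gs w i) * q ^ n) ∘ (fun j : ℕ => i * j)) =
          fun j => (w * q ^ i) ^ j := by
        ext j
        simp only [Function.comp_apply]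
        rw [hcomp]
      rw [this]
      exact hasSum_geometric_of_norm_lt_one h
    exact ((hinj.hasSum_iff hzero).mp h1).tsum_eq

end eval

/-! ### Domination -/

theorem norm_coeff_prod_le (w : ℂ) (hw : ‖w‖ ≤ 1) (s : Finset ℕ) (n : ℕ) :
    ‖coeff n (∏ i ∈ s, gs w i)‖ ≤ coeff n (∏ i ∈ s, gs (1 : ℝ) i) := by
  classical
  induction s using Finset.induction_on generalizing n with
  | empty =>
    simp only [Finset.prod_empty, coeff_one]
    split_ifs <;> simp
  | insert a s ha ih =>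
    rw [Finset.prod_insert ha, Finset.prod_insert ha, coeff_mul, coeff_mul]
    refine (norm_sum_le _ _).trans (Finset.sum_le_sum ?_)
    intro kl _
    rw [norm_mul]
    apply mul_le_mul _ (ih kl.2) (norm_nonneg _)
    · simp only [gs, coeff_mk, one_pow]
      split_ifs <;> norm_num
    · simp only [gs, coeff_mk]
      split_ifs
      · rw [norm_pow, one_pow]
        exact pow_le_one₀ (norm_nonneg _) hw
      · simp

theorem coeff_prod_one_nonneg (s : Finset ℕ) (n : ℕ) : 0 ≤ coeff n (∏ i ∈ s, gs (1 : ℝ) i) :=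
  (norm_nonneg _).trans (norm_coeff_prod_le 1 (by simp) s n)

/-- uniform bound for the coefficients of the partial products -/
theorem coeff_prod_le (s : Finset ℕ) (hs : ∀ i ∈ s, 0 < i) (r : ℝ) (hr0 : 0 < r) (hr1 : r < 1)
    (n : ℕ) : coeff n (∏ i ∈ s, gs (1 : ℝ) i) * r ^ n ≤ Real.exp (1 / (1 - r) ^ 2) := by
  have hlt : ∀ i ∈ s, r ^ i < 1 := fun i hi => pow_lt_one₀ hr0.le hr1 (hs i hi).ne'
  have h1 : EvalAt (∏ i ∈ s, gs (1 : ℝ) i) r (∏ i ∈ s, (1 - 1 * r ^ i)⁻¹) := by
    apply EvalAt.prod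
    intro i hi
    apply evalAt_gs _ _ _ (hs i hi)
    rw [one_mul, Real.norm_of_nonneg (by positivity)]
    exact hlt i hi
  have h2 : coeff n (∏ i ∈ s, gs (1 : ℝ) i) * r ^ n ≤ ∏ i ∈ s, (1 - 1 * r ^ i)⁻¹ := by
    rw [← h1.2]
    apply h1.1.of_norm.le_tsum n
    intro j _
    exact mul_nonneg (coeff_prod_one_nonneg s j) (by positivity)
  refine h2.trans ?_
  have h3 : ∏ i ∈ s, (1 - 1 * r ^ i)⁻¹ ≤ ∏ i ∈ s, Real.exp (r ^ i / (1 - r)) := by
    apply Finset.prod_le_prod
    · intro i hi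
      rw [one_mul]
      exact inv_nonneg.mpr (by linarith [hlt i hi])
    · intro i hi
      have hi1 := hlt i hi
      have hpos : 0 < 1 - r ^ i := by linarith
      have hri : r ^ i ≤ r := by
        calc r ^ i ≤ r ^ 1 := pow_le_pow_of_le_one hr0.le hr1.le (hs i hi)
          _ = r := pow_one r
      have e : (1 - 1 * r ^ i)⁻¹ = r ^ i / (1 - r ^ i) + 1 := by
        rw [one_mul, eq_comm, div_add_one hpos.ne']
        rw [show r ^ i + (1 - r ^ i) = 1 by ring, one_div]
      rw [e]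
      refine (Real.add_one_le_exp _).trans (Real.exp_le_exp.mpr ?_)
      apply div_le_div_of_nonneg_left (by positivity) (by linarith) (by linarith)
  refine h3.trans ?_
  rw [← Real.exp_sum]
  apply Real.exp_le_exp.mpr
  rw [← Finset.sum_div, div_le_div_iff₀ (by linarith) (by nlinarith)]
  have h4 : ∑ i ∈ s, r ^ i ≤ (1 - r)⁻¹ := by
    rw [← tsum_geometric_of_lt_one hr0.le hr1]
    exact (summable_geometric_of_lt_one hr0.le hr1).sum_le_tsum s (fun _ _ => by positivity)
  have hpos : 0 < 1 - r := by linarith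
  calc (∑ i ∈ s, r ^ i) * (1 - r) ^ 2 ≤ (1 - r)⁻¹ * (1 - r) ^ 2 :=
        mul_le_mul_of_nonneg_right h4 (by positivity)
    _ = 1 * (1 - r) := by field_simp

/-- bound for the weighted counts -/
theorem norm_fw_le (A : ℕ → Prop) [DecidablePred A] (w : ℂ) (hw : ‖w‖ ≤ 1) (r : ℝ) (hr0 : 0 < r)
    (hr1 : r < 1) (n : ℕ) : ‖fw A w n‖ * r ^ n ≤ Real.exp (1 / (1 - r) ^ 2) := by
  rw [fw_eq_coeff A w n n le_rfl]
  refine (mul_le_mul_of_nonneg_right (norm_coeff_prod_le w hw _ n) (by positivity)).trans ?_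
  apply coeff_prod_le _ _ r hr0 hr1 n
  intro i hi
  rw [mem_filter, mem_Icc] at hi
  omega

theorem summable_fw (A : ℕ → Prop) [DecidablePred A] (w q : ℂ) (hw : ‖w‖ ≤ 1) (hq : ‖q‖ < 1) :
    Summable fun n => ‖fw A w n * q ^ n‖ := by
  obtain ⟨r, hr1, hr2⟩ := exists_between hq
  have hr0 : 0 < r := lt_of_le_of_lt (norm_nonneg _) hr1
  have h1 : Summable fun n : ℕ => Real.exp (1 / (1 - r) ^ 2) * (‖q‖ / r) ^ n :=
    (summable_geometric_of_lt_one (by positivity) ((div_lt_one hr0).mpr hr1)).mul_left _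
  apply h1.of_nonneg_of_le (fun n => norm_nonneg _)
  intro n
  rw [norm_mul, norm_pow, div_pow]
  have h2 := norm_fw_le A w hw r hr0 hr2 n
  calc ‖fw A w n‖ * ‖q‖ ^ n = (‖fw A w n‖ * r ^ n) * (‖q‖ ^ n / r ^ n) := by
        field_simp
    _ ≤ _ := mul_le_mul_of_nonneg_right h2 (by positivity)

/-- the generating function is the limit of the finite products -/
theorem tendsto_prod (A : ℕ → Prop) [DecidablePred A] (w q : ℂ) (hw : ‖w‖ ≤ 1) (hq : ‖q‖ < 1) :
    Tendsto (fun M : ℕ => ∏ i ∈ (Icc 1 M).filter A, (1 - w * q ^ i)⁻¹) atTop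
      (𝓝 (∑' n, fw A w n * q ^ n)) := by
  obtain ⟨r, hr1, hr2⟩ := exists_between hq
  have hr0 : 0 < r := lt_of_le_of_lt (norm_nonneg _) hr1
  have h1 : Summable fun n : ℕ => Real.exp (1 / (1 - r) ^ 2) * (‖q‖ / r) ^ n :=
    (summable_geometric_of_lt_one (by positivity) ((div_lt_one hr0).mpr hr1)).mul_left _
  have h2 : ∀ M : ℕ, ∑' n, coeff n (∏ i ∈ (Icc 1 M).filter A, gs w i) * q ^ n =
      ∏ i ∈ (Icc 1 M).filter A, (1 - w * q ^ i)⁻¹ := by
    intro M
    refine (EvalAt.prod _ _ (fun i => (1 - w * q ^ i)⁻¹) q ?_).2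
    intro i hi
    rw [mem_filter, mem_Icc] at hi
    apply evalAt_gs _ _ _ (by omega)
    rw [norm_mul, norm_pow]
    calc ‖w‖ * ‖q‖ ^ i ≤ 1 * ‖q‖ ^ i := mul_le_mul_of_nonneg_right hw (by positivity)
      _ = ‖q‖ ^ i := one_mul _
      _ < 1 := pow_lt_one₀ (norm_nonneg _) hq (by omega)
  simp_rw [← h2]
  apply tendsto_tsum_of_dominated_convergence h1
  · intro n
    apply tendsto_atTop_of_eventually_const (i₀ := n)
    intro M hM
    rw [fw_eq_coeff A w n M hM]
  · filter_upwards with M n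
    rw [norm_mul, norm_pow, div_pow]
    have h3 := coeff_prod_le ((Icc 1 M).filter A) (fun i hi => by
      rw [mem_filter, mem_Icc] at hi; omega) r hr0 hr2 n
    have h4 := norm_coeff_prod_le w hw ((Icc 1 M).filter A) n
    calc ‖coeff n (∏ i ∈ (Icc 1 M).filter A, gs w i)‖ * ‖q‖ ^ n
        ≤ coeff n (∏ i ∈ (Icc 1 M).filter A, gs (1 : ℝ) i) * ‖q‖ ^ n :=
          mul_le_mul_of_nonneg_right h4 (by positivity)
      _ = (coeff n (∏ i ∈ (Icc 1 M).filter A, gs (1 : ℝ) i) * r ^ n) * (‖q‖ ^ n / r ^ n) := by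
          field_simp
      _ ≤ _ := mul_le_mul_of_nonneg_right h3 (by positivity)

end Pool.Agent.X20.Osc
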