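import Mathlib
import Pool.Agent.X20.OscBase

/-! The logarithm of the generating function of weighted partitions into parts `≡ b mod a`, and
its behaviour near roots of unity. -/

namespace Pool.Agent.X20.Osc

open Finset Filter Topology

/-- logarithm of `∏_{m ≥ 0} (1 - w q^{am+b})⁻¹` -/
noncomputable def Lq (a b : ℕ) (w q : ℂ) : ℂ := ∑' k : ℕ, w ^ k * q ^ (k * b) / (k * (1 - q ^ (k * a)))

theorem filter_eq_image (a b M : ℕ) (hb : 1 ≤ b) (hba : b < a) :
    (Icc 1 (a * M)).filter (fun i => i % a = b) = (range M).image (fun m => a * m + b) := by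
  ext i
  rw [mem_filter, mem_Icc, mem_image]
  constructor
  · rintro ⟨⟨h1, h2⟩, h3⟩
    refine ⟨i / a, ?_, ?_⟩
    · rw [mem_range]
      have h4 := Nat.div_add_mod i a
      by_contra hge
      push Not at hge
      have : a * M ≤ a * (i / a) := Nat.mul_le_mul_left a hge
      omega
    · rw [← h3]
      exact Nat.div_add_mod i a
  · rintro ⟨m, hm, rfl⟩
    rw [mem_range] at hm
    refine ⟨⟨by omega, ?_⟩, ?_⟩
    · have : a * (m + 1) ≤ a * M := Nat.mul_le_mul_left a hm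
      rw [Nat.mul_add, mul_one] at this
      omega
    · rw [Nat.mul_add_mod, Nat.mod_eq_of_lt hba]

theorem summable_double (a b : ℕ) (hb : 1 ≤ b) (ha : 1 ≤ a) (w q : ℂ) (hw : ‖w‖ ≤ 1)
    (hq : ‖q‖ < 1) : Summable (fun mk : ℕ × ℕ => (w * q ^ (a * mk.1 + b)) ^ mk.2 / (mk.2 : ℂ)) := by
  have h1 : Summable (fun mk : ℕ × ℕ => ‖q‖ ^ mk.1 * ‖q‖ ^ mk.2) :=
    (summable_geometric_of_lt_one (norm_nonneg _) hq).mul_of_nonneg
      (summable_geometric_of_lt_one (norm_nonneg _) hq) (fun _ => by positivity)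
      (fun _ => by positivity)
  apply Summable.of_norm_bounded h1
  rintro ⟨m, k⟩
  dsimp only
  rcases Nat.eq_zero_or_pos k with rfl | hk
  · simp
  · rw [norm_div, norm_pow, norm_mul, norm_pow, Complex.norm_natCast, ← pow_add]
    have hk1 : (1 : ℝ) ≤ k := by exact_mod_cast hk
    have hq0 := norm_nonneg q
    calc (‖w‖ * ‖q‖ ^ (a * m + b)) ^ k / (k : ℝ) ≤ (‖w‖ * ‖q‖ ^ (a * m + b)) ^ k / 1 :=
          div_le_div_of_nonneg_left (by positivity) one_pos hk1
      _ = (‖w‖ * ‖q‖ ^ (a * m + b)) ^ k := div_one _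
      _ ≤ (1 * ‖q‖ ^ (a * m + b)) ^ k := by gcongr
      _ = ‖q‖ ^ ((a * m + b) * k) := by rw [one_mul, ← pow_mul]
      _ ≤ ‖q‖ ^ (m + k) := by
          apply pow_le_pow_of_le_one hq0 hq.le
          nlinarith [Nat.mul_le_mul ha (le_refl m), Nat.mul_le_mul (le_refl m) hk]

theorem gf_eq (a b : ℕ) (hb : 1 ≤ b) (hba : b < a) (w q : ℂ) (hw : ‖w‖ ≤ 1) (hq : ‖q‖ < 1) :
    ∑' n, fw (fun i => i % a = b) w n * q ^ n = Complex.exp (Lq a b w q) := by
  have h1 := tendsto_prod (fun i => i % a = b) w q hw hq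
  have h2 : Tendsto (fun M : ℕ => a * M) atTop atTop :=
    tendsto_id.const_mul_atTop' (by omega)
  have h3 := h1.comp h2
  have hlt : ∀ m : ℕ, ‖w * q ^ (a * m + b)‖ < 1 := by
    intro m
    rw [norm_mul, norm_pow]
    calc ‖w‖ * ‖q‖ ^ (a * m + b) ≤ 1 * ‖q‖ ^ (a * m + b) := by gcongr
      _ = ‖q‖ ^ (a * m + b) := one_mul _
      _ < 1 := pow_lt_one₀ (norm_nonneg _) hq (by omega)
  have h4 : ∀ M : ℕ, ∏ i ∈ (Icc 1 (a * M)).filter (fun i => i % a = b), (1 - w * q ^ i)⁻¹ =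
      Complex.exp (∑ m ∈ range M, ∑' k : ℕ, (w * q ^ (a * m + b)) ^ k / (k : ℂ)) := by
    intro M
    rw [filter_eq_image a b M hb hba, Finset.prod_image, Complex.exp_sum]
    · apply Finset.prod_congr rfl
      intro m _
      rw [(Complex.hasSum_taylorSeries_neg_log (hlt m)).tsum_eq, Complex.exp_neg,
        Complex.exp_log]
      intro h0
      have h5 : w * q ^ (a * m + b) = 1 := (sub_eq_zero.mp h0).symm
      have h6 := hlt m
      rw [h5] at h6
      simp at h6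
    · intro m _ m' _ h
      have : a * m = a * m' := by simpa using h
      exact Nat.eq_of_mul_eq_mul_left (by omega) this
  have h5 : Tendsto (fun M : ℕ => Complex.exp (∑ m ∈ range M,
      ∑' k : ℕ, (w * q ^ (a * m + b)) ^ k / (k : ℂ))) atTop
      (𝓝 (∑' n, fw (fun i => i % a = b) w n * q ^ n)) := by
    refine h3.congr ?_
    intro M
    exact h4 M
  have hs := summable_double a b hb (by omega) w q hw hq
  have h6 : Tendsto (fun M : ℕ => ∑ m ∈ range M, ∑' k : ℕ, (w * q ^ (a * m + b)) ^ k / (k : ℂ)) atTop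
      (𝓝 (∑' m : ℕ, ∑' k : ℕ, (w * q ^ (a * m + b)) ^ k / (k : ℂ))) :=
    hs.prod.hasSum.tendsto_sum_nat
  have h7 := (Complex.continuous_exp.tendsto _).comp h6
  have h8 := tendsto_nhds_unique h5 h7
  rw [h8]
  congr 1
  have hs' : Summable (Function.uncurry fun m k : ℕ => (w * q ^ (a * m + b)) ^ k / (k : ℂ)) := hs
  rw [← hs'.tsum_comm]
  unfold Lq
  apply tsum_congr
  intro k
  rcases Nat.eq_zero_or_pos k with rfl | hk
  · simp
  · have e : ∀ m : ℕ, (w * q ^ (a * m + b)) ^ k / (k : ℂ) =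
        (w ^ k * q ^ (k * b) / k) * (q ^ (k * a)) ^ m := by
      intro m
      rw [mul_pow, ← pow_mul, ← pow_mul, add_mul, pow_add]
      rw [show a * m * k = k * a * m by ring, show b * k = k * b by ring]
      ring
    simp_rw [e]
    rw [tsum_mul_left, tsum_geometric_of_norm_lt_one]
    · rw [div_mul_eq_div_div, div_eq_mul_inv _ (1 - q ^ (k * a))]
    · rw [norm_pow]
      exact pow_lt_one₀ (norm_nonneg _) hq (Nat.mul_ne_zero (by omega) (by omega))

/-- the leading constant at the root of unity `ρ` -/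
noncomputable def Lam (a b : ℕ) (w ρ : ℂ) : ℂ :=
  ∑' k : ℕ, if ρ ^ (k * a) = 1 then (w * ρ ^ b) ^ k / (a * (k : ℂ) ^ 2) else 0

theorem norm_q (ρ : ℂ) (hρ : ‖ρ‖ = 1) (t x : ℝ) :
    ‖ρ * Complex.exp (-(x * (1 + t * Complex.I)))‖ = Real.exp (-x) := by
  rw [norm_mul, hρ, one_mul, Complex.norm_exp]
  congr 1
  simp

theorem term_bound (a b : ℕ) (hb : 1 ≤ b) (ha : 1 ≤ a) (w ρ : ℂ) (hw : ‖w‖ ≤ 1) (hρ : ‖ρ‖ = 1)
    (t x : ℝ) (hx : 0 < x) (k : ℕ) :
    ‖(x * (1 + t * Complex.I) : ℂ) * (w ^ k * (ρ * Complex.exp (-(x * (1 + t * Complex.I)))) ^ (k * b) /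
      (k * (1 - (ρ * Complex.exp (-(x * (1 + t * Complex.I)))) ^ (k * a))))‖ ≤
      ‖(1 + t * Complex.I : ℂ)‖ * (1 / (k : ℝ) ^ 2) := by
  rcases Nat.eq_zero_or_pos k with rfl | hk
  · simp
  · set q := ρ * Complex.exp (-(x * (1 + t * Complex.I))) with hqdef
    have hq : ‖q‖ = Real.exp (-x) := norm_q ρ hρ t x
    set y : ℝ := k * x with hy
    have hk0 : (0 : ℝ) < k := by exact_mod_cast hk
    have hy0 : 0 < y := by positivity
    have hq1 : Real.exp (-x) ≤ 1 := by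
      rw [Real.exp_le_one_iff]; linarith
    have hpow : ∀ c : ℕ, 1 ≤ c → ‖q‖ ^ (k * c) ≤ Real.exp (-y) := by
      intro c hc
      have e : Real.exp (-y) = Real.exp (-x) ^ k := by
        rw [← Real.exp_nat_mul]; congr 1; rw [hy]; ring
      rw [hq, e]
      exact pow_le_pow_of_le_one (Real.exp_pos _).le hq1 (Nat.le_mul_of_pos_right k hc)
    have hE : Real.exp (-y) < 1 := by
      rw [Real.exp_lt_one_iff]; linarith
    have h1 : 1 - Real.exp (-y) ≤ ‖1 - q ^ (k * a)‖ := by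
      have h2 := norm_sub_norm_le (1 : ℂ) (q ^ (k * a))
      rw [norm_one, norm_pow] at h2
      have := hpow a ha
      linarith
    have hpos : 0 < 1 - Real.exp (-y) := by linarith
    rw [norm_mul, norm_mul, norm_div, norm_mul, norm_mul, norm_pow, norm_pow, Complex.norm_natCast,
      Complex.norm_real, Real.norm_of_nonneg hx.le]
    have h3 : ‖w‖ ^ k * ‖q‖ ^ (k * b) ≤ Real.exp (-y) := by
      calc ‖w‖ ^ k * ‖q‖ ^ (k * b) ≤ 1 * Real.exp (-y) :=
            mul_le_mul (pow_le_one₀ (norm_nonneg _) hw) (hpow b hb) (by positivity) one_pos.le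
        _ = _ := one_mul _
    have h4 : ‖w‖ ^ k * ‖q‖ ^ (k * b) / (k * ‖1 - q ^ (k * a)‖) ≤
        Real.exp (-y) / (k * (1 - Real.exp (-y))) := by
      apply div_le_div₀ (Real.exp_pos _).le h3 (by positivity)
      exact mul_le_mul_of_nonneg_left h1 hk0.le
    have h5 : x * (Real.exp (-y) / (k * (1 - Real.exp (-y)))) ≤ 1 / (k : ℝ) ^ 2 := by
      have h6 : y * Real.exp (-y) ≤ 1 - Real.exp (-y) := by
        have h7 := Real.add_one_le_exp y
        have h8 : Real.exp y * Real.exp (-y) = 1 := by rw [← Real.exp_add]; simp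
        have h9 := Real.exp_pos (-y)
        nlinarith
      rw [mul_div_assoc', div_le_div_iff₀ (by positivity) (by positivity)]
      calc x * Real.exp (-y) * (k : ℝ) ^ 2 = k * (y * Real.exp (-y)) := by rw [hy]; ring
        _ ≤ k * (1 - Real.exp (-y)) := mul_le_mul_of_nonneg_left h6 hk0.le
        _ = 1 * (k * (1 - Real.exp (-y))) := by ring
    calc x * ‖(1 + t * Complex.I : ℂ)‖ * (‖w‖ ^ k * ‖q‖ ^ (k * b) / (k * ‖1 - q ^ (k * a)‖))
        ≤ x * ‖(1 + t * Complex.I : ℂ)‖ * (Real.exp (-y) / (k * (1 - Real.exp (-y)))) := by gcongr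
      _ = ‖(1 + t * Complex.I : ℂ)‖ * (x * (Real.exp (-y) / (k * (1 - Real.exp (-y))))) := by ring
      _ ≤ _ := by gcongr

theorem term_tendsto (a b : ℕ) (ha : 1 ≤ a) (w ρ : ℂ) (t : ℝ) (k : ℕ) :
    Tendsto (fun x : ℝ => (x * (1 + t * Complex.I) : ℂ) *
      (w ^ k * (ρ * Complex.exp (-(x * (1 + t * Complex.I)))) ^ (k * b) /
      (k * (1 - (ρ * Complex.exp (-(x * (1 + t * Complex.I)))) ^ (k * a))))) (𝓝[>] 0)
      (𝓝 (if ρ ^ (k * a) = 1 then (w * ρ ^ b) ^ k / (a * (k : ℂ) ^ 2) else 0)) := by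
  rcases Nat.eq_zero_or_pos k with rfl | hk
  · simp
  have hkC : (k : ℂ) ≠ 0 := by exact_mod_cast hk.ne'
  have haC : (a : ℂ) ≠ 0 := by exact_mod_cast (by omega : a ≠ 0)
  set s : ℂ := 1 + t * Complex.I with hs
  have hs0 : s ≠ 0 := by
    intro h
    have := congrArg Complex.re h
    simp [hs] at this
  have hz : Tendsto (fun x : ℝ => (x : ℂ) * s) (𝓝[>] 0) (𝓝 0) := by
    have h1 : Tendsto (fun x : ℝ => (x : ℂ) * s) (𝓝 0) (𝓝 ((0 : ℝ) * s)) :=
      (Complex.continuous_ofReal.tendsto 0).mul_const s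
    rw [Complex.ofReal_zero, zero_mul] at h1
    exact h1.mono_left nhdsWithin_le_nhds
  have hq : Tendsto (fun x : ℝ => ρ * Complex.exp (-((x : ℂ) * s))) (𝓝[>] 0) (𝓝 ρ) := by
    have h1 := ((Complex.continuous_exp.tendsto _).comp hz.neg).const_mul ρ
    simpa using h1
  have hnum : Tendsto (fun x : ℝ => w ^ k * (ρ * Complex.exp (-((x : ℂ) * s))) ^ (k * b)) (𝓝[>] 0)
      (𝓝 (w ^ k * ρ ^ (k * b))) := (hq.pow (k * b)).const_mul _
  by_cases hr : ρ ^ (k * a) = 1
  · rw [if_pos hr]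
    -- the denominator divided by z
    have hd : HasDerivAt (fun z : ℂ => 1 - Complex.exp (-((k * a : ℕ) : ℂ) * z)) ((k * a : ℕ) : ℂ) 0 := by
      have h1 : HasDerivAt (fun z : ℂ => -((k * a : ℕ) : ℂ) * z) (-((k * a : ℕ) : ℂ)) 0 := by
        simpa using (hasDerivAt_id (0 : ℂ)).const_mul (-((k * a : ℕ) : ℂ))
      have h2 := (h1.cexp).const_sub 1
      simpa using h2
    rw [hasDerivAt_iff_tendsto_slope] at hd
    have hz' : Tendsto (fun x : ℝ => (x : ℂ) * s) (𝓝[>] 0) (𝓝[≠] 0) := by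
      rw [tendsto_nhdsWithin_iff]
      refine ⟨hz, ?_⟩
      filter_upwards [self_mem_nhdsWithin] with x hx
      exact mul_ne_zero (by exact_mod_cast (ne_of_gt hx)) hs0
    have h3 := hd.comp hz'
    have hka : ((k * a : ℕ) : ℂ) ≠ 0 := by
      push_cast
      exact mul_ne_zero hkC haC
    have h4 := h3.inv₀ hka
    have h5 := (hnum.div_const (k : ℂ)).mul h4
    have e : w ^ k * ρ ^ (k * b) / (k : ℂ) * ((k * a : ℕ) : ℂ)⁻¹ =
        (w * ρ ^ b) ^ k / (a * (k : ℂ) ^ 2) := by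
      rw [mul_pow, ← pow_mul, mul_comm b k]
      push_cast
      field_simp
    rw [e] at h5
    refine h5.congr' ?_
    filter_upwards [self_mem_nhdsWithin] with x hx
    have hx0 : (x : ℂ) ≠ 0 := by exact_mod_cast (ne_of_gt hx)
    simp only [Function.comp_apply, slope, vsub_eq_sub, sub_zero, mul_zero, Complex.exp_zero,
      sub_self, smul_eq_mul]
    have e2 : (ρ * Complex.exp (-((x : ℂ) * s))) ^ (k * a) =
        Complex.exp (-((k * a : ℕ) : ℂ) * ((x : ℂ) * s)) := by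
      rw [mul_pow, hr, one_mul, ← Complex.exp_nat_mul]
      congr 1
      ring
    rw [e2, mul_inv, inv_inv]
    rw [div_eq_mul_inv, div_eq_mul_inv, mul_inv]
    ring
  · rw [if_neg hr]
    have hden : Tendsto (fun x : ℝ => (k : ℂ) * (1 - (ρ * Complex.exp (-((x : ℂ) * s))) ^ (k * a)))
        (𝓝[>] 0) (𝓝 ((k : ℂ) * (1 - ρ ^ (k * a)))) := ((hq.pow (k * a)).const_sub 1).const_mul _
    have hne : (k : ℂ) * (1 - ρ ^ (k * a)) ≠ 0 :=
      mul_ne_zero hkC (sub_ne_zero.mpr (Ne.symm hr))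
    have h1 := hz.mul (hnum.div hden hne)
    rw [zero_mul] at h1
    exact h1

/-- **Asymptotics near a root of unity.** -/
theorem tendsto_Lq (a b : ℕ) (hb : 1 ≤ b) (ha : 1 ≤ a) (w ρ : ℂ) (hw : ‖w‖ ≤ 1) (hρ : ‖ρ‖ = 1)
    (t : ℝ) : Tendsto (fun x : ℝ => (x * (1 + t * Complex.I) : ℂ) *
      Lq a b w (ρ * Complex.exp (-(x * (1 + t * Complex.I))))) (𝓝[>] 0) (𝓝 (Lam a b w ρ)) := by
  unfold Lq Lam
  simp_rw [← tsum_mul_left]
  have hsum : Summable (fun k : ℕ => ‖(1 + t * Complex.I : ℂ)‖ * (1 / (k : ℝ) ^ 2)) :=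
    (Real.summable_one_div_nat_pow.mpr (by norm_num)).mul_left _
  apply tendsto_tsum_of_dominated_convergence hsum
  · intro k
    exact term_tendsto a b ha w ρ t k
  · filter_upwards [self_mem_nhdsWithin] with x hx k
    exact term_bound a b hb ha w ρ hw hρ t x hx k

end Pool.Agent.X20.Osc
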