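import Mathlib
import Pool.Agent.X20.OscBase
import Pool.Agent.X20.OscLog

/-! Numerical bounds for the leading constants. -/

namespace Pool.Agent.X20.Osc

open Finset Filter Topology

theorem s_ne (t : ℝ) : (1 + t * Complex.I : ℂ) ≠ 0 := by
  intro h
  have := congrArg Complex.re h
  simp at this

theorem tendsto_re (a b : ℕ) (hb : 1 ≤ b) (ha : 1 ≤ a) (w ρ : ℂ) (hw : ‖w‖ ≤ 1) (hρ : ‖ρ‖ = 1)
    (t : ℝ) : Tendsto (fun x : ℝ => x * (Lq a b w (ρ * Complex.exp (-(x * (1 + t * Complex.I))))).re)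
      (𝓝[>] 0) (𝓝 (Lam a b w ρ / (1 + t * Complex.I)).re) := by
  have h1 := (tendsto_Lq a b hb ha w ρ hw hρ t).div_const (1 + t * Complex.I)
  have h2 := (Complex.continuous_re.tendsto _).comp h1
  refine h2.congr fun x => ?_
  simp only [Function.comp_apply]
  have e : (x * (1 + t * Complex.I) : ℂ) * Lq a b w (ρ * Complex.exp (-(x * (1 + t * Complex.I)))) /
      (1 + t * Complex.I) = (x : ℂ) * Lq a b w (ρ * Complex.exp (-(x * (1 + t * Complex.I)))) := by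
    field_simp [s_ne t]
  rw [e, Complex.re_ofReal_mul]

theorem ev_upper (a b : ℕ) (hb : 1 ≤ b) (ha : 1 ≤ a) (w ρ : ℂ) (hw : ‖w‖ ≤ 1) (hρ : ‖ρ‖ = 1)
    (t B : ℝ) (h : (Lam a b w ρ / (1 + t * Complex.I)).re < B) :
    ∀ᶠ x : ℝ in 𝓝[>] 0,
      ‖Complex.exp (Lq a b w (ρ * Complex.exp (-(x * (1 + t * Complex.I)))))‖ ≤ Real.exp (B / x) := by
  filter_upwards [(tendsto_re a b hb ha w ρ hw hρ t).eventually_lt_const h, self_mem_nhdsWithin]
    with x hx1 hx2
  have hx2' : 0 < x := hx2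
  rw [Complex.norm_exp]
  apply Real.exp_le_exp.mpr
  rw [le_div_iff₀ hx2', mul_comm]
  exact hx1.le

theorem ev_lower (a b : ℕ) (hb : 1 ≤ b) (ha : 1 ≤ a) (w ρ : ℂ) (hw : ‖w‖ ≤ 1) (hρ : ‖ρ‖ = 1)
    (t B : ℝ) (h : B < (Lam a b w ρ / (1 + t * Complex.I)).re) :
    ∀ᶠ x : ℝ in 𝓝[>] 0,
      Real.exp (B / x) ≤ ‖Complex.exp (Lq a b w (ρ * Complex.exp (-(x * (1 + t * Complex.I)))))‖ := by
  filter_upwards [(tendsto_re a b hb ha w ρ hw hρ t).eventually_const_lt h, self_mem_nhdsWithin]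
    with x hx1 hx2
  have hx2' : 0 < x := hx2
  rw [Complex.norm_exp]
  apply Real.exp_le_exp.mpr
  rw [div_le_iff₀ hx2', mul_comm]
  exact hx1.le

/-- dilogarithm series -/
noncomputable def Sd (u : ℂ) : ℂ := ∑' k : ℕ, u ^ k / (k : ℂ) ^ 2

theorem Lam_eq (a b : ℕ) (w ρ : ℂ) (h : ρ ^ a = 1) : Lam a b w ρ = Sd (w * ρ ^ b) / a := by
  unfold Lam Sd
  rw [← tsum_div_const]
  apply tsum_congr
  intro k
  rw [if_pos (by rw [mul_comm, pow_mul, h, one_pow]), div_div, mul_comm (a : ℂ)]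

theorem Lam_norm_le (a b : ℕ) (ha : 1 ≤ a) (w ρ : ℂ) (hw : ‖w‖ ≤ 1) (hρ : ‖ρ‖ = 1)
    (h : ρ ^ a ≠ 1) : ‖Lam a b w ρ‖ ≤ Real.pi ^ 2 / 24 / a := by
  set N := orderOf (ρ ^ a) with hN
  have ha0 : (0 : ℝ) < a := by exact_mod_cast ha
  have hdvd : ∀ k : ℕ, ρ ^ (k * a) = 1 ↔ N ∣ k := by
    intro k
    rw [mul_comm, pow_mul, ← orderOf_dvd_iff_pow_eq_one]
  have hN1 : N ≠ 1 := by
    intro h1
    rw [hN, orderOf_eq_one_iff] at h1
    exact h h1
  rcases Nat.eq_zero_or_pos N with h0 | hpos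
  · have : Lam a b w ρ = 0 := by
      unfold Lam
      rw [tsum_eq_single 0]
      · simp
      · intro k hk
        rw [if_neg]
        rw [hdvd k, h0, zero_dvd_iff]
        exact hk
    rw [this, norm_zero]
    positivity
  · have hN2 : 2 ≤ N := by omega
    have hinj : Function.Injective (fun j : ℕ => N * j) := fun a b hab =>
      Nat.eq_of_mul_eq_mul_left hpos hab
    have hsum : HasSum (fun k : ℕ => if N ∣ k then (1 / (k : ℝ) ^ 2) else 0)
        (1 / (N : ℝ) ^ 2 * (Real.pi ^ 2 / 6)) := by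
      rw [← hinj.hasSum_iff]
      · have h1 := hasSum_zeta_two.mul_left (1 / (N : ℝ) ^ 2)
        refine h1.congr_fun ?_ |> fun h => h
        intro j
        simp only [Function.comp_apply]
        rw [if_pos (dvd_mul_right _ _)]
        push_cast
        rw [mul_pow]
        field_simp
      · intro k hk
        rw [if_neg]
        rintro ⟨j, rfl⟩
        exact hk ⟨j, rfl⟩
    have hle : ∀ k : ℕ, ‖(if ρ ^ (k * a) = 1 then (w * ρ ^ b) ^ k / (a * (k : ℂ) ^ 2) else 0)‖ ≤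
        1 / a * (if N ∣ k then (1 / (k : ℝ) ^ 2) else 0) := by
      intro k
      simp only [hdvd k]
      split_ifs
      · rw [norm_div, norm_pow, norm_mul, norm_pow, hρ, one_pow, mul_one, norm_mul, norm_pow,
          Complex.norm_natCast, Complex.norm_natCast, one_div_mul_one_div]
        exact div_le_div_of_nonneg_right (pow_le_one₀ (norm_nonneg _) hw) (by positivity)
      · simp
    have h2 := (hsum.mul_left (1 / (a : ℝ)))
    have h3 : ‖Lam a b w ρ‖ ≤ 1 / a * (1 / (N : ℝ) ^ 2 * (Real.pi ^ 2 / 6)) := by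
      unfold Lam
      exact tsum_of_norm_bounded h2 hle
    refine h3.trans ?_
    have h4 : 1 / (N : ℝ) ^ 2 ≤ 1 / 4 := by
      have : (2 : ℝ) ≤ N := by exact_mod_cast hN2
      apply div_le_div_of_nonneg_left (by norm_num) (by norm_num)
      nlinarith
    calc 1 / (a : ℝ) * (1 / (N : ℝ) ^ 2 * (Real.pi ^ 2 / 6)) ≤
        1 / (a : ℝ) * (1 / 4 * (Real.pi ^ 2 / 6)) := by gcongr
      _ = Real.pi ^ 2 / 24 / a := by field_simp; ring

theorem pi_sq_lt : Real.pi ^ 2 < 9.8697 := by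
  have h1 := Real.pi_lt_d4
  have h2 := Real.pi_pos
  nlinarith

theorem Sd_tail (u : ℂ) (hu : ‖u‖ ≤ 1) :
    ‖Sd u - ∑ k ∈ range 7, u ^ k / (k : ℂ) ^ 2‖ ≤ 1536 / 10000 := by
  have hb : ∀ k : ℕ, ‖u ^ k / (k : ℂ) ^ 2‖ ≤ 1 / (k : ℝ) ^ 2 := by
    intro k
    rw [norm_div, norm_pow, norm_pow, Complex.norm_natCast]
    exact div_le_div_of_nonneg_right (pow_le_one₀ (norm_nonneg _) hu) (by positivity)
  have hs : Summable (fun k : ℕ => u ^ k / (k : ℂ) ^ 2) :=
    Summable.of_norm_bounded (Real.summable_one_div_nat_pow.mpr (by norm_num : 1 < 2)) hb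
  have h1 : Sd u - ∑ k ∈ range 7, u ^ k / (k : ℂ) ^ 2 = ∑' k : ℕ, u ^ (k + 7) / ((k + 7 : ℕ) : ℂ) ^ 2 := by
    unfold Sd
    rw [← hs.sum_add_tsum_nat_add 7]
    ring
  rw [h1]
  have h2 : HasSum (fun k : ℕ => 1 / ((k + 7 : ℕ) : ℝ) ^ 2)
      (Real.pi ^ 2 / 6 - ∑ k ∈ range 7, 1 / (k : ℝ) ^ 2) :=
    (hasSum_nat_add_iff' (f := fun k : ℕ => 1 / (k : ℝ) ^ 2) 7).mpr hasSum_zeta_two
  refine (tsum_of_norm_bounded h2 fun k => hb (k + 7)).trans ?_
  have h3 := pi_sq_lt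
  simp only [Finset.sum_range_succ, Finset.sum_range_zero]
  norm_num at h3 ⊢
  linarith

theorem re_of_root {u : ℂ} (h : u ^ 2 = u - 1) : u.re = 1 / 2 ∧ u.im ^ 2 = 3 / 4 := by
  have h1 := congrArg Complex.re h
  have h2 := congrArg Complex.im h
  rw [sq] at h1 h2
  simp only [Complex.mul_re, Complex.mul_im, Complex.sub_re, Complex.sub_im, Complex.one_re,
    Complex.one_im] at h1 h2
  have h3 : u.im * (2 * u.re - 1) = 0 := by linarith
  rcases mul_eq_zero.mp h3 with h4 | h4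
  · rw [h4] at h1
    nlinarith [sq_nonneg (u.re - 1 / 2)]
  · have h5 : u.re = 1 / 2 := by linarith
    refine ⟨h5, ?_⟩
    rw [h5] at h1
    nlinarith

theorem norm_of_root {u : ℂ} (h : u ^ 2 = u - 1) : ‖u‖ = 1 := by
  obtain ⟨h1, h2⟩ := re_of_root h
  have h3 : Complex.normSq u = 1 := by
    rw [Complex.normSq_apply, h1]
    nlinarith
  rw [Complex.norm_def, h3, Real.sqrt_one]

/-- partial sum at a primitive sixth root of unity -/
theorem partial_six {u : ℂ} (h : u ^ 2 = u - 1) :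
    ∑ k ∈ range 7, u ^ k / (k : ℂ) ^ 2 = u * (459 / 400) - 22 / 75 := by
  have h3 : u ^ 3 = -1 := by
    have : u ^ 3 = u * u ^ 2 := by ring
    rw [this, h, mul_sub, ← sq, h]; ring
  have h4 : u ^ 4 = -u := by
    have : u ^ 4 = u * u ^ 3 := by ring
    rw [this, h3]; ring
  have h5 : u ^ 5 = 1 - u := by
    have : u ^ 5 = u ^ 2 * u ^ 3 := by ring
    rw [this, h3, h]; ring
  have h6 : u ^ 6 = 1 := by
    have : u ^ 6 = (u ^ 3) ^ 2 := by ring
    rw [this, h3]; ring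
  simp only [Finset.sum_range_succ, Finset.sum_range_zero]
  rw [h, h3, h4, h5, h6]
  norm_num
  ring

theorem Sd_six_re_le {u : ℂ} (h : u ^ 2 = u - 1) : (Sd u).re ≤ 43422 / 100000 := by
  obtain ⟨h1, h2⟩ := re_of_root h
  have h3 := Sd_tail u (norm_of_root h).le
  rw [partial_six h] at h3
  have h4 := (Complex.abs_re_le_norm _).trans h3
  rw [Complex.sub_re, Complex.sub_re] at h4
  have e : (u * (459 / 400)).re = 459 / 800 := by
    have : (u * (459 / 400) : ℂ) = ((459 / 400 : ℝ) : ℂ) * u := by push_cast; ring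
    rw [this, Complex.re_ofReal_mul, h1]
    norm_num
  have e2 : (22 / 75 : ℂ).re = 22 / 75 := by
    have : (22 / 75 : ℂ) = ((22 / 75 : ℝ) : ℂ) := by push_cast; ring
    rw [this, Complex.ofReal_re]
  rw [e, e2] at h4
  have := (abs_le.mp h4).2
  norm_num at this ⊢
  linarith

theorem Sd_six_lower {u : ℂ} (h : u ^ 2 = u - 1) (him : u.im < 0) :
    9667 / 10000 ≤ (Sd u).re - (Sd u).im ∧ (Sd u).im ≤ 0 := by
  obtain ⟨h1, h2⟩ := re_of_root h
  have h3 := Sd_tail u (norm_of_root h).le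
  rw [partial_six h] at h3
  have h4 := (Complex.abs_re_le_norm _).trans h3
  have h5 := (Complex.abs_im_le_norm _).trans h3
  rw [Complex.sub_re, Complex.sub_re] at h4
  rw [Complex.sub_im, Complex.sub_im] at h5
  have e0 : (u * (459 / 400) : ℂ) = ((459 / 400 : ℝ) : ℂ) * u := by push_cast; ring
  have e : (u * (459 / 400)).re = 459 / 800 := by
    rw [e0, Complex.re_ofReal_mul, h1]
    norm_num
  have e' : (u * (459 / 400)).im = 459 / 400 * u.im := by
    rw [e0, Complex.im_ofReal_mul]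
  have e1 : (22 / 75 : ℂ) = ((22 / 75 : ℝ) : ℂ) := by push_cast; ring
  have e2 : (22 / 75 : ℂ).re = 22 / 75 := by rw [e1, Complex.ofReal_re]
  have e3 : (22 / 75 : ℂ).im = 0 := by rw [e1, Complex.ofReal_im]
  rw [e, e2] at h4
  rw [e', e3] at h5
  have h6 := abs_le.mp h4
  have h7 := abs_le.mp h5
  have h8 : u.im ≤ -(866 / 1000) := by
    nlinarith
  constructor <;> norm_num at h6 h7 ⊢ <;> linarith [h6.1, h6.2, h7.1, h7.2]

theorem Sd_neg_one : (Sd (-1)).re ≤ 0 := by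
  have h3 := Sd_tail (-1) (by simp)
  have h4 := (Complex.abs_re_le_norm _).trans h3
  simp only [Finset.sum_range_succ, Finset.sum_range_zero] at h4
  norm_num [Complex.sub_re] at h4
  have := (abs_le.mp h4).2
  linarith

theorem re_of_root3 {u : ℂ} (h : u ^ 2 + u + 1 = 0) : u.re = -1 / 2 ∧ ‖u‖ = 1 := by
  have h' : (-u) ^ 2 = (-u) - 1 := by linear_combination h
  obtain ⟨h1, _⟩ := re_of_root h'
  have h2 := norm_of_root h'
  rw [Complex.neg_re] at h1
  rw [norm_neg] at h2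
  exact ⟨by linarith, h2⟩

theorem Sd_three_re_le {u : ℂ} (h : u ^ 2 + u + 1 = 0) : (Sd u).re ≤ 0 := by
  obtain ⟨h1, hn⟩ := re_of_root3 h
  have h3 := Sd_tail u hn.le
  have e2 : u ^ 2 = -u - 1 := by linear_combination h
  have e3 : u ^ 3 = 1 := by
    have : u ^ 3 - 1 = (u - 1) * (u ^ 2 + u + 1) := by ring
    rw [h, mul_zero] at this
    exact sub_eq_zero.mp this
  have e4 : u ^ 4 = u := by
    have : u ^ 4 = u * u ^ 3 := by ring
    rw [this, e3, mul_one]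
  have e5 : u ^ 5 = -u - 1 := by
    have : u ^ 5 = u ^ 2 * u ^ 3 := by ring
    rw [this, e3, mul_one, e2]
  have e6 : u ^ 6 = 1 := by
    have : u ^ 6 = (u ^ 3) ^ 2 := by ring
    rw [this, e3, one_pow]
  have e : ∑ k ∈ range 7, u ^ k / (k : ℂ) ^ 2 = u * (309 / 400) - 227 / 1800 * 1 - 227 / 1800 * 0 +
      (∑ k ∈ range 7, u ^ k / (k : ℂ) ^ 2 - (u * (309 / 400) - 227 / 1800)) := by ring
  have e' : ∑ k ∈ range 7, u ^ k / (k : ℂ) ^ 2 = u * (309 / 400) - 1 / 4 - 1 / 25 + 1 / 9 + 1 / 36 := by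
    simp only [Finset.sum_range_succ, Finset.sum_range_zero]
    rw [e2, e3, e4, e5, e6]
    norm_num
    ring
  rw [e'] at h3
  have h4 := (Complex.abs_re_le_norm _).trans h3
  have e0 : (Sd u - (u * (309 / 400) - 1 / 4 - 1 / 25 + 1 / 9 + 1 / 36) : ℂ) =
      Sd u - (((309 / 400 : ℝ) : ℂ) * u - ((1 / 4 + 1 / 25 - 1 / 9 - 1 / 36 : ℝ) : ℂ)) := by
    push_cast; ring
  rw [e0, Complex.sub_re, Complex.sub_re, Complex.re_ofReal_mul, Complex.ofReal_re, h1] at h4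
  have := (abs_le.mp h4).2
  norm_num at this ⊢
  linarith

end Pool.Agent.X20.Osc
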