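import Mathlib

/-! If the signs of the coefficients of a power series are eventually periodic, then the series is
bounded by its values on finitely many rays. -/

namespace Pool.Agent.X20.Osc

open Finset Filter Topology

/-- the primitive root of unity `exp (2 π i / p)` -/
noncomputable def zt (p : ℕ) : ℂ := Complex.exp (2 * Real.pi * Complex.I / p)

theorem zt_prim (p : ℕ) (hp : 0 < p) : IsPrimitiveRoot (zt p) p :=
  Complex.isPrimitiveRoot_exp p hp.ne'

/-- finite Fourier expansion of a periodic function -/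
theorem fourier (p : ℕ) (hp : 0 < p) (e : ℕ → ℝ) (he : ∀ n, e n = e (n % p)) (he1 : ∀ n, |e n| ≤ 1) :
    ∃ c : ℕ → ℂ, (∀ j, ‖c j‖ ≤ 1) ∧ ∀ n, (e n : ℂ) = ∑ j ∈ range p, c j * (zt p ^ j) ^ n := by
  have hz := zt_prim p hp
  have hz0 : zt p ≠ 0 := hz.ne_zero hp.ne'
  have hpC : (p : ℂ) ≠ 0 := by exact_mod_cast hp.ne'
  have hnorm : ‖zt p‖ = 1 := hz.norm'_eq_one hp.ne'
  refine ⟨fun j => (1 / p : ℂ) * ∑ c ∈ range p, (e c : ℂ) * ((zt p ^ j) ^ c)⁻¹, ?_, ?_⟩
  · intro j
    rw [norm_mul]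
    have h1 : ‖∑ c ∈ range p, (e c : ℂ) * ((zt p ^ j) ^ c)⁻¹‖ ≤ p := by
      refine (norm_sum_le _ _).trans ?_
      calc ∑ c ∈ range p, ‖(e c : ℂ) * ((zt p ^ j) ^ c)⁻¹‖ ≤ ∑ c ∈ range p, (1 : ℝ) := by
            apply Finset.sum_le_sum
            intro c _
            rw [norm_mul, norm_inv, norm_pow, norm_pow, hnorm, one_pow, one_pow, inv_one, mul_one,
              Complex.norm_real]
            exact he1 c
        _ = p := by simp
    rw [norm_div, norm_one, Complex.norm_natCast]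
    have hp0 : (0 : ℝ) < p := by exact_mod_cast hp
    calc 1 / (p : ℝ) * ‖∑ c ∈ range p, (e c : ℂ) * ((zt p ^ j) ^ c)⁻¹‖ ≤ 1 / (p : ℝ) * p := by
          gcongr
      _ = 1 := by field_simp
  · intro n
    have h1 : ∑ j ∈ range p, (1 / p : ℂ) * (∑ c ∈ range p, (e c : ℂ) * ((zt p ^ j) ^ c)⁻¹) *
        (zt p ^ j) ^ n = (1 / p : ℂ) * ∑ c ∈ range p, (e c : ℂ) *
        ∑ j ∈ range p, (zt p ^ n * (zt p ^ c)⁻¹) ^ j := by
      rw [Finset.mul_sum]
      simp_rw [Finset.mul_sum, Finset.sum_mul]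
      rw [Finset.sum_comm]
      apply Finset.sum_congr rfl
      intro c _
      apply Finset.sum_congr rfl
      intro j _
      rw [mul_pow, inv_pow, ← pow_mul, ← pow_mul, ← pow_mul, ← pow_mul, mul_comm n j, mul_comm c j]
      ring
    have h2 : ∀ c ∈ range p, (e c : ℂ) * ∑ j ∈ range p, (zt p ^ n * (zt p ^ c)⁻¹) ^ j =
        if c = n % p then (e c : ℂ) * p else 0 := by
      intro c hc
      rw [mem_range] at hc
      split_ifs with h
      · have e1 : zt p ^ n = zt p ^ c := by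
          rw [h, ← pow_mod_orderOf, ← hz.eq_orderOf]
        rw [e1, mul_inv_cancel₀ (pow_ne_zero _ hz0)]
        simp
      · have hne : zt p ^ n * (zt p ^ c)⁻¹ ≠ 1 := by
          intro h3
          apply h
          have h4 : zt p ^ n = zt p ^ c := by
            rw [← div_eq_mul_inv, div_eq_one_iff_eq (pow_ne_zero _ hz0)] at h3
            exact h3
          have h5 : zt p ^ (n % p) = zt p ^ c := by
            rw [← h4]
            conv_rhs => rw [← Nat.mod_add_div n p, pow_add, pow_mul, hz.pow_eq_one, one_pow, mul_one]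
          exact (hz.pow_inj (Nat.mod_lt n hp) hc h5).symm
        have h3 : (zt p ^ n * (zt p ^ c)⁻¹) ^ p = 1 := by
          rw [mul_pow, inv_pow, ← pow_mul, ← pow_mul, mul_comm n p, mul_comm c p, pow_mul, pow_mul,
            hz.pow_eq_one]
          simp
        rw [geom_sum_eq hne, h3, sub_self, zero_div, mul_zero]
    rw [h1, Finset.sum_congr rfl h2, Finset.sum_ite_eq' (range p) (n % p),
      if_pos (mem_range.mpr (Nat.mod_lt n hp)), he n]
    field_simp

theorem sign_ineq (g : ℕ → ℝ) (hg : ∀ r : ℝ, 0 ≤ r → r < 1 → Summable fun n => |g n| * r ^ n)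
    (p N : ℕ) (hp : 0 < p) (hper : ∀ n, N ≤ n → (0 ≤ g n ↔ 0 ≤ g (n + p))) :
    ∃ C : ℝ, ∀ q : ℂ, ‖q‖ < 1 → ‖∑' n, (g n : ℂ) * q ^ n‖ ≤
      C + ∑ j ∈ range p, ‖∑' n, (g n : ℂ) * (zt p ^ j * (‖q‖ : ℂ)) ^ n‖ := by
  classical
  set e : ℕ → ℝ := fun n => if 0 ≤ g n then 1 else -1 with he
  have hek : ∀ k n, N ≤ n → e (n + p * k) = e n := by
    intro k
    induction k with
    | zero => intro n _; simp
    | succ k ih =>
      intro n hn
      rw [show n + p * (k + 1) = (n + p * k) + p by ring]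
      have h1 := hper (n + p * k) (by omega)
      have h2 : e (n + p * k + p) = e (n + p * k) := by
        simp only [he]
        by_cases h3 : 0 ≤ g (n + p * k)
        · rw [if_pos h3, if_pos (h1.mp h3)]
        · rw [if_neg h3, if_neg (fun h => h3 (h1.mpr h))]
      rw [h2, ih n hn]
  set e' : ℕ → ℝ := fun n => e (n % p + p * N) with he'
  have hN : ∀ m, N ≤ m + p * N := fun m => by
    have : 1 * N ≤ p * N := Nat.mul_le_mul_right N hp
    omega
  have hee' : ∀ n, N ≤ n → e n = e' n := by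
    intro n hn
    simp only [he']
    have h1 := Nat.mod_add_div n p
    rcases le_total (n / p) N with h | h
    · have h2 : n % p + p * N = n + p * (N - n / p) := by
        obtain ⟨d, hd⟩ := Nat.exists_eq_add_of_le h
        rw [hd, Nat.add_sub_cancel_left, mul_add]
        omega
      rw [h2, hek _ n hn]
    · have h2 : n = (n % p + p * N) + p * (n / p - N) := by
        obtain ⟨d, hd⟩ := Nat.exists_eq_add_of_le h
        rw [hd, mul_add] at h1
        rw [hd, Nat.add_sub_cancel_left]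
        omega
      conv_lhs => rw [h2]
      rw [hek _ _ (hN _)]
  obtain ⟨c, hc1, hc2⟩ := fourier p hp e' (fun n => by simp only [he', Nat.mod_mod]) (fun n => by
    simp only [he', he]; split_ifs <;> simp)
  have habs : ∀ n, |g n| = e n * g n := by
    intro n
    simp only [he]
    split_ifs with h
    · rw [abs_of_nonneg h, one_mul]
    · rw [abs_of_neg (not_le.mp h)]; ring
  refine ⟨2 * ∑ n ∈ range N, |g n|, ?_⟩
  intro q hq
  set r := ‖q‖ with hr
  have hr0 : 0 ≤ r := norm_nonneg q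
  have hs := hg r hr0 hq
  have hz := zt_prim p hp
  have hnorm : ‖zt p‖ = 1 := hz.norm'_eq_one hp.ne'
  have hsj : ∀ j, Summable fun n => (g n : ℂ) * (zt p ^ j * (r : ℂ)) ^ n := by
    intro j
    apply Summable.of_norm
    refine hs.congr ?_
    intro n
    rw [norm_mul, norm_pow, norm_mul, norm_pow, hnorm, one_pow, one_mul, Complex.norm_real,
      Complex.norm_real, Real.norm_of_nonneg hr0, Real.norm_eq_abs]
  have h1 : ‖∑' n, (g n : ℂ) * q ^ n‖ ≤ ∑' n, |g n| * r ^ n := by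
    have h2 : ∀ n, ‖(g n : ℂ) * q ^ n‖ = |g n| * r ^ n := by
      intro n
      rw [norm_mul, norm_pow, Complex.norm_real, Real.norm_eq_abs]
    calc ‖∑' n, (g n : ℂ) * q ^ n‖ ≤ ∑' n, ‖(g n : ℂ) * q ^ n‖ :=
          norm_tsum_le_tsum_norm (by simp_rw [h2]; exact hs)
      _ = _ := by simp_rw [h2]
  -- the periodic sum
  have hse : Summable fun n => (e' n * g n * r ^ n : ℝ) := by
    apply Summable.of_norm_bounded hs
    intro n
    rw [norm_mul, norm_mul, norm_pow, Real.norm_of_nonneg hr0, Real.norm_eq_abs, Real.norm_eq_abs]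
    have : |e' n| ≤ 1 := by simp only [he', he]; split_ifs <;> simp
    have h3 : 0 ≤ |g n| * r ^ n := by positivity
    calc |e' n| * |g n| * r ^ n = |e' n| * (|g n| * r ^ n) := by ring
      _ ≤ 1 * (|g n| * r ^ n) := mul_le_mul_of_nonneg_right this h3
      _ = _ := one_mul _
  have h3 : ∑' n, |g n| * r ^ n ≤ 2 * ∑ n ∈ range N, |g n| + ∑' n, (e' n * g n * r ^ n : ℝ) := by
    rw [← sub_le_iff_le_add, ← (hs.tsum_sub hse)]
    have h4 : ∀ n, n ∉ range N → |g n| * r ^ n - e' n * g n * r ^ n = 0 := by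
      intro n hn
      rw [mem_range, not_lt] at hn
      rw [habs n, hee' n hn]
      ring
    rw [tsum_eq_sum (s := range N) (fun n hn => h4 n hn), Finset.mul_sum]
    apply Finset.sum_le_sum
    intro n _
    have h5 : |e' n| ≤ 1 := by simp only [he', he]; split_ifs <;> simp
    have h6 : r ^ n ≤ 1 := pow_le_one₀ hr0 hq.le
    have h7 : 0 ≤ r ^ n := by positivity
    have h8 : |e' n * g n * r ^ n| ≤ |g n| := by
      rw [abs_mul, abs_mul, abs_of_nonneg h7]
      calc |e' n| * |g n| * r ^ n ≤ 1 * |g n| * 1 := by gcongr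
        _ = |g n| := by ring
    have h9 := neg_abs_le (e' n * g n * r ^ n)
    have h10 : |g n| * r ^ n ≤ |g n| := by
      calc |g n| * r ^ n ≤ |g n| * 1 := by gcongr
        _ = _ := mul_one _
    linarith
  have h4 : (((∑' n, (e' n * g n * r ^ n : ℝ)) : ℝ) : ℂ) =
      ∑ j ∈ range p, c j * ∑' n, (g n : ℂ) * (zt p ^ j * (r : ℂ)) ^ n := by
    rw [Complex.ofReal_tsum]
    simp_rw [← tsum_mul_left]
    rw [← Summable.tsum_finsetSum (fun j _ => (hsj j).mul_left (c j))]
    apply tsum_congr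
    intro n
    push_cast
    rw [hc2 n, Finset.sum_mul, Finset.sum_mul]
    apply Finset.sum_congr rfl
    intro j _
    rw [mul_pow]
    ring
  have h5 : ∑' n, (e' n * g n * r ^ n : ℝ) ≤
      ∑ j ∈ range p, ‖∑' n, (g n : ℂ) * (zt p ^ j * (r : ℂ)) ^ n‖ := by
    calc ∑' n, (e' n * g n * r ^ n : ℝ) ≤ ‖(((∑' n, (e' n * g n * r ^ n : ℝ)) : ℝ) : ℂ)‖ := by
          rw [Complex.norm_real]; exact le_abs_self _
      _ ≤ ∑ j ∈ range p, ‖c j * ∑' n, (g n : ℂ) * (zt p ^ j * (r : ℂ)) ^ n‖ := by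
          rw [h4]; exact norm_sum_le _ _
      _ ≤ _ := by
          apply Finset.sum_le_sum
          intro j _
          rw [norm_mul]
          calc ‖c j‖ * ‖∑' n, (g n : ℂ) * (zt p ^ j * (r : ℂ)) ^ n‖ ≤
              1 * ‖∑' n, (g n : ℂ) * (zt p ^ j * (r : ℂ)) ^ n‖ :=
                mul_le_mul_of_nonneg_right (hc1 j) (norm_nonneg _)
            _ = _ := one_mul _
  linarith

/-- the contradiction lemma -/
theorem osc_contra (g : ℕ → ℝ) (hg : ∀ r : ℝ, 0 ≤ r → r < 1 → Summable fun n => |g n| * r ^ n)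
    (p N : ℕ) (hp : 0 < p) (hper : ∀ n, N ≤ n → (0 ≤ g n ↔ 0 ≤ g (n + p)))
    (B B' K : ℝ) (hB : 0 ≤ B) (hBB : B < B') (hK : 0 ≤ K)
    (hup : ∀ ρ : ℂ, ρ ^ p = 1 → ∀ᶠ x : ℝ in 𝓝[>] 0,
      ‖∑' n, (g n : ℂ) * (ρ * (Real.exp (-x) : ℂ)) ^ n‖ ≤ K * Real.exp (B / x))
    (q : ℝ → ℂ) (hq : ∀ x, 0 < x → ‖q x‖ = Real.exp (-x))
    (hlow : ∀ᶠ x : ℝ in 𝓝[>] 0,
      Real.exp (B' / x) ≤ K * (‖∑' n, (g n : ℂ) * (q x) ^ n‖ + Real.exp (B / x))) : False := by
  obtain ⟨C, hC⟩ := sign_ineq g hg p N hp hper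
  have hz := zt_prim p hp
  have h1 : ∀ᶠ x : ℝ in 𝓝[>] 0, ∀ j ∈ range p,
      ‖∑' n, (g n : ℂ) * (zt p ^ j * (Real.exp (-x) : ℂ)) ^ n‖ ≤ K * Real.exp (B / x) := by
    rw [Filter.eventually_all_finset]
    intro j _
    apply hup
    rw [← pow_mul, mul_comm, pow_mul, hz.pow_eq_one, one_pow]
  have h2 : ∀ᶠ x : ℝ in 𝓝[>] 0, Real.exp (B' / x) ≤
      K * (|C| + p * (K * Real.exp (B / x)) + Real.exp (B / x)) := by
    filter_upwards [h1, hlow, self_mem_nhdsWithin] with x hx1 hx2 hx3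
    have hx3' : 0 < x := hx3
    have hqx := hq x hx3'
    have hlt : ‖q x‖ < 1 := by
      rw [hqx, Real.exp_lt_one_iff]; linarith
    have h3 := hC (q x) hlt
    rw [hqx] at h3
    have h4 : ∑ j ∈ range p, ‖∑' n, (g n : ℂ) * (zt p ^ j * (Real.exp (-x) : ℂ)) ^ n‖ ≤
        p * (K * Real.exp (B / x)) := by
      calc _ ≤ ∑ j ∈ range p, K * Real.exp (B / x) := Finset.sum_le_sum hx1
        _ = _ := by rw [Finset.sum_const, card_range, nsmul_eq_mul]
    refine hx2.trans (mul_le_mul_of_nonneg_left ?_ hK)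
    have := le_abs_self C
    linarith
  -- divide by exp (B / x)
  have h3 : ∀ᶠ x : ℝ in 𝓝[>] 0, Real.exp ((B' - B) / x) ≤ K * (|C| + p * K + 1) := by
    filter_upwards [h2, self_mem_nhdsWithin] with x hx1 hx2
    have hx2' : 0 < x := hx2
    have h4 : 1 ≤ Real.exp (B / x) := Real.one_le_exp (by positivity)
    have h5 : Real.exp (B' / x) = Real.exp ((B' - B) / x) * Real.exp (B / x) := by
      rw [← Real.exp_add]; congr 1; ring
    rw [h5] at hx1
    have h6 : K * (|C| + p * (K * Real.exp (B / x)) + Real.exp (B / x)) ≤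
        (K * (|C| + p * K + 1)) * Real.exp (B / x) := by
      have h7 : |C| ≤ |C| * Real.exp (B / x) := le_mul_of_one_le_right (abs_nonneg C) h4
      calc K * (|C| + p * (K * Real.exp (B / x)) + Real.exp (B / x)) ≤
          K * (|C| * Real.exp (B / x) + p * (K * Real.exp (B / x)) + Real.exp (B / x)) := by gcongr
        _ = _ := by ring
    exact le_of_mul_le_mul_right (hx1.trans h6) (Real.exp_pos _)
  have h4 : Tendsto (fun x : ℝ => Real.exp ((B' - B) / x)) (𝓝[>] 0) atTop := by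
    apply Real.tendsto_exp_atTop.comp
    have h5 : Tendsto (fun x : ℝ => (B' - B) * x⁻¹) (𝓝[>] 0) atTop :=
      tendsto_inv_nhdsGT_zero.const_mul_atTop (by linarith)
    refine h5.congr fun x => ?_
    rw [div_eq_mul_inv]
  have h5 := h4.eventually_gt_atTop (K * (|C| + p * K + 1))
  obtain ⟨x, hx1, hx2⟩ := (h3.and h5).exists
  linarith

end Pool.Agent.X20.Osc
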