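import Mathlib
import Pool.Agent.X20.OscBase
import Pool.Agent.X20.OscLog
import Pool.Agent.X20.OscSign
import Pool.Agent.X20.OscNum

/-! Common part of the two applications. -/

namespace Pool.Agent.X20.Osc

open Finset Filter Topology

theorem radial (a b : ℕ) (hb : 1 ≤ b) (ha : 1 ≤ a) (w ρ : ℂ) (hw : ‖w‖ ≤ 1) (hρ : ‖ρ‖ = 1)
    (B : ℝ) (h : (Lam a b w ρ).re < B) : ∀ᶠ x : ℝ in 𝓝[>] 0,
      ‖Complex.exp (Lq a b w (ρ * (Real.exp (-x) : ℂ)))‖ ≤ Real.exp (B / x) := by
  have h1 := ev_upper a b hb ha w ρ hw hρ 0 B (by simpa using h)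
  refine h1.congr (Eventually.of_forall fun x => ?_)
  have e : Complex.exp (-((x : ℂ) * (1 + ((0 : ℝ) : ℂ) * Complex.I))) = (Real.exp (-x) : ℂ) := by
    push_cast
    congr 1
    ring
  rw [e]

/-- the primitive sixth root of unity `exp (-π i / 3)` -/
noncomputable def u6 : ℂ := ⟨1 / 2, -(Real.sqrt 3 / 2)⟩

theorem u6_root : u6 ^ 2 = u6 - 1 := by
  have h3 : Real.sqrt 3 ^ 2 = 3 := Real.sq_sqrt (by norm_num)
  apply Complex.ext
  · rw [sq, Complex.mul_re, Complex.sub_re, Complex.one_re]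
    simp only [u6]
    nlinarith
  · rw [sq, Complex.mul_im, Complex.sub_im, Complex.one_im]
    simp only [u6]
    ring

theorem u6_im : u6.im < 0 := by
  have : 0 < Real.sqrt 3 := Real.sqrt_pos.mpr (by norm_num)
  simp only [u6]
  linarith

theorem u6_cube : u6 ^ 3 = -1 := by
  have : u6 ^ 3 = u6 * u6 ^ 2 := by ring
  rw [this, u6_root, mul_sub, ← sq, u6_root]
  ring

/-- real part of `z / (c (1 - i))` -/
theorem re_div (z : ℂ) (c : ℝ) (hc : c ≠ 0) :
    (z / (c : ℂ) / (1 + ((-1 : ℝ) : ℂ) * Complex.I)).re = (z.re - z.im) / (2 * c) := by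
  have h1 : (1 + ((-1 : ℝ) : ℂ) * Complex.I) ≠ 0 := s_ne (-1)
  have e : z / (c : ℂ) / (1 + ((-1 : ℝ) : ℂ) * Complex.I) =
      ((1 / (2 * c) : ℝ) : ℂ) * (z * (1 + Complex.I)) := by
    have hcC : (c : ℂ) ≠ 0 := by exact_mod_cast hc
    rw [div_div, div_eq_iff (mul_ne_zero hcC h1)]
    push_cast
    have h2 : (1 + Complex.I) * (1 + -1 * Complex.I) = 2 := by
      have : Complex.I * Complex.I = -1 := Complex.I_mul_I
      linear_combination -this
    field_simp
    linear_combination (-z) * h2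
  rw [e, Complex.re_ofReal_mul, Complex.mul_re, Complex.add_re, Complex.add_im]
  simp
  field_simp

end Pool.Agent.X20.Osc
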