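import Mathlib

/-! Coefficients of `∏ i, (1 - X^(m^i))^(-k)` over `ℚ`. -/

namespace Pool.Agent.X20.ColoredPary

open PowerSeries

/-- the series of `(1 - X^d)^{-k}` -/
noncomputable def S (d k : ℕ) : ℚ⟦X⟧ :=
  PowerSeries.mk fun n => if d ∣ n then ((n / d + (k - 1)).choose (k - 1) : ℚ) else 0

theorem S_one_mul (d : ℕ) (hd : 0 < d) : S d 1 * (1 - X ^ d) = 1 := by
  ext n
  rw [mul_sub, mul_one, map_sub, PowerSeries.coeff_mul_X_pow', PowerSeries.coeff_one]
  simp only [S, coeff_mk, Nat.sub_self, Nat.choose_zero_right, Nat.cast_one]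
  rcases Nat.eq_zero_or_pos n with rfl | hn
  · simp [Nat.not_le.mpr hd]
  · by_cases h : d ∣ n
    · have hle := Nat.le_of_dvd hn h
      have h2 : d ∣ n - d := Nat.dvd_sub h dvd_rfl
      simp [h, hle, h2, hn.ne']
    · by_cases hle : d ≤ n
      · have h2 : ¬ d ∣ n - d := fun h2 => h (by
          have := Nat.dvd_add h2 (dvd_refl d)
          rwa [Nat.sub_add_cancel hle] at this)
        simp [h, h2, hn.ne']
      · simp [h, hle, hn.ne']

theorem S_succ_mul (d k : ℕ) (hd : 0 < d) (hk : 1 ≤ k) :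
    S d (k + 1) * (1 - X ^ d) = S d k := by
  ext n
  rw [mul_sub, mul_one, map_sub, PowerSeries.coeff_mul_X_pow']
  simp only [S, coeff_mk, Nat.add_sub_cancel]
  by_cases h : d ∣ n
  · obtain ⟨q, rfl⟩ := h
    rcases Nat.eq_zero_or_pos q with rfl | hq
    · simp [Nat.not_le.mpr hd]
    · have hle : d ≤ d * q := Nat.le_mul_of_pos_right d hq
      have e : d * q - d = d * (q - 1) := by rw [Nat.mul_sub, mul_one]
      have h2 : d ∣ d * q - d := by rw [e]; exact dvd_mul_right _ _
      rw [if_pos hle, if_pos (dvd_mul_right _ _), if_pos h2, if_pos (dvd_mul_right _ _), e,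
        Nat.mul_div_cancel_left _ hd, Nat.mul_div_cancel_left _ hd]
      obtain ⟨r, rfl⟩ : ∃ r, q = r + 1 := ⟨q - 1, (Nat.sub_add_cancel hq).symm⟩
      obtain ⟨l, rfl⟩ : ∃ l, k = l + 1 := ⟨k - 1, (Nat.sub_add_cancel hk).symm⟩
      have := Nat.choose_succ_succ (r + (l + 1)) l
      have e2 : r + 1 + (l + 1) = r + (l + 1) + 1 := by ring
      rw [e2]
      simp only [Nat.add_sub_cancel]
      have e3 : r + 1 + l = r + (l + 1) := by ring
      rw [e3, this]
      push_cast
      ring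
  · by_cases hle : d ≤ n
    · have h2 : ¬ d ∣ n - d := fun h2 => h (by
        have := Nat.dvd_add h2 (dvd_refl d)
        rwa [Nat.sub_add_cancel hle] at this)
      simp [h, h2]
    · simp [h, hle]

theorem S_mul (d k : ℕ) (hd : 0 < d) (hk : 1 ≤ k) : S d k * (1 - X ^ d) ^ k = 1 := by
  induction k, hk using Nat.le_induction with
  | base => rw [pow_one]; exact S_one_mul d hd
  | succ k hk ih =>
    rw [pow_succ', ← mul_assoc, S_succ_mul d k hd hk, ih]

theorem inv_eq_S (d k : ℕ) (hd : 0 < d) (hk : 1 ≤ k) :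
    ((1 - X ^ d : ℚ⟦X⟧) ^ k)⁻¹ = S d k := by
  have h1 : PowerSeries.constantCoeff ((1 - X ^ d : ℚ⟦X⟧) ^ k) ≠ 0 := by
    simp [hd.ne']
  rw [PowerSeries.inv_eq_iff_mul_eq_one h1]
  exact S_mul d k hd hk

/-- truncation: a series `f ≡ 1 mod X^N` does not change coefficients below `N`. -/
theorem coeff_mul_of_one (N : ℕ) (f g : ℚ⟦X⟧) (hf : X ^ N ∣ f - 1) (n : ℕ) (hn : n < N) :
    coeff n (f * g) = coeff n g := by
  obtain ⟨h, hh⟩ := hf
  have : f * g = g + X ^ N * (h * g) := by
    have : f = 1 + X ^ N * h := by rw [← hh]; ring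
    rw [this]; ring
  rw [this, map_add, PowerSeries.coeff_X_pow_mul', if_neg (by omega), add_zero]

theorem S_sub_one (d k : ℕ) (_ : 0 < d) : X ^ d ∣ S d k - 1 := by
  rw [PowerSeries.X_pow_dvd_iff]
  intro m hm
  rw [map_sub, PowerSeries.coeff_one]
  simp only [S, coeff_mk]
  rcases Nat.eq_zero_or_pos m with rfl | hpos
  · simp
  · have : ¬ d ∣ m := Nat.not_dvd_of_pos_of_lt hpos hm
    simp [this, hpos.ne']

theorem coeff_mul_S (f : ℚ⟦X⟧) (d k : ℕ) (hd : 0 < d) (n : ℕ) :
    coeff n (f * S d k) =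
      ∑ q ∈ Finset.range (n / d + 1),
        coeff (n - d * q) f * ((q + (k - 1)).choose (k - 1) : ℚ) := by
  rw [mul_comm, PowerSeries.coeff_mul,
    Finset.Nat.sum_antidiagonal_eq_sum_range_succ (fun i j => coeff i (S d k) * coeff j f) n]
  have hsub : (Finset.range (n / d + 1)).image (fun q => d * q) ⊆ Finset.range n.succ := by
    intro x hx
    rw [Finset.mem_image] at hx
    obtain ⟨q, hq, rfl⟩ := hx
    rw [Finset.mem_range] at hq ⊢
    have : d * q ≤ n := by
      rw [mul_comm]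
      exact (Nat.le_div_iff_mul_le hd).mp (Nat.lt_succ_iff.mp hq)
    omega
  rw [← Finset.sum_subset hsub]
  · rw [Finset.sum_image]
    · apply Finset.sum_congr rfl
      intro q _
      simp only [S, coeff_mk, dvd_mul_right, if_true, Nat.mul_div_cancel_left _ hd]
      ring
    · intro a _ b _ h
      exact Nat.eq_of_mul_eq_mul_left hd h
  · intro x hx hx2
    have : ¬ d ∣ x := by
      rintro ⟨q, rfl⟩
      apply hx2
      rw [Finset.mem_image]
      refine ⟨q, ?_, rfl⟩
      rw [Finset.mem_range] at hx ⊢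
      have h1 : d * q ≤ n := Nat.lt_succ_iff.mp hx
      have : q ≤ n / d := (Nat.le_div_iff_mul_le hd).mpr (by rw [mul_comm]; exact h1)
      omega
    simp [S, this]

end Pool.Agent.X20.ColoredPary
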