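import Mathlib

/-! The `2`-adic valuation of `S_{4,t}(n)` for `4 ∣ t`. -/

namespace Pool.Agent.X20.FourAry

open PowerSeries

/-- The geometric series `1 + X^d + X^{2d} + ... = 1 / (1 - X^d)`. -/
noncomputable def geom (d : ℕ) : ℤ⟦X⟧ := PowerSeries.mk fun n => if d ∣ n then 1 else 0

/-- `S t n` is the coefficient of `x^n` in `(1-x)^{-t} ∏_{i ≥ 0} (1 - x^{4^i})^{-3t}`
(only the factors with `i ≤ n` matter, because `4^i > n` for `i > n`). -/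
noncomputable def S (t n : ℕ) : ℤ :=
  coeff n (geom 1 ^ t * ∏ i ∈ Finset.range (n + 1), geom (4 ^ i) ^ (3 * t))

theorem geom_mul (d : ℕ) (hd : 0 < d) : geom d * (1 - X ^ d) = 1 := by
  ext n
  rw [mul_sub, mul_one, map_sub, PowerSeries.coeff_mul_X_pow', PowerSeries.coeff_one]
  simp only [geom, coeff_mk]
  rcases Nat.eq_zero_or_pos n with rfl | hn
  · simp [Nat.not_le.mpr hd]
  · by_cases h : d ∣ n
    · have hle := Nat.le_of_dvd hn h
      have h2 : d ∣ n - d := Nat.dvd_sub h dvd_rfl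
      simp [h, hle, h2, hn.ne']
    · by_cases hle : d ≤ n
      · have h2 : ¬ d ∣ n - d := fun h2 => h (by
          have := Nat.dvd_add h2 (dvd_refl d)
          rwa [Nat.sub_add_cancel hle] at this)
        simp [h, h2, hn.ne']
      · simp [h, hle, hn.ne']

/-- the basic factor `(1 - X^{4d}) / (1 - X^d)^4` -/
noncomputable def R (d : ℕ) : ℤ⟦X⟧ := (1 - X ^ (4 * d)) * geom d ^ 4

/-- the first order term -/
noncomputable def W (d : ℕ) : ℤ⟦X⟧ :=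
  2 * X ^ d * (1 + X ^ (2 * d)) * geom (4 * d) + X ^ (2 * d) * (1 - X ^ (4 * d)) * geom (8 * d)

theorem R_pow (d : ℕ) (hd : 0 < d) : ∃ Q : ℤ⟦X⟧, R d ^ 4 = 1 + 8 * W d + 32 * Q := by
  set Y : ℤ⟦X⟧ := X ^ d with hY
  have e2 : (X : ℤ⟦X⟧) ^ (2 * d) = Y ^ 2 := by rw [hY, ← pow_mul, mul_comm]
  have e4 : (X : ℤ⟦X⟧) ^ (4 * d) = Y ^ 4 := by rw [hY, ← pow_mul, mul_comm]
  have e8 : (X : ℤ⟦X⟧) ^ (8 * d) = Y ^ 8 := by rw [hY, ← pow_mul, mul_comm]
  have h1 : geom d * (1 - Y) = 1 := geom_mul d hd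
  have h8 : geom (8 * d) * (1 - Y ^ 8) = 1 := by
    have := geom_mul (8 * d) (by omega)
    rwa [e8] at this
  have h4 : geom (4 * d) = (1 + Y ^ 4) * geom (8 * d) := by
    have h4' := geom_mul (4 * d) (by omega)
    rw [e4] at h4'
    calc geom (4 * d) = geom (4 * d) * (geom (8 * d) * (1 - Y ^ 8)) := by rw [h8, mul_one]
      _ = (geom (4 * d) * (1 - Y ^ 4)) * ((1 + Y ^ 4) * geom (8 * d)) := by ring
      _ = (1 + Y ^ 4) * geom (8 * d) := by rw [h4', one_mul]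
  set g := geom d with hg
  set h := geom (8 * d) with hh
  refine ⟨g ^ 16 * h * (4 * Y ^ 2 - 39 * Y ^ 3 + 201 * Y ^ 4 - 694 * Y ^ 5 + 1767 * Y ^ 6
    - 3529 * Y ^ 7 + 5818 * Y ^ 8 - 8332 * Y ^ 9 + 10895 * Y ^ 10 - 13466 * Y ^ 11
    + 15808 * Y ^ 12 - 17240 * Y ^ 13 + 16913 * Y ^ 14 - 14486 * Y ^ 15 + 10566 * Y ^ 16
    - 6420 * Y ^ 17 + 3177 * Y ^ 18 - 1247 * Y ^ 19 + 375 * Y ^ 20 - 82 * Y ^ 21
    + 12 * Y ^ 22 - Y ^ 23), ?_⟩
  unfold R W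
  rw [e2, e4, h4]
  have hone : g ^ 16 * (1 - Y) ^ 16 = 1 := by rw [← mul_pow, h1, one_pow]
  have key : (1 - Y ^ 4) ^ 4 * (1 - Y ^ 8) - (1 - Y) ^ 16 * (1 - Y ^ 8)
      - 8 * ((1 - Y) ^ 16 * (2 * Y * (1 + Y ^ 2) * (1 + Y ^ 4) + Y ^ 2 * (1 - Y ^ 4))) =
      32 * (4 * Y ^ 2 - 39 * Y ^ 3 + 201 * Y ^ 4 - 694 * Y ^ 5 + 1767 * Y ^ 6
    - 3529 * Y ^ 7 + 5818 * Y ^ 8 - 8332 * Y ^ 9 + 10895 * Y ^ 10 - 13466 * Y ^ 11
    + 15808 * Y ^ 12 - 17240 * Y ^ 13 + 16913 * Y ^ 14 - 14486 * Y ^ 15 + 10566 * Y ^ 16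
    - 6420 * Y ^ 17 + 3177 * Y ^ 18 - 1247 * Y ^ 19 + 375 * Y ^ 20 - 82 * Y ^ 21
    + 12 * Y ^ 22 - Y ^ 23) := by ring
  have e : g ^ 16 * h * (32 * (4 * Y ^ 2 - 39 * Y ^ 3 + 201 * Y ^ 4 - 694 * Y ^ 5 + 1767 * Y ^ 6
    - 3529 * Y ^ 7 + 5818 * Y ^ 8 - 8332 * Y ^ 9 + 10895 * Y ^ 10 - 13466 * Y ^ 11
    + 15808 * Y ^ 12 - 17240 * Y ^ 13 + 16913 * Y ^ 14 - 14486 * Y ^ 15 + 10566 * Y ^ 16
    - 6420 * Y ^ 17 + 3177 * Y ^ 18 - 1247 * Y ^ 19 + 375 * Y ^ 20 - 82 * Y ^ 21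
    + 12 * Y ^ 22 - Y ^ 23)) =
      ((1 - Y ^ 4) * g ^ 4) ^ 4 - 1 - 8 * (2 * Y * (1 + Y ^ 2) * ((1 + Y ^ 4) * h)
        + Y ^ 2 * (1 - Y ^ 4) * h) := by
    rw [← key]
    calc g ^ 16 * h * ((1 - Y ^ 4) ^ 4 * (1 - Y ^ 8) - (1 - Y) ^ 16 * (1 - Y ^ 8)
      - 8 * ((1 - Y) ^ 16 * (2 * Y * (1 + Y ^ 2) * (1 + Y ^ 4) + Y ^ 2 * (1 - Y ^ 4))))
        = g ^ 16 * (1 - Y ^ 4) ^ 4 * (h * (1 - Y ^ 8))
          - (g ^ 16 * (1 - Y) ^ 16) * (h * (1 - Y ^ 8))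
          - 8 * ((g ^ 16 * (1 - Y) ^ 16) *
            (h * (2 * Y * (1 + Y ^ 2) * (1 + Y ^ 4) + Y ^ 2 * (1 - Y ^ 4)))) := by ring
      _ = _ := by rw [hone, h8]; ring
  linear_combination -e

/-- coefficient of `W` -/
theorem coeff_W (d n : ℕ) (hd : 0 < d) :
    coeff n (W d) =
      (if d ∣ n ∧ n / d % 2 = 1 then 2 else 0) +
      ((if d ∣ n ∧ n / d % 8 = 2 then 1 else 0) - if d ∣ n ∧ n / d % 8 = 6 then 1 else 0) := by
  have hx : ∀ (a b : ℕ) (m : ℕ), coeff m ((X : ℤ⟦X⟧) ^ a * geom b) =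
      if a ≤ m ∧ b ∣ m - a then 1 else 0 := by
    intro a b m
    rw [PowerSeries.coeff_X_pow_mul']
    simp only [geom, coeff_mk]
    by_cases h1 : a ≤ m <;> by_cases h2 : b ∣ m - a <;> simp [h1, h2]
  have e : W d = (X ^ d * geom (4 * d) + X ^ d * geom (4 * d)) +
      (X ^ (3 * d) * geom (4 * d) + X ^ (3 * d) * geom (4 * d)) +
      (X ^ (2 * d) * geom (8 * d) - X ^ (6 * d) * geom (8 * d)) := by
    unfold W
    ring
  rw [e]
  simp only [map_add, map_sub, hx]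
  by_cases hdn : d ∣ n
  · obtain ⟨q, rfl⟩ := hdn
    have hdiv : d * q / d = q := Nat.mul_div_cancel_left q hd
    rw [hdiv]
    have hgen : ∀ a b : ℕ, (a * d ≤ d * q ∧ b * d ∣ d * q - a * d) ↔ (a ≤ q ∧ b ∣ q - a) := by
      intro a b
      have h1 : a * d ≤ d * q ↔ a ≤ q := by
        rw [mul_comm a d]; exact Nat.mul_le_mul_left_iff hd
      have h2 : d * q - a * d = (q - a) * d := by
        rw [Nat.sub_mul, mul_comm d q]
      rw [h1, h2, Nat.mul_dvd_mul_iff_right hd]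
    have g1 := hgen 1 4
    rw [one_mul] at g1
    simp only [g1, hgen 3 4, hgen 2 8, hgen 6 8, dvd_mul_right, true_and]
    have c1 : (1 ≤ q ∧ 4 ∣ q - 1) ↔ q % 4 = 1 := by omega
    have c3 : (3 ≤ q ∧ 4 ∣ q - 3) ↔ q % 4 = 3 := by omega
    have c2 : (2 ≤ q ∧ 8 ∣ q - 2) ↔ q % 8 = 2 := by omega
    have c6 : (6 ≤ q ∧ 8 ∣ q - 6) ↔ q % 8 = 6 := by omega
    simp only [c1, c2, c3, c6]
    by_cases hq : q % 2 = 1
    · rcases (show q % 4 = 1 ∨ q % 4 = 3 by omega) with h | h <;> simp [hq, h]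
    · have h1 : ¬ q % 4 = 1 := by omega
      have h3 : ¬ q % 4 = 3 := by omega
      simp [hq, h1, h3]
  · have hno : ∀ a b : ℕ, d ∣ a → d ∣ b → ¬ (a ≤ n ∧ b ∣ n - a) := by
      rintro a b ha hb ⟨h1, h2⟩
      apply hdn
      have := Nat.dvd_add (dvd_trans hb h2) ha
      rwa [Nat.sub_add_cancel h1] at this
    rw [if_neg (hno d (4 * d) dvd_rfl (dvd_mul_left _ _)),
      if_neg (hno (3 * d) (4 * d) (dvd_mul_left _ _) (dvd_mul_left _ _)),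
      if_neg (hno (2 * d) (8 * d) (dvd_mul_left _ _) (dvd_mul_left _ _)),
      if_neg (hno (6 * d) (8 * d) (dvd_mul_left _ _) (dvd_mul_left _ _))]
    simp [hdn]

theorem prod_R (N : ℕ) : ∃ Q : ℤ⟦X⟧, ∏ i ∈ Finset.range N, R (4 ^ i) ^ 4 =
    1 + 8 * ∑ i ∈ Finset.range N, W (4 ^ i) + 32 * Q := by
  induction N with
  | zero => exact ⟨0, by simp⟩
  | succ N ih =>
    obtain ⟨Q, hQ⟩ := ih
    obtain ⟨Q', hQ'⟩ := R_pow (4 ^ N) (by positivity)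
    rw [Finset.prod_range_succ, Finset.sum_range_succ, hQ, hQ']
    set V := ∑ i ∈ Finset.range N, W (4 ^ i)
    refine ⟨Q' + 2 * V * W (4 ^ N) + 8 * V * Q' + Q * (1 + 8 * W (4 ^ N) + 32 * Q'), ?_⟩
    ring

/-- squaring -/
theorem pow_two_pow (V : ℤ⟦X⟧) (r : ℕ) : ∃ Q : ℤ⟦X⟧,
    (1 + 8 * V) ^ (2 ^ r) = 1 + 8 * 2 ^ r * (V + 4 * Q) := by
  induction r with
  | zero => exact ⟨0, by simp⟩
  | succ r ih =>
    obtain ⟨Q, hQ⟩ := ih
    refine ⟨Q + 2 ^ r * (V + 4 * Q) ^ 2, ?_⟩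
    rw [pow_succ, pow_mul, hQ]
    ring

/-- powers -/
theorem pow_gen (y : ℤ⟦X⟧) (w : ℕ) : ∃ Q : ℤ⟦X⟧, (1 + y) ^ w = 1 + w * y + y ^ 2 * Q := by
  induction w with
  | zero => exact ⟨0, by simp⟩
  | succ w ih =>
    obtain ⟨Q, hQ⟩ := ih
    refine ⟨w + Q * (1 + y), ?_⟩
    rw [pow_succ, hQ]
    push_cast
    ring

theorem pow_all (V : ℤ⟦X⟧) (r w : ℕ) : ∃ Q : ℤ⟦X⟧,
    (1 + 8 * V) ^ (2 ^ r * w) = 1 + 8 * 2 ^ r * (w * V + 4 * Q) := by
  obtain ⟨Q, hQ⟩ := pow_two_pow V r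
  rw [pow_mul, hQ]
  obtain ⟨Q', hQ'⟩ := pow_gen (8 * 2 ^ r * (V + 4 * Q)) w
  rw [hQ']
  exact ⟨w * Q + 2 * 2 ^ r * (V + 4 * Q) ^ 2 * Q', by ring⟩

/-- telescoping product -/
theorem prod_geom (t N : ℕ) :
    (1 - X ^ (4 ^ N)) ^ t * (geom 1 ^ t * ∏ i ∈ Finset.range N, geom (4 ^ i) ^ (3 * t)) =
      ∏ i ∈ Finset.range N, R (4 ^ i) ^ t := by
  induction N with
  | zero =>
    simp only [pow_zero, pow_one, Finset.range_zero, Finset.prod_empty, mul_one]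
    rw [← mul_pow, mul_comm]
    have := geom_mul 1 one_pos
    rw [pow_one] at this
    rw [this, one_pow]
  | succ N ih =>
    rw [Finset.prod_range_succ, Finset.prod_range_succ, ← ih]
    have h := geom_mul (4 ^ N) (by positivity)
    unfold R
    have e : 4 ^ (N + 1) = 4 * 4 ^ N := by ring
    rw [e]
    have h2 : geom (4 ^ N) ^ t * (1 - X ^ (4 ^ N)) ^ t = 1 := by
      rw [← mul_pow, h, one_pow]
    calc (1 - X ^ (4 * 4 ^ N)) ^ t *
        (geom 1 ^ t * ((∏ i ∈ Finset.range N, geom (4 ^ i) ^ (3 * t)) *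
          geom (4 ^ N) ^ (3 * t)))
        = (1 - X ^ (4 * 4 ^ N)) ^ t * (geom 1 ^ t *
          ((∏ i ∈ Finset.range N, geom (4 ^ i) ^ (3 * t)) * geom (4 ^ N) ^ (3 * t))) *
            (geom (4 ^ N) ^ t * (1 - X ^ (4 ^ N)) ^ t) := by rw [h2, mul_one]
      _ = _ := by
        rw [mul_pow, ← pow_mul, show 4 * t = 3 * t + t by ring, pow_add]
        ring

theorem S_eq (t n : ℕ) (hn : n < 4 ^ (n + 1)) :
    S t n = coeff n (∏ i ∈ Finset.range (n + 1), R (4 ^ i) ^ t) := by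
  rw [← prod_geom]
  unfold S
  set f := geom 1 ^ t * ∏ i ∈ Finset.range (n + 1), geom (4 ^ i) ^ (3 * t)
  obtain ⟨Q, hQ⟩ := pow_gen (-(X : ℤ⟦X⟧) ^ (4 ^ (n + 1))) t
  have e : (1 - (X : ℤ⟦X⟧) ^ (4 ^ (n + 1))) ^ t * f =
      f + X ^ (4 ^ (n + 1)) * ((-(t : ℤ⟦X⟧) + X ^ (4 ^ (n + 1)) * Q) * f) := by
    rw [sub_eq_add_neg, hQ]; ring
  rw [e, map_add, PowerSeries.coeff_X_pow_mul', if_neg (by omega), add_zero]

/-- value of `∑_i W(4^i)` at `n` -/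
theorem sum_W (a q N : ℕ) (hq : q % 4 ≠ 0) (ha : a < N) :
    coeff (4 ^ a * q) (∑ i ∈ Finset.range N, W (4 ^ i)) =
      (if q % 2 = 1 then 2 else 0) +
      ((if q % 8 = 2 then 1 else 0) - if q % 8 = 6 then 1 else 0) := by
  rw [map_sum, Finset.sum_eq_single a]
  · rw [coeff_W _ _ (by positivity)]
    have : 4 ^ a * q / 4 ^ a = q := Nat.mul_div_cancel_left q (by positivity)
    simp [this]
  · intro i _ hia
    rw [coeff_W _ _ (by positivity)]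
    rcases lt_or_gt_of_ne hia with h | h
    · -- i < a
      obtain ⟨c, rfl⟩ : ∃ c, a = i + (c + 1) := ⟨a - i - 1, by omega⟩
      have e : 4 ^ (i + (c + 1)) * q = 4 ^ i * (4 * (4 ^ c * q)) := by
        rw [pow_add, pow_succ]; ring
      rw [e, Nat.mul_div_cancel_left _ (by positivity)]
      have h1 : ¬ (4 * (4 ^ c * q)) % 2 = 1 := by omega
      have h2 : ¬ (4 * (4 ^ c * q)) % 8 = 2 := by omega
      have h3 : ¬ (4 * (4 ^ c * q)) % 8 = 6 := by omega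
      simp [h1, h2, h3]
    · -- a < i
      obtain ⟨c, rfl⟩ : ∃ c, i = a + (c + 1) := ⟨i - a - 1, by omega⟩
      have hnd : ¬ 4 ^ (a + (c + 1)) ∣ 4 ^ a * q := by
        intro hd
        rw [pow_add, pow_succ'] at hd
        have := Nat.dvd_of_mul_dvd_mul_left (by positivity) hd
        have h4 : 4 ∣ q := dvd_trans (dvd_mul_right 4 _) this
        omega
      simp [hnd]
  · intro h
    exact absurd (Finset.mem_range.mpr ha) h

/-- Main formula: for `t = 4 · 2^r · w` with `w` odd and `n = 4^a q`, `4 ∤ q`, the number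
`S t n` is `2^{r+3}` times an integer that is odd if `q` is even and `≡ 2 mod 4` if `q` is odd. -/
theorem S_form (r w a q : ℕ) (hw : w % 2 = 1) (hq : q % 4 ≠ 0) :
    ∃ U : ℤ, S (4 * (2 ^ r * w)) (4 ^ a * q) = 2 ^ (r + 3) * U ∧
      (if q % 2 = 1 then U % 4 = 2 else U % 2 = 1) := by
  set n := 4 ^ a * q with hn
  have hq0 : 0 < q := Nat.pos_of_ne_zero (by rintro rfl; simp at hq)
  have hnlt : n < 4 ^ (n + 1) := lt_trans (Nat.lt_pow_self (by norm_num))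
    (Nat.pow_lt_pow_right (by norm_num) (Nat.lt_succ_self n))
  have han : a < n + 1 := by
    have h1 : a < 4 ^ a := Nat.lt_pow_self (by norm_num)
    have h2 : 4 ^ a ≤ n := Nat.le_mul_of_pos_right _ hq0
    omega
  have hnpos : 0 < n := Nat.mul_pos (by positivity) hq0
  rw [S_eq _ _ hnlt]
  obtain ⟨Q, hQ⟩ := prod_R (n + 1)
  set V := ∑ i ∈ Finset.range (n + 1), W (4 ^ i) with hV
  have e1 : ∏ i ∈ Finset.range (n + 1), R (4 ^ i) ^ (4 * (2 ^ r * w)) =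
      (1 + 8 * (V + 4 * Q)) ^ (2 ^ r * w) := by
    have : (1 + 8 * (V + 4 * Q)) = ∏ i ∈ Finset.range (n + 1), R (4 ^ i) ^ 4 := by
      rw [hQ]; ring
    rw [this, ← Finset.prod_pow]
    apply Finset.prod_congr rfl
    intro i _
    rw [pow_mul]
  rw [e1]
  obtain ⟨Q', hQ'⟩ := pow_all (V + 4 * Q) r w
  rw [hQ']
  have e2 : (1 + 8 * 2 ^ r * ((w : ℤ⟦X⟧) * (V + 4 * Q) + 4 * Q')) =
      1 + C (2 ^ (r + 3) : ℤ) * (C (w : ℤ) * V + C (4 : ℤ) * (C (w : ℤ) * Q + Q')) := by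
    simp only [map_pow, map_natCast, map_ofNat]
    ring
  rw [e2, map_add, coeff_one, if_neg hnpos.ne', zero_add, coeff_C_mul, map_add, coeff_C_mul,
    coeff_C_mul]
  refine ⟨_, rfl, ?_⟩
  rw [sum_W a q (n + 1) hq han]
  obtain ⟨w', hw'⟩ : ∃ w', w = 2 * w' + 1 := ⟨w / 2, by omega⟩
  have hwZ : (w : ℤ) = 2 * w' + 1 := by exact_mod_cast hw'
  rw [hwZ]
  generalize coeff n (C (2 * (w' : ℤ) + 1) * Q + Q') = z
  split_ifs <;> omega

/-- the same, as a power of `2` times an odd number -/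
theorem S_form' (r w a q : ℕ) (hw : w % 2 = 1) (hq : q % 4 ≠ 0) :
    ∃ U : ℤ, U % 2 = 1 ∧
      S (4 * (2 ^ r * w)) (4 ^ a * q) = 2 ^ (r + 3 + (if q % 2 = 1 then 1 else 0)) * U := by
  obtain ⟨U, hU, h⟩ := S_form r w a q hw hq
  by_cases hq2 : q % 2 = 1
  · rw [if_pos hq2] at h
    obtain ⟨U', hU'⟩ : ∃ U', U = 2 * U' := ⟨U / 2, by omega⟩
    refine ⟨U', by omega, ?_⟩
    rw [hU, if_pos hq2, hU', pow_succ 2 (r + 3)]
    ring
  · rw [if_neg hq2] at h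
    refine ⟨U, h, ?_⟩
    rw [hU, if_neg hq2, add_zero]

theorem S_zero_right (t : ℕ) : S t 0 = 1 := by
  unfold S
  simp only [zero_add, Finset.range_one, Finset.prod_singleton, pow_zero]
  rw [coeff_zero_eq_constantCoeff_apply, map_mul, map_pow, map_pow]
  have : constantCoeff (geom 1) = 1 := by
    rw [← coeff_zero_eq_constantCoeff_apply]
    simp [geom]
  rw [this]
  simp

theorem padicValInt_form (k : ℕ) (U : ℤ) (hU : U % 2 = 1) : padicValInt 2 (2 ^ k * U) = k := by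
  have h2 : Fact (Nat.Prime 2) := ⟨Nat.prime_two⟩
  have hU0 : U ≠ 0 := by rintro rfl; simp at hU
  rw [padicValInt.mul (by positivity) hU0]
  have h1 : padicValInt 2 (2 ^ k : ℤ) = k := by
    have : ((2 : ℤ) ^ k) = ((2 ^ k : ℕ) : ℤ) := by push_cast; rfl
    rw [this, padicValInt.of_nat, padicValNat.prime_pow]
  rw [h1, padicValInt.eq_zero_of_not_dvd, add_zero]
  intro h
  omega

/-- **Main theorem.** For every positive multiple `t` of `4` and every `n ≥ 1`,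
`ν_2(S_{4,t}(n)) = ν_2(t) + 1 + (ν_2(2n) mod 2)`. -/
theorem val_S (t n : ℕ) (ht : 4 ∣ t) (ht0 : t ≠ 0) (hn : n ≠ 0) :
    padicValInt 2 (S t n) = padicValNat 2 t + 1 + padicValNat 2 (2 * n) % 2 := by
  have h2 : Fact (Nat.Prime 2) := ⟨Nat.prime_two⟩
  obtain ⟨u, rfl⟩ := ht
  have hu : u ≠ 0 := by rintro rfl; exact ht0 rfl
  obtain ⟨r, w, hw, rfl⟩ := Nat.exists_eq_pow_mul_and_not_dvd hu 2 (by norm_num)
  obtain ⟨a, q, hq, rfl⟩ := Nat.exists_eq_pow_mul_and_not_dvd hn 4 (by norm_num)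
  have hw2 : w % 2 = 1 := by omega
  have hq4 : q % 4 ≠ 0 := by omega
  have hw0 : w ≠ 0 := by rintro rfl; simp at hw2
  have hq0 : q ≠ 0 := by rintro rfl; simp at hq4
  obtain ⟨U, hU, hS⟩ := S_form' r w a q hw2 hq4
  rw [hS, padicValInt_form _ _ hU]
  have hwv : padicValNat 2 w = 0 := padicValNat.eq_zero_of_not_dvd (by omega)
  have h4 : padicValNat 2 4 = 2 := by
    have : (4 : ℕ) = 2 ^ 2 := by norm_num
    rw [this, padicValNat.prime_pow]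
  have ht : padicValNat 2 (4 * (2 ^ r * w)) = r + 2 := by
    rw [padicValNat.mul (by norm_num) (by positivity), padicValNat.mul (by positivity) hw0,
      padicValNat.prime_pow, hwv, h4]
    ring
  have h4a : padicValNat 2 (4 ^ a) = 2 * a := by
    have : (4 : ℕ) ^ a = 2 ^ (2 * a) := by rw [pow_mul]; norm_num
    rw [this, padicValNat.prime_pow]
  have hn' : padicValNat 2 (2 * (4 ^ a * q)) = 1 + (2 * a + padicValNat 2 q) := by
    rw [padicValNat.mul (by norm_num) (by positivity), padicValNat.mul (by positivity) hq0, h4a]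
    have : padicValNat 2 2 = 1 := by
      have := padicValNat.prime_pow (p := 2) 1
      simpa using this
    rw [this]
  rw [ht, hn']
  split_ifs with h
  · have : padicValNat 2 q = 0 := padicValNat.eq_zero_of_not_dvd (by omega)
    rw [this]
    omega
  · obtain ⟨q', rfl⟩ : ∃ q', q = 2 * q' := ⟨q / 2, by omega⟩
    have h1 : padicValNat 2 (2 * q') = 1 := by
      rw [padicValNat.mul (by norm_num) (by omega)]
      have e1 : padicValNat 2 2 = 1 := by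
        have := padicValNat.prime_pow (p := 2) 1
        simpa using this
      rw [e1, padicValNat.eq_zero_of_not_dvd (by omega)]
    rw [h1]
    omega

theorem S_ne_zero (t n : ℕ) (ht : 4 ∣ t) (ht0 : t ≠ 0) (hn : n ≠ 0) : S t n ≠ 0 := by
  obtain ⟨u, rfl⟩ := ht
  have hu : u ≠ 0 := by rintro rfl; exact ht0 rfl
  obtain ⟨r, w, hw, rfl⟩ := Nat.exists_eq_pow_mul_and_not_dvd hu 2 (by norm_num)
  obtain ⟨a, q, hq, rfl⟩ := Nat.exists_eq_pow_mul_and_not_dvd hn 4 (by norm_num)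
  obtain ⟨U, hU, hS⟩ := S_form' r w a q (by omega) (by omega)
  rw [hS]
  have hU0 : U ≠ 0 := by rintro rfl; simp at hU
  positivity

theorem four_pow_dvd_iff (k e : ℕ) (U : ℤ) (hU : U % 2 = 1) :
    (4 : ℤ) ^ k ∣ 2 ^ e * U ↔ 2 * k ≤ e := by
  have h4 : (4 : ℤ) ^ k = 2 ^ (2 * k) := by rw [pow_mul]; norm_num
  rw [h4]
  constructor
  · intro h
    by_contra hlt
    obtain ⟨c, hc⟩ : ∃ c, 2 * k = e + (c + 1) := ⟨2 * k - e - 1, by omega⟩
    rw [hc, pow_add] at h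
    have h2 := Int.dvd_of_mul_dvd_mul_left (by positivity) h
    rw [pow_succ'] at h2
    have h3 : (2 : ℤ) ∣ U := dvd_trans (dvd_mul_right 2 _) h2
    omega
  · intro h
    exact dvd_trans (pow_dvd_pow 2 h) (dvd_mul_right _ _)

/-- the exponent of `2` in `S t n` for `t = 4 · 2^r · w` does not depend on odd `w` -/
theorem S_emult (r w w' n : ℕ) (hw : w % 2 = 1) (hw' : w' % 2 = 1) :
    emultiplicity (4 : ℤ) (S (4 * (2 ^ r * w)) n) = emultiplicity (4 : ℤ) (S (4 * (2 ^ r * w')) n) := by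
  rcases Nat.eq_zero_or_pos n with rfl | hn
  · rw [S_zero_right, S_zero_right]
  · obtain ⟨a, q, hq, rfl⟩ := Nat.exists_eq_pow_mul_and_not_dvd hn.ne' 4 (by norm_num)
    obtain ⟨U, hU, hS⟩ := S_form' r w a q hw (by omega)
    obtain ⟨U', hU', hS'⟩ := S_form' r w' a q hw' (by omega)
    rw [emultiplicity_eq_emultiplicity_iff]
    intro k
    rw [hS, hS', four_pow_dvd_iff _ _ _ hU, four_pow_dvd_iff _ _ _ hU']

/-- the largest power of `4` in terms of the exponent of `2` -/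
theorem multiplicity_four (e : ℕ) (U : ℤ) (hU : U % 2 = 1) :
    multiplicity (4 : ℤ) (2 ^ e * U) = e / 2 := by
  apply multiplicity_eq_of_dvd_of_not_dvd
  · rw [four_pow_dvd_iff _ _ _ hU]; omega
  · rw [four_pow_dvd_iff _ _ _ hU]; omega

theorem multiplicity_four' (t n : ℕ) (ht : 4 ∣ t) (ht0 : t ≠ 0) (hn : n ≠ 0) :
    multiplicity (4 : ℤ) (S t n) = padicValInt 2 (S t n) / 2 := by
  obtain ⟨u, rfl⟩ := ht
  have hu : u ≠ 0 := by rintro rfl; exact ht0 rfl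
  obtain ⟨r, w, hw, rfl⟩ := Nat.exists_eq_pow_mul_and_not_dvd hu 2 (by norm_num)
  obtain ⟨a, q, hq, rfl⟩ := Nat.exists_eq_pow_mul_and_not_dvd hn 4 (by norm_num)
  obtain ⟨U, hU, hS⟩ := S_form' r w a q (by omega) (by omega)
  rw [hS, multiplicity_four _ _ hU, padicValInt_form _ _ hU]

end Pool.Agent.X20.FourAry
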