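import Mathlib

/-! Power product expansion of the partition generating function: divisor recurrence. -/

namespace Pool.Agent.X20.PowerProd

open PowerSeries Finset

/-- number of partitions of `n` -/
def p (n : ℕ) : ℤ := (Fintype.card (Nat.Partition n) : ℤ)

/-- `IsExp a`: as formal power series `∑ p(n) x^n = ∏_{k ≥ 1} (1 + a_k x^k)`; the coefficient of
`x^N` of the product only depends on the factors with `k ≤ N`. -/
def IsExp (a : ℕ → ℤ) : Prop :=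
  ∀ N : ℕ, coeff N (∏ k ∈ Icc 1 N, (1 + C (a k) * X ^ k) : ℤ⟦X⟧) = p N

theorem dvd_prod_sub_one {ι : Type*} (s : Finset ι) (f : ι → ℤ⟦X⟧) (d : ℤ⟦X⟧)
    (h : ∀ i ∈ s, d ∣ f i - 1) : d ∣ ∏ i ∈ s, f i - 1 := by
  classical
  induction s using Finset.induction_on with
  | empty => simp
  | insert a s ha ih =>
    rw [Finset.prod_insert ha]
    have h1 := h a (mem_insert_self a s)
    have h2 := ih fun i hi => h i (mem_insert_of_mem hi)
    have e : f a * ∏ i ∈ s, f i - 1 = (f a - 1) * ∏ i ∈ s, f i + (∏ i ∈ s, f i - 1) := by ring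
    rw [e]
    exact dvd_add (dvd_mul_of_dvd_left h1 _) h2

/-- products over `k ≤ N` and `k ≤ M` agree up to degree `min` -/
theorem coeff_prod_eq (f : ℕ → ℤ⟦X⟧) (hf : ∀ k, X ^ k ∣ f k - 1) (m N : ℕ) (h : m ≤ N) :
    coeff m (∏ k ∈ Icc 1 N, f k) = coeff m (∏ k ∈ Icc 1 m, f k) := by
  have h1 : ∏ k ∈ Icc 1 N, f k = (∏ k ∈ Icc 1 m, f k) * ∏ k ∈ Ico (m + 1) (N + 1), f k := by
    have hI : ∀ M, Icc 1 M = Ico 1 (M + 1) := fun M => by ext; simp
    rw [hI, hI, Finset.prod_Ico_consecutive _ (by omega) (by omega)]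
  have h2 : (X : ℤ⟦X⟧) ^ (m + 1) ∣ ∏ k ∈ Ico (m + 1) (N + 1), f k - 1 := by
    apply dvd_prod_sub_one
    intro k hk
    rw [mem_Ico] at hk
    exact (pow_dvd_pow X hk.1).trans (hf k)
  have h3 : (X : ℤ⟦X⟧) ^ (m + 1) ∣ ∏ k ∈ Icc 1 N, f k - ∏ k ∈ Icc 1 m, f k := by
    rw [h1]
    have e : (∏ k ∈ Icc 1 m, f k) * ∏ k ∈ Ico (m + 1) (N + 1), f k - ∏ k ∈ Icc 1 m, f k =
      (∏ k ∈ Icc 1 m, f k) * (∏ k ∈ Ico (m + 1) (N + 1), f k - 1) := by ring
    rw [e]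
    exact dvd_mul_of_dvd_right h2 _
  rw [X_pow_dvd_iff] at h3
  have := h3 m (Nat.lt_succ_self m)
  rw [map_sub, sub_eq_zero] at this
  exact this

/-- the partition generating function -/
noncomputable def P : ℤ⟦X⟧ := PowerSeries.mk p

open PowerSeries.WithPiTopology in
theorem mul_pentagonal : P * pentagonalSeries ℤ = 1 := by
  let _ : TopologicalSpace ℤ := ⊥
  have _ : DiscreteTopology ℤ := ⟨rfl⟩
  have h1 := Nat.Partition.powerSeriesMk_card_restricted_eq_tprod ℤ (fun _ => True)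
  have h0 : P = PowerSeries.mk (fun n ↦ ((Nat.Partition.restricted n (fun _ => True)).card : ℤ)) := by
    ext d
    simp [P, p, Nat.Partition.restricted, Finset.card_univ]
  have hm := (Nat.Partition.multipliable_powerSeriesMk_card_restricted ℤ (fun _ => True)).tprod_mul
    (multipliable_one_sub_X_pow ℤ)
  rw [h0, h1, ← tprod_one_sub_X_pow ℤ, ← hm]
  simp only [if_true, pow_mul]
  rw [show (fun b : ℕ => (∑' (j : ℕ), ((X : PowerSeries ℤ) ^ (b + 1)) ^ j) * (1 - X ^ (b + 1))) =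
    fun _ => 1 from ?_, tprod_one]
  ext1 b
  rw [tsum_pow_mul_one_sub_of_constantCoeff_eq_zero (by simp)]

open PowerSeries.WithPiTopology in
theorem coeff_pentagonal (m : ℕ) :
    coeff m (pentagonalSeries ℤ) = coeff m (∏ k ∈ Icc 1 m, (1 - X ^ k : ℤ⟦X⟧)) := by
  let _ : TopologicalSpace ℤ := ⊥
  have _ : DiscreteTopology ℤ := ⟨rfl⟩
  have h1 : HasProd (fun n : ℕ => (1 - X ^ (n + 1) : ℤ⟦X⟧)) (pentagonalSeries ℤ) := by
    rw [← tprod_one_sub_X_pow ℤ]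
    exact (multipliable_one_sub_X_pow ℤ).hasProd
  have h2 := (PowerSeries.WithPiTopology.continuous_coeff ℤ m).tendsto (pentagonalSeries ℤ)
  have h3 := h2.comp h1
  rw [nhds_discrete, Filter.tendsto_pure] at h3
  have h4 := h3.and (Filter.eventually_ge_atTop (range m))
  obtain ⟨s, hs⟩ := h4.exists
  obtain ⟨hs1, hs2⟩ := hs
  have hs1' : coeff m (∏ b ∈ s, (1 - X ^ (b + 1) : ℤ⟦X⟧)) = coeff m (pentagonalSeries ℤ) := hs1
  rw [← hs1']
  have h5 : ∏ b ∈ s, (1 - X ^ (b + 1) : ℤ⟦X⟧) =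
      (∏ b ∈ s \ range m, (1 - X ^ (b + 1) : ℤ⟦X⟧)) * ∏ b ∈ range m, (1 - X ^ (b + 1) : ℤ⟦X⟧) :=
    (Finset.prod_sdiff hs2).symm
  have h6 : ∏ b ∈ range m, (1 - X ^ (b + 1) : ℤ⟦X⟧) = ∏ k ∈ Icc 1 m, (1 - X ^ k : ℤ⟦X⟧) := by
    have hI : Icc 1 m = Ico 1 (m + 1) := by ext; simp
    rw [hI, Finset.prod_Ico_eq_prod_range]
    apply Finset.prod_congr (by simp)
    intro k _
    rw [add_comm]
  rw [h5, h6]
  have h7 : (X : ℤ⟦X⟧) ^ (m + 1) ∣ ∏ b ∈ s \ range m, (1 - X ^ (b + 1) : ℤ⟦X⟧) - 1 := by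
    apply dvd_prod_sub_one
    intro b hb
    rw [mem_sdiff, mem_range, not_lt] at hb
    have e : (1 - X ^ (b + 1) : ℤ⟦X⟧) - 1 = X ^ (b + 1) * (-1) := by ring
    rw [e]
    exact dvd_mul_of_dvd_left (pow_dvd_pow X (by omega)) _
  have h8 : (X : ℤ⟦X⟧) ^ (m + 1) ∣ (∏ b ∈ s \ range m, (1 - X ^ (b + 1) : ℤ⟦X⟧)) *
      (∏ k ∈ Icc 1 m, (1 - X ^ k : ℤ⟦X⟧)) - ∏ k ∈ Icc 1 m, (1 - X ^ k : ℤ⟦X⟧) := by
    have e : (∏ b ∈ s \ range m, (1 - X ^ (b + 1) : ℤ⟦X⟧)) *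
      (∏ k ∈ Icc 1 m, (1 - X ^ k : ℤ⟦X⟧)) - ∏ k ∈ Icc 1 m, (1 - X ^ k : ℤ⟦X⟧) =
      (∏ b ∈ s \ range m, (1 - X ^ (b + 1) : ℤ⟦X⟧) - 1) * ∏ k ∈ Icc 1 m, (1 - X ^ k : ℤ⟦X⟧) := by
      ring
    rw [e]
    exact dvd_mul_of_dvd_left h7 _
  rw [X_pow_dvd_iff] at h8
  have := h8 m (Nat.lt_succ_self m)
  rw [map_sub, sub_eq_zero] at this
  exact this

theorem P_mul_prod (N : ℕ) :
    (X : ℤ⟦X⟧) ^ (N + 1) ∣ P * (∏ k ∈ Icc 1 N, (1 - X ^ k : ℤ⟦X⟧)) - 1 := by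
  have h1 : (X : ℤ⟦X⟧) ^ (N + 1) ∣ (∏ k ∈ Icc 1 N, (1 - X ^ k : ℤ⟦X⟧)) - pentagonalSeries ℤ := by
    rw [X_pow_dvd_iff]
    intro m hm
    rw [map_sub, sub_eq_zero, coeff_pentagonal, coeff_prod_eq _ _ m N (by omega)]
    intro k
    have e : (1 - X ^ k : ℤ⟦X⟧) - 1 = X ^ k * (-1) := by ring
    rw [e]
    exact dvd_mul_right _ _
  have e : P * (∏ k ∈ Icc 1 N, (1 - X ^ k : ℤ⟦X⟧)) - 1 =
      P * ((∏ k ∈ Icc 1 N, (1 - X ^ k : ℤ⟦X⟧)) - pentagonalSeries ℤ) := by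
    rw [mul_sub, mul_pentagonal]
  rw [e]
  exact dvd_mul_of_dvd_right h1 _

/-- `X d/dX` -/
noncomputable def th (f : ℤ⟦X⟧) : ℤ⟦X⟧ := X * (d⁄dX ℤ) f

theorem coeff_th (f : ℤ⟦X⟧) (n : ℕ) : coeff n (th f) = n * coeff n f := by
  unfold th
  rcases n with _ | n
  · simp
  · rw [coeff_succ_X_mul, coeff_derivative]
    push_cast
    ring

theorem th_mul (f g : ℤ⟦X⟧) : th (f * g) = th f * g + f * th g := by
  unfold th
  rw [Derivation.leibniz, smul_eq_mul, smul_eq_mul]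
  ring

theorem th_one : th 1 = 0 := by
  unfold th
  simp

theorem th_prod {ι : Type*} (s : Finset ι) (f g : ι → ℤ⟦X⟧) (h : ∀ i ∈ s, th (f i) = f i * g i) :
    th (∏ i ∈ s, f i) = (∏ i ∈ s, f i) * ∑ i ∈ s, g i := by
  classical
  induction s using Finset.induction_on with
  | empty => simp [th_one]
  | insert a s ha ih =>
    rw [Finset.prod_insert ha, Finset.sum_insert ha, th_mul, h a (mem_insert_self a s),
      ih fun i hi => h i (mem_insert_of_mem hi)]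
    ring

/-- logarithmic derivative of `1 + c X^k` -/
noncomputable def lg (c : ℤ) (k : ℕ) : ℤ⟦X⟧ :=
  PowerSeries.mk fun m => if k ∣ m ∧ m ≠ 0 then -(k : ℤ) * (-c) ^ (m / k) else 0

theorem th_factor (c : ℤ) (k : ℕ) (hk : 0 < k) :
    th (1 + C c * X ^ k) = (1 + C c * X ^ k) * lg c k := by
  ext m
  rw [coeff_th, add_mul, one_mul, map_add, map_add, mul_assoc, coeff_C_mul, coeff_C_mul,
    coeff_X_pow_mul', coeff_X_pow, coeff_one]
  simp only [lg, coeff_mk]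
  rcases lt_trichotomy m k with h | h | h
  · have h1 : ¬ (k ∣ m ∧ m ≠ 0) := by
      rintro ⟨h2, h3⟩
      have := Nat.le_of_dvd (by omega) h2
      omega
    rw [if_neg h1, if_neg (by omega : ¬ k ≤ m), if_neg (by omega : ¬ m = k)]
    by_cases hm : m = 0
    · simp [hm]
    · simp [hm]
  · subst h
    have hm0 : m ≠ 0 := hk.ne'
    simp [hm0, Nat.div_self hk]
  · rw [if_neg (by omega : ¬ m = 0), if_neg (by omega : ¬ m = k), if_pos h.le]
    by_cases hd : k ∣ m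
    · have hd' : k ∣ m - k := Nat.dvd_sub hd dvd_rfl
      rw [if_pos ⟨hd, by omega⟩, if_pos ⟨hd', by omega⟩]
      have e : m / k = (m - k) / k + 1 := by
        conv_lhs => rw [show m = m - k + k by omega]
        rw [Nat.add_div_right _ hk]
      rw [e]
      ring
    · have hd' : ¬ k ∣ m - k := fun h2 => hd (by
        have := Nat.dvd_add h2 (dvd_refl k)
        rwa [Nat.sub_add_cancel h.le] at this)
      rw [if_neg (fun h => hd h.1), if_neg (fun h => hd' h.1)]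
      simp

/-- **Divisor recurrence.** -/
theorem recurrence {a : ℕ → ℤ} (ha : IsExp a) (m : ℕ) (hm : 0 < m) :
    ∑ k ∈ m.divisors, (k : ℤ) * (-a k) ^ (m / k) = - ∑ k ∈ m.divisors, (k : ℤ) := by
  set F : ℤ⟦X⟧ := ∏ k ∈ Icc 1 m, (1 + C (a k) * X ^ k) with hF
  set E : ℤ⟦X⟧ := ∏ k ∈ Icc 1 m, (1 - X ^ k) with hE
  have hFP : (X : ℤ⟦X⟧) ^ (m + 1) ∣ F - P := by
    rw [X_pow_dvd_iff]
    intro j hj
    rw [map_sub, sub_eq_zero, hF, coeff_prod_eq _ _ j m (by omega), ha j, P, coeff_mk]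
    intro k
    have e : (1 + C (a k) * X ^ k : ℤ⟦X⟧) - 1 = X ^ k * C (a k) := by ring
    rw [e]
    exact dvd_mul_right _ _
  have hFE : (X : ℤ⟦X⟧) ^ (m + 1) ∣ F * E - 1 := by
    have e : F * E - 1 = (F - P) * E + (P * E - 1) := by ring
    rw [e]
    exact dvd_add (dvd_mul_of_dvd_left hFP _) (P_mul_prod m)
  set G : ℤ⟦X⟧ := (∑ k ∈ Icc 1 m, lg (a k) k) + ∑ k ∈ Icc 1 m, lg (-1) k with hG
  have h1 : th (F * E) = F * E * G := by
    rw [th_mul, hF, th_prod _ _ (fun k => lg (a k) k), hE, th_prod _ _ (fun k => lg (-1) k), hG]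
    · ring
    · intro k hk
      rw [mem_Icc] at hk
      have := th_factor (-1) k (by omega)
      rw [map_neg, map_one, neg_one_mul, ← sub_eq_add_neg] at this
      exact this
    · intro k hk
      rw [mem_Icc] at hk
      exact th_factor (a k) k (by omega)
  have h2 : (X : ℤ⟦X⟧) ^ (m + 1) ∣ th (F * E) := by
    rw [X_pow_dvd_iff] at hFE ⊢
    intro j hj
    rw [coeff_th]
    have h3 := hFE j hj
    rw [map_sub, sub_eq_zero] at h3
    rw [h3, coeff_one]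
    split_ifs with h
    · rw [h]; simp
    · simp
  have h3 : (X : ℤ⟦X⟧) ^ (m + 1) ∣ G := by
    have e : G = th (F * E) - (F * E - 1) * G := by rw [h1]; ring
    rw [e]
    exact dvd_sub h2 (dvd_mul_of_dvd_left hFE _)
  rw [X_pow_dvd_iff] at h3
  have h4 := h3 m (Nat.lt_succ_self m)
  rw [hG, map_add, map_sum, map_sum] at h4
  have h5 : ∀ c : ℕ → ℤ, ∑ k ∈ Icc 1 m, coeff m (lg (c k) k) =
      - ∑ k ∈ m.divisors, (k : ℤ) * (-c k) ^ (m / k) := by
    intro c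
    have e : m.divisors = (Icc 1 m).filter fun k => k ∣ m := by
      ext k
      rw [Nat.mem_divisors, mem_filter, mem_Icc]
      constructor
      · rintro ⟨h1, h2⟩
        exact ⟨⟨Nat.pos_of_dvd_of_pos h1 hm, Nat.le_of_dvd hm h1⟩, h1⟩
      · rintro ⟨_, h1⟩
        exact ⟨h1, hm.ne'⟩
    rw [e, Finset.sum_filter, ← Finset.sum_neg_distrib]
    apply Finset.sum_congr rfl
    intro k _
    simp only [lg, coeff_mk]
    by_cases hk : k ∣ m
    · rw [if_pos ⟨hk, hm.ne'⟩, if_pos hk]; ring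
    · rw [if_neg (fun h => hk h.1), if_neg hk, neg_zero]
  have h6 := h5 a
  have h7 := h5 (fun _ => -1)
  simp only [neg_neg, one_pow, mul_one] at h7
  rw [h6, h7] at h4
  linarith

/-- existence of the expansion -/
theorem exists_exp : ∃ a : ℕ → ℤ, IsExp a := by
  let F : ℕ → ℤ⟦X⟧ := fun N => Nat.rec 1 (fun n f => f * (1 + C (p (n + 1) - coeff (n + 1) f) * X ^ (n + 1))) N
  let a : ℕ → ℤ := fun k => p k - coeff k (F (k - 1))
  have hF0 : F 0 = 1 := rfl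
  have hFs : ∀ n, F (n + 1) = F n * (1 + C (a (n + 1)) * X ^ (n + 1)) := fun n => rfl
  have hF : ∀ N, F N = ∏ k ∈ Icc 1 N, (1 + C (a k) * X ^ k) := by
    intro N
    induction N with
    | zero => rw [hF0]; simp
    | succ N ih => rw [Finset.prod_Icc_succ_top (by omega), ← ih, hFs]
  refine ⟨a, fun N => ?_⟩
  rw [← hF]
  rcases N with _ | N
  · rw [hF0]
    simp [p]
  · rw [hFs, mul_add, mul_one, map_add]
    have e : F N * (C (a (N + 1)) * X ^ (N + 1)) = C (a (N + 1)) * (X ^ (N + 1) * F N) := by ring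
    rw [e, coeff_C_mul, coeff_X_pow_mul', if_pos le_rfl, Nat.sub_self]
    have h0 : coeff 0 (F N) = 1 := by
      rw [hF, coeff_zero_eq_constantCoeff_apply, map_prod]
      apply Finset.prod_eq_one
      intro k hk
      rw [mem_Icc] at hk
      simp [show k ≠ 0 by omega]
    rw [h0]
    change coeff (N + 1) (F N) + (p (N + 1) - coeff (N + 1) (F (N + 1 - 1))) * 1 = p (N + 1)
    rw [Nat.add_sub_cancel]
    ring

end Pool.Agent.X20.PowerProd
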