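import Mathlib
import Pool.Agent.X20.PowerProd
import Pool.Agent.X20.PowerProdTable

/-! Signs of the even-indexed coefficients. -/

namespace Pool.Agent.X20.PowerProd

open Finset

/-- sum of the divisors plus sum of the odd divisors -/
def sg (M : ℕ) : ℤ := ∑ K ∈ M.divisors, ((K : ℤ) + if K % 2 = 1 then (K : ℤ) else 0)

theorem odd_one {a : ℕ → ℤ} (ha : IsExp a) (m : ℕ) (hm : m % 2 = 1) : a m = 1 := by
  induction m using Nat.strong_induction_on with
  | _ m ih =>
    have hm0 : 0 < m := by omega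
    have h := recurrence ha m hm0
    rw [← Nat.cons_self_properDivisors hm0.ne', Finset.sum_cons, Finset.sum_cons,
      Nat.div_self hm0, pow_one] at h
    have h1 : ∑ k ∈ m.properDivisors, (k : ℤ) * (-a k) ^ (m / k) =
        - ∑ k ∈ m.properDivisors, (k : ℤ) := by
      rw [← Finset.sum_neg_distrib]
      apply Finset.sum_congr rfl
      intro k hk
      rw [Nat.mem_properDivisors] at hk
      obtain ⟨j, hj⟩ := hk.1
      have hkodd : k % 2 = 1 := by
        rcases Nat.mod_two_eq_zero_or_one k with h | h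
        · rw [hj, Nat.mul_mod, h] at hm; simp at hm
        · exact h
      have hjodd : j % 2 = 1 := by
        rcases Nat.mod_two_eq_zero_or_one j with h | h
        · rw [hj, Nat.mul_mod, h] at hm; simp at hm
        · exact h
      have hk0 : 0 < k := by omega
      rw [ih k hk.2 hkodd, hj, Nat.mul_div_cancel_left j hk0, (Nat.odd_iff.mpr hjodd).neg_one_pow]
      ring
    rw [h1] at h
    have h2 : (m : ℤ) * (-a m) = - (m : ℤ) := by linarith
    have h3 : (m : ℤ) ≠ 0 := by exact_mod_cast hm0.ne'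
    have h4 : (m : ℤ) * (a m - 1) = 0 := by linarith
    rcases mul_eq_zero.mp h4 with h5 | h5
    · exact absurd h5 h3
    · linarith

theorem sum_divisors_two_mul (M : ℕ) (hM : 0 < M) (f : ℕ → ℤ) :
    ∑ k ∈ (2 * M).divisors, f k =
      ∑ k ∈ M.divisors, (if k % 2 = 1 then f k else 0) + ∑ K ∈ M.divisors, f (2 * K) := by
  rw [← Finset.sum_filter_add_sum_filter_not (2 * M).divisors (fun k => k % 2 = 1),
    ← Finset.sum_filter]
  congr 1
  · apply Finset.sum_congr _ (fun _ _ => rfl)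
    ext k
    rw [mem_filter, mem_filter, Nat.mem_divisors, Nat.mem_divisors]
    constructor
    · rintro ⟨⟨h1, _⟩, h3⟩
      refine ⟨⟨?_, hM.ne'⟩, h3⟩
      exact (Nat.Coprime.dvd_mul_left (Nat.coprime_two_right.mpr (Nat.odd_iff.mpr h3))).mp h1
    · rintro ⟨⟨h1, _⟩, h3⟩
      exact ⟨⟨Dvd.dvd.mul_left h1 2, by omega⟩, h3⟩
  · rw [← Finset.sum_image (g := fun K => 2 * K) (f := f) (fun a _ b _ h => by simpa using h)]
    apply Finset.sum_congr _ (fun _ _ => rfl)
    ext k
    rw [mem_filter, mem_image, Nat.mem_divisors]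
    constructor
    · rintro ⟨⟨h1, _⟩, h3⟩
      obtain ⟨K, rfl⟩ : ∃ K, k = 2 * K := ⟨k / 2, by omega⟩
      exact ⟨K, Nat.mem_divisors.mpr ⟨Nat.dvd_of_mul_dvd_mul_left (by norm_num) h1, hM.ne'⟩, rfl⟩
    · rintro ⟨K, hK, rfl⟩
      rw [Nat.mem_divisors] at hK
      exact ⟨⟨Nat.mul_dvd_mul_left 2 hK.1, by omega⟩, by omega⟩

theorem even_rec {a : ℕ → ℤ} (ha : IsExp a) (M : ℕ) (hM : 0 < M) :
    ∑ K ∈ M.divisors, (K : ℤ) * (-a (2 * K)) ^ (M / K) = - sg M := by
  have h := recurrence ha (2 * M) (by omega)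
  rw [sum_divisors_two_mul M hM, sum_divisors_two_mul M hM] at h
  have h1 : ∑ k ∈ M.divisors, (if k % 2 = 1 then (k : ℤ) * (-a k) ^ (2 * M / k) else 0) =
      ∑ k ∈ M.divisors, (if k % 2 = 1 then (k : ℤ) else 0) := by
    apply Finset.sum_congr rfl
    intro k hk
    rw [Nat.mem_divisors] at hk
    split_ifs with hodd
    · obtain ⟨j, hj⟩ := hk.1
      have hk0 : 0 < k := by omega
      rw [odd_one ha k hodd, hj, show 2 * (k * j) = k * (2 * j) by ring,
        Nat.mul_div_cancel_left _ hk0, pow_mul, neg_one_sq, one_pow, mul_one]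
    · rfl
  have h2 : ∑ K ∈ M.divisors, ((2 * K : ℕ) : ℤ) * (-a (2 * K)) ^ (2 * M / (2 * K)) =
      2 * ∑ K ∈ M.divisors, (K : ℤ) * (-a (2 * K)) ^ (M / K) := by
    rw [Finset.mul_sum]
    apply Finset.sum_congr rfl
    intro K _
    rw [Nat.mul_div_mul_left _ _ (by norm_num : 0 < 2)]
    push_cast
    ring
  have h3 : ∑ K ∈ M.divisors, ((2 * K : ℕ) : ℤ) = 2 * ∑ K ∈ M.divisors, (K : ℤ) := by
    rw [Finset.mul_sum]
    apply Finset.sum_congr rfl
    intro K _
    push_cast
    ring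
  rw [h1, h2, h3] at h
  unfold sg
  rw [Finset.sum_add_distrib]
  linarith

theorem sdN_eq (f : ℕ → ℕ) (M N : ℕ) : sdN f M N = ∑ k ∈ (Icc 1 N).filter (fun k => k ∣ M), f k := by
  induction N with
  | zero => simp [sdN]
  | succ N ih =>
    rw [sdN, ih, Finset.sum_filter, Finset.sum_filter, Finset.sum_Icc_succ_top (by omega)]
    by_cases h : N + 1 ∣ M
    · have h1 : Nat.beq (M % (N + 1)) 0 = true := by
        rw [Nat.mod_eq_zero_of_dvd h]; rfl
      rw [h1, if_pos h, cond_true, add_comm]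
    · have h1 : Nat.beq (M % (N + 1)) 0 = false := by
        rw [← Bool.not_eq_true, Nat.beq_eq]
        intro h2
        exact h (Nat.dvd_of_mod_eq_zero h2)
      rw [h1, if_neg h, cond_false, add_zero]

theorem sdN_divisors (f : ℕ → ℕ) (M : ℕ) (hM : 0 < M) : sdN f M M = ∑ k ∈ M.divisors, f k := by
  rw [sdN_eq]
  apply Finset.sum_congr _ (fun _ _ => rfl)
  ext k
  rw [Nat.mem_divisors, mem_filter, mem_Icc]
  constructor
  · rintro ⟨_, h1⟩
    exact ⟨h1, hM.ne'⟩
  · rintro ⟨h1, _⟩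
    exact ⟨⟨Nat.pos_of_dvd_of_pos h1 hM, Nat.le_of_dvd hM h1⟩, h1⟩

theorem table_rec (M : ℕ) (hM : 0 < M) (hM2 : M < 512) :
    ∑ K ∈ M.divisors, (K : ℤ) * (-T K) ^ (M / K) = - sg M := by
  have h := List.all_eq_true.mp check_rec (M - 1) (List.mem_range.mpr (by omega))
  rw [show M - 1 + 1 = M by omega, Nat.beq_eq] at h
  unfold lhs rhs at h
  rw [sdN_divisors _ M hM, sdN_divisors _ M hM, sdN_divisors _ M hM] at h
  have h' : ((∑ k ∈ M.divisors, (cond (nng k && Nat.beq (M / k % 2) 1) 0 (k * mag k ^ (M / k))) : ℕ) : ℤ) +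
      ((∑ k ∈ M.divisors, (k + cond (Nat.beq (k % 2) 1) k 0) : ℕ) : ℤ) =
      ((∑ k ∈ M.divisors, (cond (nng k && Nat.beq (M / k % 2) 1) (k * mag k ^ (M / k)) 0) : ℕ) : ℤ) := by
    exact_mod_cast h
  have e1 : ((∑ k ∈ M.divisors, (k + cond (Nat.beq (k % 2) 1) k 0) : ℕ) : ℤ) = sg M := by
    unfold sg
    push_cast
    rw [Finset.sum_congr rfl]
    intro k _
    by_cases hk : k % 2 = 1
    · have : Nat.beq (k % 2) 1 = true := by rw [hk]; rfl
      rw [this, if_pos hk]; simp
    · have : Nat.beq (k % 2) 1 = false := by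
        rw [← Bool.not_eq_true, Nat.beq_eq]; exact hk
      rw [this, if_neg hk]; simp
  have e2 : ∑ K ∈ M.divisors, (K : ℤ) * (-T K) ^ (M / K) =
      ((∑ k ∈ M.divisors, (cond (nng k && Nat.beq (M / k % 2) 1) 0 (k * mag k ^ (M / k))) : ℕ) : ℤ) -
      ((∑ k ∈ M.divisors, (cond (nng k && Nat.beq (M / k % 2) 1) (k * mag k ^ (M / k)) 0) : ℕ) : ℤ) := by
    rw [Nat.cast_sum, Nat.cast_sum, ← Finset.sum_sub_distrib]
    apply Finset.sum_congr rfl
    intro k _
    unfold T
    cases hn : nng k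
    · simp
    · by_cases hk : M / k % 2 = 1
      · have : Nat.beq (M / k % 2) 1 = true := by rw [hk]; rfl
        rw [this]
        simp only [if_true, Bool.and_self, cond_true]
        rw [(Nat.odd_iff.mpr hk).neg_pow]
        push_cast
        ring
      · have : Nat.beq (M / k % 2) 1 = false := by
          rw [← Bool.not_eq_true, Nat.beq_eq]; exact hk
        rw [this]
        simp only [if_true, Bool.and_false, cond_false]
        rw [(Nat.even_iff.mpr (by omega : M / k % 2 = 0)).neg_pow]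
        push_cast
        ring
  rw [e2, ← e1]
  linarith

theorem eq_table {a : ℕ → ℤ} (ha : IsExp a) (M : ℕ) (hM : 0 < M) (hM2 : M < 512) :
    a (2 * M) = T M := by
  induction M using Nat.strong_induction_on with
  | _ M ih =>
    have h1 := even_rec ha M hM
    have h2 := table_rec M hM hM2
    rw [← h2] at h1
    rw [← Nat.cons_self_properDivisors hM.ne', Finset.sum_cons, Finset.sum_cons,
      Nat.div_self hM, pow_one, pow_one] at h1
    have h3 : ∑ K ∈ M.properDivisors, (K : ℤ) * (-a (2 * K)) ^ (M / K) =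
        ∑ K ∈ M.properDivisors, (K : ℤ) * (-T K) ^ (M / K) := by
      apply Finset.sum_congr rfl
      intro K hK
      rw [Nat.mem_properDivisors] at hK
      rw [ih K hK.2 (Nat.pos_of_dvd_of_pos hK.1 hM) (by omega)]
    rw [h3] at h1
    have h4 : (M : ℤ) * (a (2 * M) - T M) = 0 := by linarith
    have h5 : (M : ℤ) ≠ 0 := by exact_mod_cast hM.ne'
    rcases mul_eq_zero.mp h4 with h6 | h6
    · exact absurd h6 h5
    · linarith

end Pool.Agent.X20.PowerProd
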