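import Mathlib
import Pool.Agent.X20.PowerProd
import Pool.Agent.X20.PowerProdTable
import Pool.Agent.X20.PowerProdEven

/-! Signs of the even-indexed coefficients: analytic part. -/

namespace Pool.Agent.X20.PowerProd

open Finset

/-- normalised coefficient -/
noncomputable def bt (a : ℕ → ℤ) (K : ℕ) : ℝ := (a (2 * K) : ℝ) / 2 ^ K

theorem bt_rec {a : ℕ → ℤ} (ha : IsExp a) (M : ℕ) (hM : 0 < M) :
    (M : ℝ) * bt a M = (sg M : ℝ) / 2 ^ M + ∑ K ∈ M.properDivisors, (K : ℝ) * (-bt a K) ^ (M / K) := by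
  have h := even_rec ha M hM
  rw [← Nat.cons_self_properDivisors hM.ne', Finset.sum_cons, Nat.div_self hM, pow_one] at h
  have h1 : (M : ℝ) * (a (2 * M) : ℝ) = (sg M : ℝ) +
      ∑ K ∈ M.properDivisors, (K : ℝ) * (-(a (2 * K) : ℝ)) ^ (M / K) := by
    have h2 : (M : ℤ) * a (2 * M) = sg M + ∑ K ∈ M.properDivisors, (K : ℤ) * (-a (2 * K)) ^ (M / K) := by
      linarith
    exact_mod_cast h2
  have h2 : ∑ K ∈ M.properDivisors, (K : ℝ) * (-bt a K) ^ (M / K) =
      (∑ K ∈ M.properDivisors, (K : ℝ) * (-(a (2 * K) : ℝ)) ^ (M / K)) / 2 ^ M := by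
    rw [Finset.sum_div]
    apply Finset.sum_congr rfl
    intro K hK
    rw [Nat.mem_properDivisors] at hK
    unfold bt
    rw [← neg_div, div_pow, ← pow_mul, Nat.mul_div_cancel' hK.1]
    ring
  rw [h2]
  unfold bt
  rw [← mul_div_assoc, h1, add_div]

theorem abs_table {a : ℕ → ℤ} (ha : IsExp a) (K : ℕ) (hK : 0 < K) (hK2 : K < 512) :
    |bt a K| = (mag K : ℝ) / 2 ^ K := by
  unfold bt
  rw [eq_table ha K hK hK2, abs_div, abs_of_pos (by positivity : (0 : ℝ) < 2 ^ K)]
  congr 1
  unfold T
  split_ifs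
  · simp
  · simp

theorem small_bound {a : ℕ → ℤ} (ha : IsExp a) (K j : ℕ) (h3 : 3 ≤ K) (h96 : K < 96)
    (hj : (511 + K) / K ≤ j) : (K : ℝ) * |bt a K| ^ j ≤ 1 / 2000 := by
  have h := List.all_eq_true.mp check_small (K - 3) (List.mem_range.mpr (by omega))
  rw [show K - 3 + 3 = K by omega, Bool.and_eq_true, Nat.ble_eq, Nat.ble_eq] at h
  obtain ⟨h1, h2⟩ := h
  have h2' : |bt a K| ≤ 1 := by
    rw [abs_table ha K (by omega) (by omega), div_le_one (by positivity)]
    exact_mod_cast h2
  have h4 : |bt a K| ^ j ≤ |bt a K| ^ ((511 + K) / K) :=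
    pow_le_pow_of_le_one (abs_nonneg _) h2' hj
  have h5 : (2000 : ℝ) * K * |bt a K| ^ ((511 + K) / K) ≤ 1 := by
    rw [abs_table ha K (by omega) (by omega), div_pow, ← mul_div_assoc, div_le_one (by positivity),
      ← pow_mul]
    exact_mod_cast h1
  have hK0 : (0 : ℝ) ≤ K := Nat.cast_nonneg K
  have h6 : (K : ℝ) * |bt a K| ^ j ≤ K * |bt a K| ^ ((511 + K) / K) :=
    mul_le_mul_of_nonneg_left h4 hK0
  linarith

theorem large_bound (K j : ℕ) (b : ℝ) (hK : 96 ≤ K) (hj : 2 ≤ j) (hM : 512 ≤ K * j) (hb0 : 0 ≤ b)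
    (hb : (K : ℝ) * b ≤ 27 / 2) : (K : ℝ) * b ^ j ≤ 729 / 1024 * (1 / 5) ^ (j - 2) := by
  have hK0 : (0 : ℝ) < K := by exact_mod_cast (by omega : 0 < K)
  have key : ∀ L : ℕ, 0 < L → L ≤ K → b ≤ 27 / (2 * L) := by
    intro L hL hLK
    have hL0 : (0 : ℝ) < L := by exact_mod_cast hL
    rw [le_div_iff₀ (by positivity)]
    have : (L : ℝ) ≤ K := by exact_mod_cast hLK
    nlinarith
  have step : ∀ L : ℕ, 0 < L → L ≤ K → (K : ℝ) * b ^ j ≤ 27 / 2 * (27 / (2 * L)) ^ (j - 1) := by
    intro L hL hLK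
    have h1 := key L hL hLK
    have e : b ^ j = b * b ^ (j - 1) := by
      rw [← pow_succ', show j - 1 + 1 = j by omega]
    rw [e, ← mul_assoc]
    exact mul_le_mul hb (pow_le_pow_left₀ hb0 h1 _) (by positivity) (by norm_num)
  rcases Nat.lt_or_ge j 6 with h6 | h6
  · interval_cases j
    · have := step 256 (by norm_num) (by omega)
      norm_num at this ⊢
      linarith
    · have := step 171 (by norm_num) (by omega)
      norm_num at this ⊢
      linarith
    · have := step 128 (by norm_num) (by omega)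
      norm_num at this ⊢
      linarith
    · have := step 103 (by norm_num) (by omega)
      norm_num at this ⊢
      linarith
  · obtain ⟨i, rfl⟩ : ∃ i, j = 6 + i := ⟨j - 6, by omega⟩
    have h1 := step 96 (by norm_num) hK
    have e1 : (27 / (2 * ((96 : ℕ) : ℝ))) ^ (6 + i - 1) = (9 / 64) ^ 5 * (9 / 64) ^ i := by
      rw [show 6 + i - 1 = 5 + i by omega, pow_add]
      norm_num
    have e2 : (1 / 5 : ℝ) ^ (6 + i - 2) = (1 / 5) ^ 4 * (1 / 5) ^ i := by
      rw [show 6 + i - 2 = 4 + i by omega, pow_add]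
    rw [e1] at h1
    rw [e2]
    have h2 : (9 / 64 : ℝ) ^ i ≤ (1 / 5) ^ i := pow_le_pow_left₀ (by norm_num) (by norm_num) i
    have h3 : (0 : ℝ) ≤ (1 / 5) ^ i := by positivity
    calc (K : ℝ) * b ^ (6 + i) ≤ 27 / 2 * ((9 / 64) ^ 5 * (9 / 64) ^ i) := h1
      _ ≤ 27 / 2 * ((9 / 64) ^ 5 * (1 / 5) ^ i) := by gcongr
      _ = (27 / 2 * (9 / 64) ^ 5) * (1 / 5) ^ i := by ring
      _ ≤ (729 / 1024 * (1 / 5) ^ 4) * (1 / 5) ^ i := by
        apply mul_le_mul_of_nonneg_right _ h3
        norm_num
      _ = 729 / 1024 * ((1 / 5) ^ 4 * (1 / 5) ^ i) := by ring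

theorem sg_bound (M : ℕ) (hM : 512 ≤ M) : 0 ≤ (sg M : ℝ) ∧ (sg M : ℝ) / 2 ^ M ≤ 1 / 1000 := by
  have h1 : ∀ N : ℕ, 512 ≤ N → 1000 * (2 * N * (N + 1)) ≤ 2 ^ N := by
    intro N hN
    induction N, hN using Nat.le_induction with
    | base =>
      exact (by norm_num : 1000 * (2 * 512 * (512 + 1)) ≤ 2 ^ 100).trans
        (Nat.pow_le_pow_right (by norm_num) (by norm_num))
    | succ N hN ih =>
      rw [pow_succ]
      nlinarith
  have h2 : sg M ≤ 2 * M * (M + 1) := by
    have h3 : sg M ≤ ∑ K ∈ M.divisors, (2 * (M : ℤ)) := by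
      unfold sg
      apply Finset.sum_le_sum
      intro K hK
      have h4 : K ≤ M := Nat.divisor_le hK
      split_ifs <;> omega
    have h4 : (M.divisors.card : ℤ) ≤ M + 1 := by
      have := Nat.card_divisors_le_self M
      omega
    rw [Finset.sum_const, nsmul_eq_mul] at h3
    nlinarith
  have h3 : 0 ≤ sg M := by
    unfold sg
    apply Finset.sum_nonneg
    intro K _
    split_ifs <;> omega
  refine ⟨by exact_mod_cast h3, ?_⟩
  rw [div_le_iff₀ (by positivity)]
  have h4 := h1 M hM
  have h5 : (1000 : ℝ) * (2 * M * (M + 1)) ≤ 2 ^ M := by exact_mod_cast h4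
  have h6 : (sg M : ℝ) ≤ 2 * M * (M + 1) := by exact_mod_cast h2
  linarith

theorem err_bound {a : ℕ → ℤ} (ha : IsExp a) (M : ℕ) (hM : 512 ≤ M)
    (hinv : ∀ K, 0 < K → K < M → (K : ℝ) * |bt a K| ≤ 27 / 2) :
    ∑ K ∈ M.properDivisors.filter (fun K => 3 ≤ K), (K : ℝ) * |bt a K| ^ (M / K) ≤ 19 / 20 := by
  have hM0 : 0 < M := by omega
  rw [← Finset.sum_filter_add_sum_filter_not _ (fun K => K < 96)]
  have h1 : ∑ K ∈ (M.properDivisors.filter (fun K => 3 ≤ K)).filter (fun K => K < 96),
      (K : ℝ) * |bt a K| ^ (M / K) ≤ 93 / 2000 := by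
    calc ∑ K ∈ (M.properDivisors.filter (fun K => 3 ≤ K)).filter (fun K => K < 96),
          (K : ℝ) * |bt a K| ^ (M / K)
        ≤ ∑ K ∈ (M.properDivisors.filter (fun K => 3 ≤ K)).filter (fun K => K < 96),
          (1 / 2000 : ℝ) := by
          apply Finset.sum_le_sum
          intro K hK
          rw [mem_filter, mem_filter, Nat.mem_properDivisors] at hK
          obtain ⟨⟨⟨⟨j, hj⟩, _⟩, h3⟩, h96⟩ := hK
          apply small_bound ha K _ h3 h96
          have hK0 : 0 < K := by omega
          rw [hj, Nat.mul_div_cancel_left j hK0]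
          apply Nat.le_of_lt_succ
          rw [Nat.div_lt_iff_lt_mul hK0]
          have e : (j + 1) * K = K * j + K := by ring
          rw [Nat.succ_eq_add_one, e, ← hj]
          omega
      _ ≤ ∑ K ∈ Ico 3 96, (1 / 2000 : ℝ) := by
          apply Finset.sum_le_sum_of_subset_of_nonneg
          · intro K hK
            rw [mem_filter, mem_filter] at hK
            rw [mem_Ico]
            exact ⟨hK.1.2, hK.2⟩
          · intro _ _ _
            norm_num
      _ = 93 / 2000 := by
          rw [Finset.sum_const, Nat.card_Ico]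
          norm_num
  have h2 : ∑ K ∈ (M.properDivisors.filter (fun K => 3 ≤ K)).filter (fun K => ¬ K < 96),
      (K : ℝ) * |bt a K| ^ (M / K) ≤ 729 / 1024 * (5 / 4) := by
    set S := (M.properDivisors.filter (fun K => 3 ≤ K)).filter (fun K => ¬ K < 96) with hS
    have hmem : ∀ K ∈ S, K ∣ M ∧ K < M ∧ 96 ≤ K := by
      intro K hK
      rw [hS, mem_filter, mem_filter, Nat.mem_properDivisors] at hK
      exact ⟨hK.1.1.1, hK.1.1.2, by omega⟩
    calc ∑ K ∈ S, (K : ℝ) * |bt a K| ^ (M / K)
        ≤ ∑ K ∈ S, (729 / 1024 * (1 / 5 : ℝ) ^ (M / K - 2)) := by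
          apply Finset.sum_le_sum
          intro K hK
          obtain ⟨⟨j, hj⟩, hKM, h96⟩ := hmem K hK
          have hK0 : 0 < K := by omega
          have hjK : M / K = j := by rw [hj, Nat.mul_div_cancel_left j hK0]
          rw [hjK]
          have hj2 : 2 ≤ j := by
            by_contra hlt
            have : j ≤ 1 := by omega
            have : K * j ≤ K * 1 := Nat.mul_le_mul_left K this
            omega
          exact large_bound K j _ h96 hj2 (by omega) (abs_nonneg _) (hinv K hK0 hKM)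
      _ = ∑ j ∈ S.image (fun K => M / K), (729 / 1024 * (1 / 5 : ℝ) ^ (j - 2)) := by
          rw [Finset.sum_image]
          intro K hK L hL h
          obtain ⟨hK1, _, hK3⟩ := hmem K hK
          obtain ⟨hL1, _, hL3⟩ := hmem L hL
          dsimp only at h
          have e1 := Nat.div_mul_cancel hK1
          have e2 := Nat.div_mul_cancel hL1
          rw [h] at e1
          have h5 : 0 < M / L := Nat.div_pos (Nat.le_of_dvd hM0 hL1) (by omega)
          exact Nat.eq_of_mul_eq_mul_left h5 (e1.trans e2.symm)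
      _ ≤ ∑ j ∈ Ico 2 (M + 2), (729 / 1024 * (1 / 5 : ℝ) ^ (j - 2)) := by
          apply Finset.sum_le_sum_of_subset_of_nonneg
          · intro j hj
            rw [mem_image] at hj
            obtain ⟨K, hK, rfl⟩ := hj
            obtain ⟨hK1, hK2, hK3⟩ := hmem K hK
            rw [mem_Ico]
            constructor
            · rw [Nat.le_div_iff_mul_le (by omega)]
              obtain ⟨j, hj⟩ := hK1
              have hj2 : 2 ≤ j := by
                by_contra hlt
                have : j ≤ 1 := by omega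
                have : K * j ≤ K * 1 := Nat.mul_le_mul_left K this
                omega
              rw [hj]
              nlinarith
            · have := Nat.div_le_self M K
              omega
          · intro _ _ _
            positivity
      _ = 729 / 1024 * ∑ i ∈ range M, (1 / 5 : ℝ) ^ i := by
          rw [← Finset.mul_sum, Finset.sum_Ico_eq_sum_range]
          congr 1
          apply Finset.sum_congr (by simp)
          intro i _
          rw [show 2 + i - 2 = i by omega]
      _ ≤ 729 / 1024 * (5 / 4) := by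
          have h3 : ∑ i ∈ range M, (1 / 5 : ℝ) ^ i ≤ 5 / 4 := by
            rw [geom_sum_eq (by norm_num)]
            have : (0 : ℝ) ≤ (1 / 5) ^ M := by positivity
            rw [div_le_iff_of_neg (by norm_num)]
            linarith
          linarith
  linarith

set_option maxRecDepth 100000 in
theorem T_one : T 1 = 2 := by decide +kernel

set_option maxRecDepth 100000 in
theorem T_two : T 2 = 4 := by decide +kernel

theorem main_split {a : ℕ → ℤ} (ha : IsExp a) (M : ℕ) (hM : 512 ≤ M)
    (hinv : ∀ K, 0 < K → K < M → (K : ℝ) * |bt a K| ≤ 27 / 2) :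
    |(M : ℝ) * bt a M - ((-1) ^ M + if M % 2 = 0 then 2 * (-1) ^ (M / 2) else 0)| ≤ 951 / 1000 := by
  have hM0 : 0 < M := by omega
  have e1 : bt a 1 = 1 := by
    unfold bt
    rw [eq_table ha 1 (by norm_num) (by norm_num), T_one]
    norm_num
  have e2 : bt a 2 = 1 := by
    unfold bt
    rw [eq_table ha 2 (by norm_num) (by norm_num), T_two]
    norm_num
  rw [bt_rec ha M hM0, ← Finset.sum_filter_add_sum_filter_not _ (fun K => 3 ≤ K)]
  have h1 : ∑ K ∈ M.properDivisors.filter (fun K => ¬ 3 ≤ K), (K : ℝ) * (-bt a K) ^ (M / K) =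
      (-1) ^ M + if M % 2 = 0 then 2 * (-1) ^ (M / 2) else 0 := by
    have h2 : M.properDivisors.filter (fun K => ¬ 3 ≤ K) = if M % 2 = 0 then {1, 2} else {1} := by
      ext K
      rw [mem_filter, Nat.mem_properDivisors]
      split_ifs with h
      · rw [mem_insert, mem_singleton]
        constructor
        · rintro ⟨⟨h1, h2⟩, h3⟩
          have := Nat.pos_of_dvd_of_pos h1 hM0
          omega
        · rintro (rfl | rfl)
          · exact ⟨⟨one_dvd M, by omega⟩, by omega⟩
          · exact ⟨⟨Nat.dvd_of_mod_eq_zero h, by omega⟩, by omega⟩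
      · rw [mem_singleton]
        constructor
        · rintro ⟨⟨h1, h2⟩, h3⟩
          have := Nat.pos_of_dvd_of_pos h1 hM0
          have h4 : K ≠ 2 := by rintro rfl; exact h (Nat.mod_eq_zero_of_dvd h1)
          omega
        · rintro rfl
          exact ⟨⟨one_dvd M, by omega⟩, by omega⟩
    rw [h2]
    split_ifs with h
    · rw [Finset.sum_pair (by norm_num), e1, e2]
      simp
    · rw [Finset.sum_singleton, e1]
      simp
  rw [h1]
  have h3 : (sg M : ℝ) / 2 ^ M + (∑ K ∈ M.properDivisors.filter (fun K => 3 ≤ K),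
      (K : ℝ) * (-bt a K) ^ (M / K) + ((-1) ^ M + if M % 2 = 0 then 2 * (-1) ^ (M / 2) else 0)) -
      ((-1) ^ M + if M % 2 = 0 then 2 * (-1) ^ (M / 2) else 0) =
      (sg M : ℝ) / 2 ^ M + ∑ K ∈ M.properDivisors.filter (fun K => 3 ≤ K),
      (K : ℝ) * (-bt a K) ^ (M / K) := by ring
  rw [h3]
  have h4 : |∑ K ∈ M.properDivisors.filter (fun K => 3 ≤ K), (K : ℝ) * (-bt a K) ^ (M / K)| ≤ 19 / 20 := by
    refine (Finset.abs_sum_le_sum_abs _ _).trans (le_trans (le_of_eq ?_) (err_bound ha M hM hinv))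
    apply Finset.sum_congr rfl
    intro K _
    rw [abs_mul, abs_pow, abs_neg, Nat.abs_cast]
  obtain ⟨h5, h6⟩ := sg_bound M hM
  have h7 : 0 ≤ (sg M : ℝ) / 2 ^ M := by positivity
  rw [abs_le] at h4 ⊢
  constructor <;> linarith [h4.1, h4.2]

theorem inv_all {a : ℕ → ℤ} (ha : IsExp a) (M : ℕ) (hM : 0 < M) :
    (M : ℝ) * |bt a M| ≤ 27 / 2 := by
  induction M using Nat.strong_induction_on with
  | _ M ih =>
    rcases Nat.lt_or_ge M 512 with h | h
    · have h1 := List.all_eq_true.mp check_size (M - 1) (List.mem_range.mpr (by omega))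
      rw [show M - 1 + 1 = M by omega, Nat.ble_eq] at h1
      rw [abs_table ha M hM h, ← mul_div_assoc, div_le_iff₀ (by positivity)]
      have h2 : (2 : ℝ) * M * mag M ≤ 27 * 2 ^ M := by exact_mod_cast h1
      linarith
    · have h1 := main_split ha M h (fun K hK hKM => ih K hKM hK)
      have h2 : |((-1 : ℝ) ^ M + if M % 2 = 0 then 2 * (-1) ^ (M / 2) else 0)| ≤ 3 := by
        rcases neg_one_pow_eq_or ℝ M with e | e <;>
        rcases neg_one_pow_eq_or ℝ (M / 2) with e' | e' <;> rw [e, e'] <;> split_ifs <;> norm_num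
      have h3 : |(M : ℝ) * bt a M| ≤ 27 / 2 := by
        have := abs_add_le ((M : ℝ) * bt a M - ((-1) ^ M + if M % 2 = 0 then 2 * (-1) ^ (M / 2) else 0))
          ((-1) ^ M + if M % 2 = 0 then 2 * (-1) ^ (M / 2) else 0)
        rw [sub_add_cancel] at this
        linarith
      rwa [abs_mul, Nat.abs_cast] at h3

/-- sign pattern -/
theorem signs {a : ℕ → ℤ} (ha : IsExp a) (M : ℕ) (hM : 4 ≤ M) :
    if M % 4 = 0 then 0 < a (2 * M) else a (2 * M) < 0 := by
  rcases Nat.lt_or_ge M 512 with h | h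
  · have h1 := List.all_eq_true.mp check_pos (M - 4) (List.mem_range.mpr (by omega))
    rw [show M - 4 + 4 = M by omega, Nat.blt_eq] at h1
    rw [eq_table ha M (by omega) h]
    have h2 : Nat.blt M 4 = false := by
      rw [← Bool.not_eq_true, Nat.blt_eq]; omega
    split_ifs with h4
    · have h3 : nng M = true := by simp [nng, h4]
      unfold T
      rw [h3]
      simpa using h1
    · have h3 : nng M = false := by simp [nng, h4, h2]
      unfold T
      rw [h3]
      simpa using h1
  · have h1 := main_split ha M h (fun K hK _ => inv_all ha K hK)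
    have hpos : (0 : ℝ) < 2 ^ M := by positivity
    have hM0 : (0 : ℝ) < M := by exact_mod_cast (by omega : 0 < M)
    rw [abs_le] at h1
    split_ifs with h4
    · have e1 : (-1 : ℝ) ^ M = 1 := (Nat.even_iff.mpr (by omega)).neg_one_pow
      have e2 : (-1 : ℝ) ^ (M / 2) = 1 := (Nat.even_iff.mpr (by omega)).neg_one_pow
      rw [e1, e2, if_pos (by omega)] at h1
      have h2 : 0 < (M : ℝ) * bt a M := by linarith [h1.1]
      have h3 : 0 < bt a M := by
        by_contra hneg
        push Not at hneg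
        nlinarith
      unfold bt at h3
      rw [div_pos_iff] at h3
      rcases h3 with ⟨h3, _⟩ | ⟨_, h3⟩
      · exact_mod_cast h3
      · linarith
    · have h2 : (M : ℝ) * bt a M < 0 := by
        rcases Nat.mod_two_eq_zero_or_one M with h5 | h5
        · have e1 : (-1 : ℝ) ^ M = 1 := (Nat.even_iff.mpr (by omega)).neg_one_pow
          have e2 : (-1 : ℝ) ^ (M / 2) = -1 := (Nat.odd_iff.mpr (by omega)).neg_one_pow
          rw [e1, e2, if_pos h5] at h1
          linarith [h1.2]
        · have e1 : (-1 : ℝ) ^ M = -1 := (Nat.odd_iff.mpr h5).neg_one_pow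
          rw [e1, if_neg (by omega)] at h1
          linarith [h1.2]
      have h3 : bt a M < 0 := by
        by_contra hneg
        push Not at hneg
        nlinarith
      unfold bt at h3
      rw [div_neg_iff] at h3
      rcases h3 with ⟨_, h3⟩ | ⟨h3, _⟩
      · linarith
      · exact_mod_cast h3

end Pool.Agent.X20.PowerProd
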