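import Pool.Agent.Y854.PS.Total
import Pool.Agent.Y854.PS.FamA
import Pool.Agent.Helper923.PPS.BT
import Pool.Agent.X20.MF.Sets

/-! Primes in short intervals starting at `α n ^ c` (helper20). -/

set_option autoImplicit false

namespace Pool.Agent.X20.Amp
open Finset Filter
open Pool.Agent.Y854.PS (ff pr xs ms)

lemma pr_card (x H : ℝ) (hx : 0 ≤ x) (hH : 0 ≤ H) : (⌊x + H⌋₊ : ℝ) - ⌊x⌋₊ ≤ H + 1 := by
  have h1 := Nat.floor_le (a := x + H) (by positivity)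
  have h2 := Nat.lt_floor_add_one x
  linarith

lemma pr_le (x H : ℝ) (hx : 0 ≤ x) (hH : 0 ≤ H) : pr x H ≤ H + 1 := by
  unfold pr
  have h1 : ((Ioc ⌊x⌋₊ ⌊x + H⌋₊).filter Nat.Prime).card ≤ (Ioc ⌊x⌋₊ ⌊x + H⌋₊).card := card_filter_le _ _
  rw [Nat.card_Ioc] at h1
  have h2 : ⌊x⌋₊ ≤ ⌊x + H⌋₊ := Nat.floor_le_floor (by linarith)
  have h3 : (((Ioc ⌊x⌋₊ ⌊x + H⌋₊).filter Nat.Prime).card : ℝ) ≤ ((⌊x + H⌋₊ - ⌊x⌋₊ : ℕ) : ℝ) := by exact_mod_cast h1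
  rw [Nat.cast_sub h2] at h3
  linarith [pr_card x H hx hH]

lemma bound (c α ε : ℝ) (hc : 1 < c) (hα : 0 < α) (hε : 0 < ε) : ∃ (L : ℝ) (n₀ : ℕ), 1 ≤ L ∧ 2 ≤ n₀ ∧
    ∀ n : ℕ, n₀ ≤ n → ∀ H : ℝ, (n : ℝ) ^ ε ≤ H → 0 ≤ ff (xs α c n) H ∧ ff (xs α c n) H ≤ L := by
  obtain ⟨C, hC, hBT⟩ := Pool.Agent.Helper923.PPS.brun_titchmarsh
  have t : Tendsto (fun n : ℕ => xs α c n) atTop atTop := by
    have h1 : Tendsto (fun n : ℕ => (n : ℝ) ^ c) atTop atTop :=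
      (tendsto_rpow_atTop (by linarith)).comp tendsto_natCast_atTop_atTop
    exact h1.const_mul_atTop hα
  obtain ⟨n₁, hn₁⟩ := (t.eventually_ge_atTop 1).exists_forall_of_atTop
  obtain ⟨L, hL⟩ : ∃ L : ℝ, L = 3 * C * (|Real.log α| + c) / ε + 1 := ⟨_, rfl⟩
  have hL1 : 0 ≤ 3 * C * (|Real.log α| + c) / ε := by
    have := abs_nonneg (Real.log α)
    positivity
  refine ⟨L, max 3 n₁, by rw [hL]; linarith, le_trans (by norm_num) (le_max_left _ _), fun n hn H hH => ?_⟩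
  have hn3 : (3 : ℝ) ≤ n := by exact_mod_cast (le_max_left _ _).trans hn
  have hx1 : 1 ≤ xs α c n := hn₁ n ((le_max_right _ _).trans hn)
  have hn0 : (0 : ℝ) < n := by linarith
  have hlogn : 1 ≤ Real.log n := by
    rw [Real.le_log_iff_exp_le hn0]
    have := Real.exp_one_lt_d9
    linarith
  have hH1 : 1 ≤ H := le_trans (Real.one_le_rpow (by linarith) hε.le) hH
  have hH0 : 0 < H := by linarith
  have hlx0 : 0 ≤ Real.log (xs α c n) := Real.log_nonneg hx1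
  have hpr0 : 0 ≤ pr (xs α c n) H := Pool.Agent.Y854.PS.pr_nonneg _ _
  refine ⟨by unfold ff; positivity, ?_⟩
  obtain ⟨x, hx⟩ : ∃ x : ℝ, x = xs α c n := ⟨_, rfl⟩
  rw [← hx] at hx1 hlx0 hpr0 ⊢
  have hlogx : Real.log x ≤ (|Real.log α| + c) * Real.log n := by
    have h1 : Real.log x = Real.log α + c * Real.log n := by
      rw [hx]; unfold xs
      rw [Real.log_mul hα.ne' (by positivity), Real.log_rpow hn0]
    have h2 : Real.log α ≤ |Real.log α| * Real.log n := by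
      calc Real.log α ≤ |Real.log α| := le_abs_self _
        _ = |Real.log α| * 1 := (mul_one _).symm
        _ ≤ _ := mul_le_mul_of_nonneg_left hlogn (abs_nonneg _)
    rw [h1]; linarith
  obtain ⟨M, hM⟩ : ∃ M : ℕ, M = ⌊H⌋₊ + 2 := ⟨_, rfl⟩
  have hM1 : H + 1 < M := by rw [hM]; push_cast; linarith [Nat.lt_floor_add_one H]
  have hM2 : (M : ℝ) ≤ 3 * H := by
    rw [hM]; push_cast
    linarith [Nat.floor_le hH0.le]
  have hM2' : 2 ≤ M := by rw [hM]; omega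
  have h1 := hBT ⌊x⌋₊ 1 M hM2' (Or.inl rfl)
  have h2 : pr x H ≤ C * M / Real.log M := by
    refine le_trans ?_ h1
    unfold pr
    apply Nat.cast_le.2
    apply card_le_card_of_injOn (fun p => p - ⌊x⌋₊)
    · intro p hp
      rw [mem_coe, mem_filter, mem_Ioc] at hp
      simp only [mem_coe, mem_filter, mem_range, mul_one]
      have h3 : ⌊x⌋₊ + (p - ⌊x⌋₊) = p := by omega
      refine ⟨?_, by rw [h3]; exact hp.2⟩
      have h4 := pr_card x H (by linarith) hH0.le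
      have h5 : (p : ℝ) ≤ ⌊x + H⌋₊ := by exact_mod_cast hp.1.2
      have h6 : (p : ℝ) - ⌊x⌋₊ < M := by linarith
      have h7 : (p : ℝ) < (M + ⌊x⌋₊ : ℕ) := by push_cast; linarith
      have h8 : p < M + ⌊x⌋₊ := by exact_mod_cast h7
      omega
    · intro p hp q hq h
      rw [mem_coe, mem_filter, mem_Ioc] at hp hq
      simp only at h
      omega
  have hM0 : (0 : ℝ) < M := by linarith
  have hlogM : ε * Real.log n ≤ Real.log M := by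
    have h3 : Real.log ((n : ℝ) ^ ε) ≤ Real.log M := Real.log_le_log (by positivity) (by linarith)
    rwa [Real.log_rpow hn0] at h3
  have hεl : 0 < ε * Real.log n := by positivity
  have hac : 0 ≤ |Real.log α| + c := by have := abs_nonneg (Real.log α); linarith
  unfold ff
  rw [div_le_iff₀ hH0]
  calc pr x H * Real.log x ≤ (C * M / Real.log M) * ((|Real.log α| + c) * Real.log n) := by
        apply mul_le_mul h2 hlogx hlx0
        have : 0 < Real.log M := by linarith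
        positivity
    _ ≤ (C * M / (ε * Real.log n)) * ((|Real.log α| + c) * Real.log n) := by
        apply mul_le_mul_of_nonneg_right _ (by positivity)
        apply div_le_div_of_nonneg_left (by positivity) hεl hlogM
    _ = C * (|Real.log α| + c) / ε * M := by
        have : Real.log n ≠ 0 := by linarith
        field_simp
    _ ≤ C * (|Real.log α| + c) / ε * (3 * H) := by
        apply mul_le_mul_of_nonneg_left hM2
        positivity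
    _ ≤ L * H := by
        rw [hL]
        have : C * (|Real.log α| + c) / ε * (3 * H) = 3 * C * (|Real.log α| + c) / ε * H := by ring
        rw [this]
        nlinarith

/-- average and positive proportions -/
theorem amp (c : ℝ) (hc : 1 < c) : ∃ E : Set ℝ, dimH E < 1 ∧ ∀ α : ℝ, 0 < α → α ∉ E →
    ∀ ψ : ℕ → ℝ, Tendsto ψ atTop atTop → ∀ δ : ℝ, 0 < δ → ∃ N₀ : ℕ, ∀ N : ℕ, N₀ ≤ N →
      ∀ H : ℕ → ℝ, MonotoneOn H (Set.Icc 1 N) →
        (∀ n : ℕ, 1 ≤ n → n ≤ N → 1 ≤ H n ∧ ψ n ≤ H n ∧ H n ≤ α * (N : ℝ) ^ c) →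
        |∑ n ∈ Icc 1 N, (ff (α * (n : ℝ) ^ c) (H n) - 1)| ≤ δ * N := by
  obtain ⟨E, hE, hsamp⟩ := Pool.Agent.Y854.PS.samp_amp c hc
  refine ⟨E, hE, fun α hα hαE ψ hψ δ hδ => ?_⟩
  obtain ⟨κ, hκ, hS⟩ := hsamp α hα hαE
  obtain ⟨N₀, h⟩ := Pool.Agent.Y854.PS.total α c _ κ hα hc (Real.rpow_pos_of_pos hα _) hκ hS ψ hψ δ hδ
  refine ⟨N₀, fun N hN H hmono hH => ?_⟩
  exact h N hN H hmono (fun n hn => by
    rw [mem_Icc] at hn
    exact hH n hn.1 hn.2)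

theorem amp_prop (c α ε δ : ℝ) (hc : 1 < c) (hα : 0 < α) (hε : 0 < ε) (hδ : 0 < δ) (hδ1 : δ ≤ 1)
    (h : ∀ ψ : ℕ → ℝ, Tendsto ψ atTop atTop → ∀ δ : ℝ, 0 < δ → ∃ N₀ : ℕ, ∀ N : ℕ, N₀ ≤ N →
      ∀ H : ℕ → ℝ, MonotoneOn H (Set.Icc 1 N) →
        (∀ n : ℕ, 1 ≤ n → n ≤ N → 1 ≤ H n ∧ ψ n ≤ H n ∧ H n ≤ α * (N : ℝ) ^ c) →
        |∑ n ∈ Icc 1 N, (ff (α * (n : ℝ) ^ c) (H n) - 1)| ≤ δ * N) :
    ∃ b : ℝ, 0 < b ∧ ∃ N₀ : ℕ, ∀ N : ℕ, N₀ ≤ N → ∀ H : ℕ → ℝ, MonotoneOn H (Set.Icc 1 N) →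
      (∀ n : ℕ, 1 ≤ n → n ≤ N → (n : ℝ) ^ ε ≤ H n ∧ H n ≤ α * (N : ℝ) ^ c) →
      b * N ≤ (((Icc 1 N).filter (fun n : ℕ => 1 - δ ≤ ff (α * (n : ℝ) ^ c) (H n))).card : ℝ) ∧
      b * N ≤ (((Icc 1 N).filter (fun n : ℕ => ff (α * (n : ℝ) ^ c) (H n) ≤ 1 + δ)).card : ℝ) := by
  obtain ⟨L, n₀, hL1, hn₀2, hb⟩ := bound c α ε hc hα hε
  have t : Tendsto (fun n : ℕ => (n : ℝ) ^ ε) atTop atTop :=
    (tendsto_rpow_atTop hε).comp tendsto_natCast_atTop_atTop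
  -- we use the parameter d
  obtain ⟨d, hd⟩ : ∃ d : ℝ, d = δ / 2 := ⟨_, rfl⟩
  have hd0 : 0 < d := by rw [hd]; positivity
  obtain ⟨N₁, hN₁⟩ := h (fun n => (n : ℝ) ^ ε) t (d ^ 2 / 4) (by positivity)
  obtain ⟨K, hK⟩ : ∃ K : ℝ, K = ∑ n ∈ Ico 1 n₀, (1 + 2 * |Real.log (α * (n : ℝ) ^ c)|) := ⟨_, rfl⟩
  have hK0 : 0 ≤ K := by rw [hK]; positivity
  refine ⟨d ^ 2 / (2 * (L + 1 + d)), by positivity, ?_⟩
  have hev : ∀ᶠ N : ℕ in atTop, N₁ ≤ N ∧ 2 * n₀ ≤ N ∧ K / (d ^ 2 / 4) ≤ (N : ℝ) := by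
    filter_upwards [eventually_ge_atTop N₁, eventually_ge_atTop (2 * n₀),
      tendsto_natCast_atTop_atTop.eventually_ge_atTop (K / (d ^ 2 / 4))] with N h1 h2 h3
    exact ⟨h1, h2, h3⟩
  obtain ⟨N₀, hN₀⟩ := hev.exists_forall_of_atTop
  refine ⟨N₀, fun N hN H hmono hH => ?_⟩
  obtain ⟨k1, k2, k3⟩ := hN₀ N hN
  rw [div_le_iff₀ (by positivity)] at k3
  have hn₀1 : 1 ≤ n₀ := by omega
  have hN1 : n₀ ≤ N := by omega
  have hNpos : (0 : ℝ) < N := by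
    have : 0 < N := by omega
    exact_mod_cast this
  have hH1 : ∀ n : ℕ, 1 ≤ n → n ≤ N → 1 ≤ H n := by
    intro n h1 h2
    refine le_trans (Real.one_le_rpow (by exact_mod_cast h1) hε.le) (hH n h1 h2).1
  have hsum := hN₁ N k1 H hmono (fun n h1 h2 => ⟨hH1 n h1 h2, (hH n h1 h2).1, (hH n h1 h2).2⟩)
  obtain ⟨D, hD⟩ : ∃ D : ℕ → ℝ, D = fun n : ℕ => ff (α * (n : ℝ) ^ c) (H n) := ⟨_, rfl⟩
  have hDn : ∀ n : ℕ, ff (α * (n : ℝ) ^ c) (H n) = D n := fun n => by rw [hD]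
  simp only [hDn] at hsum ⊢
  -- the small integers
  have hsplit : ∑ n ∈ Icc 1 N, (D n - 1) = ∑ n ∈ Ico 1 n₀, (D n - 1) + ∑ n ∈ Icc n₀ N, (D n - 1) := by
    rw [← sum_union]
    · congr 1
      ext n
      simp only [mem_union, mem_Icc, mem_Ico]
      omega
    · rw [disjoint_left]
      intro n h1 h2
      rw [mem_Ico] at h1
      rw [mem_Icc] at h2
      omega
  have hsmall : |∑ n ∈ Ico 1 n₀, (D n - 1)| ≤ K := by
    rw [hK]
    refine (abs_sum_le_sum_abs _ _).trans (sum_le_sum fun n hn => ?_)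
    rw [mem_Ico] at hn
    have h1 := hH1 n hn.1 (by omega)
    have h0 : 0 < H n := by linarith
    have hx0 : (0 : ℝ) ≤ α * (n : ℝ) ^ c := by positivity
    have h2 := pr_le (α * (n : ℝ) ^ c) (H n) hx0 h0.le
    have h3 : 0 ≤ pr (α * (n : ℝ) ^ c) (H n) := Pool.Agent.Y854.PS.pr_nonneg _ _
    have h4 : |D n| ≤ 2 * |Real.log (α * (n : ℝ) ^ c)| := by
      rw [hD]
      show |pr (α * (n : ℝ) ^ c) (H n) * Real.log (α * (n : ℝ) ^ c) / H n| ≤ _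
      rw [abs_div, abs_mul, abs_of_nonneg h3, abs_of_pos h0, div_le_iff₀ h0]
      have h5 : pr (α * (n : ℝ) ^ c) (H n) ≤ 2 * H n := by linarith
      calc pr (α * (n : ℝ) ^ c) (H n) * |Real.log (α * (n : ℝ) ^ c)| ≤ (2 * H n) * |Real.log (α * (n : ℝ) ^ c)| :=
            mul_le_mul_of_nonneg_right h5 (abs_nonneg _)
        _ = _ := by ring
    calc |D n - 1| ≤ |D n| + |(1 : ℝ)| := abs_sub _ _
      _ ≤ _ := by rw [abs_one]; linarith
  have hbig : |∑ n ∈ Icc n₀ N, (D n - 1)| ≤ d ^ 2 / 2 * N := by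
    have h1 : ∑ n ∈ Icc n₀ N, (D n - 1) = ∑ n ∈ Icc 1 N, (D n - 1) - ∑ n ∈ Ico 1 n₀, (D n - 1) := by
      rw [hsplit]; ring
    rw [h1]
    calc |∑ n ∈ Icc 1 N, (D n - 1) - ∑ n ∈ Ico 1 n₀, (D n - 1)|
        ≤ |∑ n ∈ Icc 1 N, (D n - 1)| + |∑ n ∈ Ico 1 n₀, (D n - 1)| := abs_sub _ _
      _ ≤ d ^ 2 / 4 * N + K := add_le_add hsum hsmall
      _ ≤ _ := by linarith
  have hcard : d * N ≤ ((Icc n₀ N).card : ℝ) := by
    rw [Nat.card_Icc]
    have h1 : (N : ℝ) / 2 ≤ ((N + 1 - n₀ : ℕ) : ℝ) := by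
      rw [Nat.cast_sub (by omega)]
      push_cast
      have : 2 * (n₀ : ℝ) ≤ N := by exact_mod_cast k2
      linarith
    have h2 : d ≤ 1 / 2 := by rw [hd]; linarith
    nlinarith
  have hmem : ∀ n ∈ Icc n₀ N, 0 ≤ D n ∧ D n ≤ L := by
    intro n hn
    rw [mem_Icc] at hn
    rw [hD]
    exact hb n hn.1 (H n) (hH n (by omega) hn.2).1
  have hprop := Pool.Agent.X20.MF.proportion (Icc n₀ N) D N d L hNpos hd0 (by linarith)
    (fun n hn => (hmem n hn).1) (fun n hn => by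
      have := hmem n hn
      rw [abs_le]
      constructor <;> linarith) hcard hbig
  have hsub : Icc n₀ N ⊆ Icc 1 N := Icc_subset_Icc hn₀1 le_rfl
  constructor
  · refine hprop.1.trans (Nat.cast_le.2 (card_le_card ?_))
    intro n hn
    rw [mem_filter] at hn ⊢
    exact ⟨hsub hn.1, by rw [hd] at hn; linarith [hn.2]⟩
  · refine hprop.2.trans (Nat.cast_le.2 (card_le_card ?_))
    intro n hn
    rw [mem_filter] at hn ⊢
    exact ⟨hsub hn.1, by rw [hd] at hn; linarith [hn.2]⟩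

end Pool.Agent.X20.Amp
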