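import Mathlib

/-! Helper files of helper20. -/

namespace Pool.Agent.X20

end Pool.Agent.X20
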